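import Pool.Agent.H.MP_21b43d_ag.E3.TCharge

/-!
# M21, existence part, S4-A: comparison of two categories with rank, degree, Euler characteristic

`q` on `V ⊆ 𝒟` and an exact functor `P : 𝒞 ⥤ 𝒟` such that subobjects and quotients of `P M` extend
to subobjects and quotients of `M` up to a bounded change of the slope. If `χ ≤ C r` on the objects
of `V` with slopes in every window `(2j - 2, 2j]`, `|j| ≤ c`, then `χ ≤ C r` on the objects of
degree 0 and of `F` in `𝒞`.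
-/

open CategoryTheory CategoryTheory.Limits

universe v u v' u'

noncomputable section

namespace M21.E3

namespace RDX

variable {𝒟 : Type u} [Category.{v} 𝒟] [Abelian 𝒟] {V : ObjectProperty 𝒟}

/-- `(r, D - k r, χ)`: the classes `T` and `F` of slope `k`. -/
def sh (q : RDX V) (k : ℤ) : RDX V where
  r := q.r
  D M := q.D M - k * q.r M
  x := q.x
  add S hS h₁ h₂ h₃ := by
    obtain ⟨a1, a2, a3⟩ := q.add S hS h₁ h₂ h₃
    refine ⟨a1, ?_, a3⟩
    rw [a1, a2]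
    ring
  r_nonneg := q.r_nonneg
  D_nonneg M hM hr := by
    rw [hr, mul_zero, sub_zero]
    exact q.D_nonneg M hM hr
  x_pos M hM hr hD h0 := by
    refine q.x_pos M hM hr ?_ h0
    rw [hr, mul_zero, sub_zero] at hD
    exact hD
  noeth := q.noeth

variable (q : RDX V)

@[simp] theorem sh_r (k : ℤ) : (q.sh k).r = q.r := rfl

@[simp] theorem sh_x (k : ℤ) : (q.sh k).x = q.x := rfl

@[simp] theorem sh_D (k : ℤ) (M : 𝒟) : (q.sh k).D M = q.D M - k * q.r M := rfl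

theorem sh_Tf (k : ℤ) (M : 𝒟) : (q.sh k).Tf M ↔ q.Tf M := Iff.rfl

theorem Tc_mono {k l : ℤ} (h : k ≤ l) {M : 𝒟} (hM : (q.sh l).Tc M) : (q.sh k).Tc M := by
  refine ⟨hM.1, fun Q p hp hQ hz => ?_⟩
  have h1 := hM.2 Q p hp hQ hz
  have h2 := q.r_nonneg Q hQ.1
  rw [sh_D] at h1 ⊢
  nlinarith

theorem Fc_mono {k l : ℤ} (h : k ≤ l) {M : 𝒟} (hM : (q.sh k).Fc M) : (q.sh l).Fc M := by
  refine ⟨hM.1, fun N i hi hN => ?_⟩
  have h1 := hM.2 N i hi hN
  have h2 := q.r_nonneg N hN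
  rw [sh_D] at h1 ⊢
  nlinarith

theorem isZero_of_Tc_Fc (hV : WSerre V) {M : 𝒟} (h1 : q.Tc M) (h2 : q.Fc M) : IsZero M := by
  rw [IsZero.iff_id_eq_zero]
  exact q.Tc_Fc_zero hV h1 h2 (𝟙 M)

/-- The bound on the windows gives the bound on their union. -/
theorem bound_of_window (hV : WSerre V) (C : ℤ) (b : ℤ) :
    ∀ (n : ℕ) (a : ℤ), b - a ≤ n →
      (∀ j : ℤ, a < j → j ≤ b → ∀ N, (q.sh (2 * (j - 1))).Tc N → (q.sh (2 * j)).Fc N →
        q.x N ≤ C * q.r N) →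
      ∀ M, (q.sh (2 * a)).Tc M → (q.sh (2 * b)).Fc M → q.x M ≤ C * q.r M := by
  intro n
  induction n with
  | zero =>
    intro a hab _ M hT hF
    have hab' : b ≤ a := by
      have : b - a ≤ 0 := by simpa using hab
      omega
    have h0 : IsZero M := (q.sh (2 * a)).isZero_of_Tc_Fc hV hT (q.Fc_mono (by omega) hF)
    obtain ⟨h1, -, h3⟩ := q.inv_zero hV h0
    rw [h1, h3, mul_zero]
  | succ n ih =>
    intro a hab hw M hT hF
    by_cases hlt : b ≤ a
    · have h0 : IsZero M := (q.sh (2 * a)).isZero_of_Tc_Fc hV hT (q.Fc_mono (by omega) hF)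
      obtain ⟨h1, -, h3⟩ := q.inv_zero hV h0
      rw [h1, h3, mul_zero]
    · obtain ⟨S, hS, rfl, h1, h3⟩ := (q.sh (2 * (a + 1))).exists_ses hV M hT.1
      have hm := hS.mono_f
      have he := hS.epi_g
      obtain ⟨a1, -, a3⟩ := q.add S hS h1.1 hT.1 h3.1.1
      have hF1 : (q.sh (2 * b)).Fc S.X₁ := (q.sh (2 * b)).Fc_sub hV S.f hm h1.1 hF
      have e1 : q.x S.X₁ ≤ C * q.r S.X₁ := by
        refine ih (a + 1) (by push_cast at hab; omega) (fun j hj hj' => hw j (by omega) hj') _ h1 hF1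
      have hT3 : (q.sh (2 * a)).Tc S.X₃ := (q.sh (2 * a)).Tc_quot hV S.g he h3.1.1 hT
      have e3 : q.x S.X₃ ≤ C * q.r S.X₃ := by
        refine hw (a + 1) (by omega) (by omega) _ ?_ h3
        have : a + 1 - 1 = a := by ring
        rw [this]
        exact hT3
      rw [a1, a3]
      linarith

end RDX

variable {𝒞 : Type u'} [Category.{v'} 𝒞] [Abelian 𝒞] {W : ObjectProperty 𝒞}
  {𝒟 : Type u} [Category.{v} 𝒟] [Abelian 𝒟] {V : ObjectProperty 𝒟}

/-- An exact functor `P` from `W ⊆ 𝒞` to `V ⊆ 𝒟` such that subobjects `N` of `P M` are contained in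
`P M'`, `M' ⊆ M`, with slopes at least those of `N` minus `2 c`, and quotients `N` of `P M` are
quotients of `P M''`, `M''` a quotient of `M`, with slopes at most those of `N` plus `2 c`. -/
structure Push (W : ObjectProperty 𝒞) (q : RDX V) (P : 𝒞 ⥤ 𝒟) [P.PreservesZeroMorphisms] (c : ℤ) :
    Prop where
  mem : ∀ M, W M → V (P.obj M)
  zero : ∀ M, W M → IsZero (P.obj M) → IsZero M
  exact : ∀ S : ShortComplex 𝒞, S.ShortExact → W S.X₁ → W S.X₂ → W S.X₃ → (S.map P).ShortExact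
  noeth : ∀ M, W M → ∀ f : ℕ →o Subobject M, (∀ n, W (f n : 𝒞)) → ∃ n, ∀ m, n ≤ m → f n = f m
  sub : ∀ M, W M → ∀ (N : 𝒟) (i : N ⟶ P.obj M), Mono i → V N →
    ∃ (M' : 𝒞) (j : M' ⟶ M) (k : N ⟶ P.obj M'), Mono j ∧ W M' ∧ k ≫ P.map j = i ∧
      ∀ l : ℤ, (q.sh l).Tc N → (q.sh (l - 2 * c)).Tc (P.obj M')
  quot : ∀ M, W M → ∀ (N : 𝒟) (p : P.obj M ⟶ N), Epi p → V N →
    ∃ (M'' : 𝒞) (g : M ⟶ M'') (k : P.obj M'' ⟶ N), Epi g ∧ W M'' ∧ P.map g ≫ k = p ∧
      ∀ l : ℤ, (q.sh l).Fc N → (q.sh (l + 2 * c)).Fc (P.obj M'')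

namespace Push

variable {q : RDX V} {P : 𝒞 ⥤ 𝒟} [P.PreservesZeroMorphisms] {c : ℤ} (h : Push W q P c)

include h

/-- rank, degree and Euler characteristic on `W`, pulled back along `P` -/
def rdx : RDX W where
  r M := q.r (P.obj M)
  D M := q.D (P.obj M)
  x M := q.x (P.obj M)
  add S hS h₁ h₂ h₃ := q.add (S.map P) (h.exact S hS h₁ h₂ h₃) (h.mem _ h₁) (h.mem _ h₂) (h.mem _ h₃)
  r_nonneg M hM := q.r_nonneg _ (h.mem M hM)
  D_nonneg M hM hr := q.D_nonneg _ (h.mem M hM) hr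
  x_pos M hM hr hD h0 := q.x_pos _ (h.mem M hM) hr hD fun hz => h0 (h.zero M hM hz)
  noeth := h.noeth

theorem mono_map (hW : WSerre W) {M M' : 𝒞} (j : M' ⟶ M) (hj : Mono j) (hM : W M) (hM' : W M') :
    Mono (P.map j) := by
  have hc : W (cokernel j) := hW.cokernel j hM' hM
  have hS : (ShortComplex.mk j (cokernel.π j) (cokernel.condition j)).ShortExact :=
    { exact := ShortComplex.exact_cokernel j
      mono_f := hj
      epi_g := inferInstance }
  exact (h.exact _ hS hM' hM hc).mono_f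

theorem epi_map (hW : WSerre W) {M M'' : 𝒞} (g : M ⟶ M'') (hg : Epi g) (hM : W M) (hM'' : W M'') :
    Epi (P.map g) := by
  have hc : W (kernel g) := hW.kernel g hM hM''
  have hS : (ShortComplex.mk (kernel.ι g) g (kernel.condition g)).ShortExact :=
    { exact := ShortComplex.exact_kernel g
      mono_f := inferInstance
      epi_g := hg }
  exact (h.exact _ hS hc hM hM'').epi_g

/-- torsion-free objects -/
theorem tf (hW : WSerre W) (hV : WSerre V) {M : 𝒞} (hM : h.rdx.Tf M) : q.Tf (P.obj M) := by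
  refine ⟨h.mem M hM.1, fun N i hi hN hr => ?_⟩
  obtain ⟨M', j, k, hj, hM', hk, hT⟩ := h.sub M hM.1 N i hi hN
  have h1 : ∀ l : ℤ, (q.sh l).Tc N := fun l => (q.sh l).Tc_of_rank_zero hV hN hr
  have h2 : q.r (P.obj M') = 0 := by
    by_contra h3
    have h4 := q.r_nonneg _ (h.mem M' hM')
    have h5 : 0 < q.r (P.obj M') := lt_of_le_of_ne h4 (Ne.symm h3)
    have h6 := ((q.sh (q.D (P.obj M') + 1)).Tc_D hV (by
      have := hT (q.D (P.obj M') + 1 + 2 * c) (h1 _)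
      have e : q.D (P.obj M') + 1 + 2 * c - 2 * c = q.D (P.obj M') + 1 := by ring
      rwa [e] at this)).1
    rw [RDX.sh_D] at h6
    have h7 := ((q.sh (0 : ℤ)).Tc_D hV (by
      have := hT (2 * c) (h1 _)
      have e : 2 * c - 2 * c = 0 := by ring
      rwa [e] at this)).1
    rw [RDX.sh_D] at h7
    nlinarith
  have h3 : IsZero M' := hM.2 M' j hj hM' h2
  have h4 : IsZero (P.obj M') := P.map_isZero h3
  have h5 : i = 0 := by rw [← hk, h4.eq_of_tgt k 0, zero_comp]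
  rw [IsZero.iff_id_eq_zero, ← cancel_mono i, h5, comp_zero, comp_zero]

/-- Step 1: `P M` has slopes at most `2 c`. -/
theorem step1 (hW : WSerre W) (hV : WSerre V) {M : 𝒞} (hM : h.rdx.Fc M) :
    (q.sh (2 * c)).Fc (P.obj M) := by
  refine (q.sh (2 * c)).Fc_of_no_Tc hV (h.mem M hM.1.1) fun N i hi hN hT => ?_
  obtain ⟨M', j, k, hj, hM', hk, hT'⟩ := h.sub M hM.1.1 N i hi hN
  have h1 := hT' (2 * c) hT
  have e : 2 * c - 2 * c = 0 := by ring
  rw [e] at h1
  have h2 : q.Tf (P.obj M') := by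
    have h3 := h.tf hW hV hM.1
    have h4 := h.mono_map hW j hj hM.1.1 hM'
    exact ⟨h.mem M' hM', fun K i hi hK hr => h3.2 K (i ≫ P.map j) (mono_comp _ _) hK hr⟩
  have h3 : IsZero (P.obj M') := by
    by_contra hz
    have h4 := h1.2 (P.obj M') (𝟙 _) inferInstance h2 hz
    rw [RDX.sh_D] at h4
    have h5 := hM.2 M' j hj hM'
    have h6 : h.rdx.D M' = q.D (P.obj M') := rfl
    linarith
  have h5 : i = 0 := by rw [← hk, h3.eq_of_tgt k 0, zero_comp]
  rw [IsZero.iff_id_eq_zero, ← cancel_mono i, h5, comp_zero, comp_zero]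

/-- Step 2: `P M` has slopes greater than `- 2 c - 2`. -/
theorem step2 (hW : WSerre W) (hV : WSerre V) {M : 𝒞} (hM : h.rdx.Fc M) (hD : h.rdx.D M = 0) :
    (q.sh (2 * (-c - 1))).Tc (P.obj M) := by
  obtain ⟨S, hS, h2, h1, h3⟩ := (q.sh (2 * (-c - 1))).exists_ses hV (P.obj M) (h.mem M hM.1.1)
  have hz : IsZero S.X₃ := by
    by_contra hz
    have he := hS.epi_g
    let p : P.obj M ⟶ S.X₃ := eqToHom h2.symm ≫ S.g
    have hp : Epi p := epi_comp _ _
    obtain ⟨M'', g, k, hg, hM'', hk, hF⟩ := h.quot M hM.1.1 S.X₃ p hp h3.1.1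
    have h4 := hF _ h3
    have e : 2 * (-c - 1) + 2 * c = -2 := by ring
    rw [e] at h4
    have h5 := h4.2 (P.obj M'') (𝟙 _) inferInstance h4.1.1
    rw [RDX.sh_D] at h5
    -- the degree of a quotient is nonnegative
    have hK : W (kernel g) := hW.kernel g hM.1.1 hM''
    have hSg : (ShortComplex.mk (kernel.ι g) g (kernel.condition g)).ShortExact :=
      { exact := ShortComplex.exact_kernel g
        mono_f := inferInstance
        epi_g := hg }
    obtain ⟨-, a2, -⟩ := h.rdx.add _ hSg hK hM.1.1 hM''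
    have h6 := hM.2 (kernel g) (kernel.ι g) inferInstance hK
    have h7 : h.rdx.D M'' = q.D (P.obj M'') := rfl
    dsimp only at a2
    have h8 := q.r_nonneg _ (h.mem M'' hM'')
    have h9 : q.r (P.obj M'') = 0 := by linarith
    have h10 : IsZero (P.obj M'') := h4.1.2 _ (𝟙 _) inferInstance h4.1.1 h9
    have h11 : p = 0 := by rw [← hk, h10.eq_of_src k 0, comp_zero]
    apply hz
    rw [IsZero.iff_id_eq_zero, ← cancel_epi p, h11, zero_comp, zero_comp]
  have hm := hS.mono_f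
  have h4 : IsIso S.f := hS.isIso_f_iff.2 hz
  have h5 := (q.sh (2 * (-c - 1))).Tc_iso hV (asIso S.f) h1
  rw [h2] at h5
  exact h5

/-- **The comparison theorem.** -/
theorem pos (hW : WSerre W) (hV : WSerre V) (C t : ℤ) (hC : C < t)
    (hwin : ∀ j : ℤ, -c - 1 < j → j ≤ c → ∀ N, (q.sh (2 * (j - 1))).Tc N → (q.sh (2 * j)).Fc N →
      q.x N ≤ C * q.r N)
    (hull : ∀ M, q.Tf M → ∃ n : ℤ, ∀ (M' : 𝒟) (i : M ⟶ M'), Mono i → q.Tf M' → q.r M' = q.r M →
      q.D M' = q.D M → q.x M' ≤ n) : Pos h.rdx t := by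
  refine ⟨fun M hM hD h0 => ?_, fun M hM => ?_⟩
  · have h1 := q.bound_of_window hV C c ((c - (-c - 1)).toNat) (-c - 1)
      (Int.self_le_toNat _) hwin (P.obj M) (h.step2 hW hV hM hD) (h.step1 hW hV hM)
    have h2 := q.r_nonneg _ (h.mem M hM.1.1)
    have h3 : q.r (P.obj M) ≠ 0 := fun h4 => h0 (hM.1.2 M (𝟙 M) inferInstance hM.1.1 h4)
    have h5 : 0 < q.r (P.obj M) := lt_of_le_of_ne h2 (Ne.symm h3)
    show q.x (P.obj M) < t * q.r (P.obj M)
    nlinarith
  · obtain ⟨n, hn⟩ := hull (P.obj M) (h.tf hW hV hM)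
    exact ⟨n, fun M' i hi hM' hr hD => hn (P.obj M') (P.map i)
      (h.mono_map hW i hi hM'.1 hM.1) (h.tf hW hV hM') hr hD⟩

end Push

end M21.E3
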