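import Pool.Agent.H.MP_21b43d_ag.E3.Wk

/-!
# M21, existence part, B5: the bounded derived category with cohomology in `W`, additive functions
-/

open CategoryTheory CategoryTheory.Limits CategoryTheory.Pretriangulated
  CategoryTheory.Triangulated

universe w v u

noncomputable section

namespace M21.E3

variable {𝒞 : Type u} [Category.{v} 𝒞] [Abelian 𝒞] [HasDerivedCategory.{w} 𝒞]

/-- `n`-th cohomology -/
abbrev HH (n : ℤ) (K : DerivedCategory 𝒞) : 𝒞 := (DerivedCategory.homologyFunctor 𝒞 n).obj K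

/-- bounded complexes with cohomology in `W` -/
def dbW (W : ObjectProperty 𝒞) : ObjectProperty (DerivedCategory 𝒞) := fun K =>
  (∃ a b : ℤ, K.IsGE a ∧ K.IsLE b) ∧ ∀ i : ℤ, W (HH i K)

/-- Five-term exact sequences. -/
theorem five_DbW {W : ObjectProperty 𝒞} (hW : WSerre W) {A₁ A₂ A₃ A₄ A₅ : 𝒞} (a : A₁ ⟶ A₂)
    (b : A₂ ⟶ A₃) (c : A₃ ⟶ A₄)
    (d : A₄ ⟶ A₅) (hab : a ≫ b = 0) (hbc : b ≫ c = 0) (hcd : c ≫ d = 0)
    (e₂ : (ShortComplex.mk a b hab).Exact) (e₃ : (ShortComplex.mk b c hbc).Exact)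
    (e₄ : (ShortComplex.mk c d hcd).Exact) (h₁ : W A₁) (h₂ : W A₂) (h₄ : W A₄) (h₅ : W A₅) :
    W A₃ := by
  have hQ := hW.cokernel a h₁ h₂
  have hK := hW.kernel d h₄ h₅
  have m : Mono (cokernel.desc a b hab) :=
    (ShortComplex.exact_iff_mono_cokernel_desc (ShortComplex.mk a b hab)).mp e₂
  have e : Epi (kernel.lift d c hcd) :=
    (ShortComplex.exact_iff_epi_kernel_lift (ShortComplex.mk c d hcd)).mp e₄
  have z : cokernel.desc a b hab ≫ kernel.lift d c hcd = 0 := by
    rw [← cancel_epi (cokernel.π a), ← cancel_mono (kernel.ι d)]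
    simp [hbc]
  have z' : b ≫ kernel.lift d c hcd = 0 := by
    rw [← cancel_mono (kernel.ι d)]
    simp [hbc]
  have x1 : (ShortComplex.mk b (kernel.lift d c hcd) z').Exact := by
    have h := ShortComplex.exact_iff_of_epi_of_isIso_of_mono
      (S₁ := ShortComplex.mk b (kernel.lift d c hcd) z') (S₂ := ShortComplex.mk b c hbc)
      { τ₁ := 𝟙 _, τ₂ := 𝟙 _, τ₃ := kernel.ι d, comm₁₂ := by simp, comm₂₃ := by simp }
    exact h.mpr e₃
  have x2 : (ShortComplex.mk (cokernel.desc a b hab) (kernel.lift d c hcd) z).Exact := by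
    have h := ShortComplex.exact_iff_of_epi_of_isIso_of_mono
      (S₁ := ShortComplex.mk b (kernel.lift d c hcd) z')
      (S₂ := ShortComplex.mk (cokernel.desc a b hab) (kernel.lift d c hcd) z)
      { τ₁ := cokernel.π a, τ₂ := 𝟙 _, τ₃ := 𝟙 _, comm₁₂ := by simp, comm₂₃ := by simp }
    exact h.mp x1
  exact hW.ext (ShortComplex.mk (cokernel.desc a b hab) (kernel.lift d c hcd) z)
    { exact := x2, mono_f := m, epi_g := e } hQ hK

theorem iff_DbW (W : ObjectProperty 𝒞) (K : DerivedCategory 𝒞) : dbW W K ↔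
    (∃ a b : ℤ, ∀ i : ℤ, i < a ∨ b < i → IsZero (HH i K)) ∧ ∀ i : ℤ, W (HH i K) := by
  refine and_congr ?_ Iff.rfl
  constructor
  · rintro ⟨a, b, ha, hb⟩
    refine ⟨a, b, fun i hi => ?_⟩
    rcases hi with hi | hi
    · exact (DerivedCategory.isGE_iff K a).mp ha i hi
    · exact (DerivedCategory.isLE_iff K b).mp hb i hi
  · rintro ⟨a, b, h⟩
    exact ⟨a, b, (DerivedCategory.isGE_iff K a).mpr fun i hi => h i (Or.inl hi),
      (DerivedCategory.isLE_iff K b).mpr fun i hi => h i (Or.inr hi)⟩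

theorem dbW_iso {W : ObjectProperty 𝒞} (hW : WSerre W) {K L : DerivedCategory 𝒞} (e : K ≅ L)
    (h : dbW W K) : dbW W L := by
  rw [iff_DbW] at h ⊢
  obtain ⟨⟨a, b, hab⟩, hc⟩ := h
  have f : ∀ i : ℤ, HH i K ≅ HH i L := fun i =>
    (DerivedCategory.homologyFunctor 𝒞 i).mapIso e
  exact ⟨⟨a, b, fun i hi => (hab i hi).of_iso (f i).symm⟩, fun i => hW.iso (f i) (hc i)⟩

theorem dbW_single {W : ObjectProperty 𝒞} (hW : WSerre W) (M : 𝒞) (h : W M) (n : ℤ) :
    dbW W ((DerivedCategory.singleFunctor 𝒞 n).obj M) := by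
  refine ⟨⟨n, n, inferInstance, inferInstance⟩, fun i => ?_⟩
  rcases lt_trichotomy i n with hi | hi | hi
  · exact hW.zero _ (DerivedCategory.isZero_of_isGE _ n i hi)
  · subst hi
    exact hW.iso ((DerivedCategory.singleFunctorCompHomologyFunctorIso 𝒞 i).app M).symm h
  · exact hW.zero _ (DerivedCategory.isZero_of_isLE _ n i hi)

open scoped ZeroObject in
/-- `dbW W` is a triangulated subcategory: long exact sequence and the closure properties of `W`. -/
theorem dbW_triangulated {W : ObjectProperty 𝒞} (hW : WSerre W) : (dbW W).IsTriangulated := by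
  have h0 : (dbW W).ContainsZero :=
    { exists_zero := by
        refine ⟨0, isZero_zero _, ?_⟩
        rw [iff_DbW]
        have h : ∀ i : ℤ, IsZero (HH i (0 : DerivedCategory 𝒞)) := fun i =>
          (DerivedCategory.homologyFunctor 𝒞 i).map_isZero (isZero_zero _)
        exact ⟨⟨0, 0, fun i _ => h i⟩, fun i => hW.zero _ (h i)⟩ }
  have h1 : (dbW W).IsStableUnderShift ℤ :=
    { isStableUnderShiftBy := fun n =>
        { le_shift := by
            intro K hK
            rw [iff_DbW] at hK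
            obtain ⟨⟨a, b, hab⟩, hc⟩ := hK
            have sh : ∀ i : ℤ, HH i (K⟦n⟧) ≅ HH (n + i) K := fun i =>
              ((DerivedCategory.homologyFunctor 𝒞 0).shiftIso n i (n + i) rfl).app K
            change dbW W (K⟦n⟧)
            rw [iff_DbW]
            refine ⟨⟨a - n, b - n, fun i hi => (hab (n + i) ?_).of_iso (sh i)⟩, fun i =>
              hW.iso (sh i).symm (hc (n + i))⟩
            omega } }
  have h2 : (dbW W).IsTriangulatedClosed₂ :=
    { ext₂' := by
        intro T hT h₁ h₃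
        apply ObjectProperty.le_isoClosure
        rw [iff_DbW] at h₁ h₃ ⊢
        obtain ⟨⟨a, b, hab⟩, hc⟩ := h₁
        obtain ⟨⟨a', b', hab'⟩, hc'⟩ := h₃
        refine ⟨⟨min a a', max b b', fun i hi => ?_⟩, fun i => ?_⟩
        · exact (DerivedCategory.HomologySequence.exact₂ T hT i).isZero_X₂
            ((hab i (by omega)).eq_of_src _ _) ((hab' i (by omega)).eq_of_tgt _ _)
        · exact five_DbW hW
            (DerivedCategory.HomologySequence.δ T (i - 1) i (by omega))
            ((DerivedCategory.homologyFunctor 𝒞 i).map T.mor₁)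
            ((DerivedCategory.homologyFunctor 𝒞 i).map T.mor₂)
            (DerivedCategory.HomologySequence.δ T i (i + 1) rfl)
            (DerivedCategory.HomologySequence.δ_comp T hT (i - 1) i (by omega))
            (by rw [← Functor.map_comp, comp_distTriang_mor_zero₁₂ _ hT, Functor.map_zero])
            (DerivedCategory.HomologySequence.comp_δ T hT i (i + 1) rfl)
            (DerivedCategory.HomologySequence.exact₁ T hT (i - 1) i (by omega))
            (DerivedCategory.HomologySequence.exact₂ T hT i)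
            (DerivedCategory.HomologySequence.exact₃ T hT i (i + 1) rfl)
            (hc' (i - 1)) (hc i) (hc' i) (hc (i + 1)) }
  exact { toContainsZero := h0, toIsStableUnderShift := h1, toIsTriangulatedClosed₂ := h2 }

/-- The alternating sum of a function `e` over the cohomology objects. -/
def eul (e : 𝒞 → ℤ) (K : DerivedCategory 𝒞) : ℤ :=
  ∑ᶠ i : ℤ, (i.negOnePow : ℤ) * e (HH i K)

/-- `e` is additive on short exact sequences in `W`. -/
def AddOn (W : ObjectProperty 𝒞) (e : 𝒞 → ℤ) : Prop :=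
  ∀ S : ShortComplex 𝒞, S.ShortExact → W S.X₁ → W S.X₂ → W S.X₃ → e S.X₂ = e S.X₁ + e S.X₃

end M21.E3
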