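import Pool.Agent.H.MP_21b43d_ag.E3.DbW

/-!
# M21, existence part, B5b: the bounded derived category with cohomology in `W`, additive functions
-/

open CategoryTheory CategoryTheory.Limits CategoryTheory.Pretriangulated
  CategoryTheory.Triangulated

universe w v u

noncomputable section

namespace M21.E3

variable {𝒞 : Type u} [Category.{v} 𝒞] [Abelian 𝒞] [HasDerivedCategory.{w} 𝒞]

/-- An additive function vanishes on zero objects. -/
theorem e_zero_DbW2 {W : ObjectProperty 𝒞} (hW : WSerre W) {e : 𝒞 → ℤ} (he : AddOn W e) {M : 𝒞}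
    (h : IsZero M) : e M = 0 := by
  have hS : (ShortComplex.mk (𝟙 M) (0 : M ⟶ M) comp_zero).ShortExact :=
    { exact := ShortComplex.exact_of_isZero_X₂ _ h
      mono_f := inferInstanceAs (Mono (𝟙 M))
      epi_g := ⟨fun _ _ _ => h.eq_of_src _ _⟩ }
  have := he _ hS (hW.zero M h) (hW.zero M h) (hW.zero M h)
  simp only at this
  linarith

/-- An additive function is invariant under isomorphisms. -/
theorem e_iso_DbW2 {W : ObjectProperty 𝒞} (hW : WSerre W) {e : 𝒞 → ℤ} (he : AddOn W e)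
    {M N : 𝒞} (i : M ≅ N) (hM : W M) : e M = e N := by
  obtain ⟨Z, hz⟩ : ∃ Z : 𝒞, IsZero Z := HasZeroObject.zero
  have hS : (ShortComplex.mk i.hom (0 : N ⟶ Z) comp_zero).ShortExact :=
    { exact := (ShortComplex.exact_iff_epi _ rfl).2 (inferInstanceAs (Epi i.hom))
      mono_f := inferInstanceAs (Mono i.hom)
      epi_g := ⟨fun _ _ _ => hz.eq_of_src _ _⟩ }
  have := he _ hS hM (hW.iso i hM) (hW.zero _ hz)
  simp only at this
  rw [e_zero_DbW2 hW he hz] at this
  linarith

/-- The short exact sequence `ker f → X → ker g` of an exact sequence `X → Y → Z`. -/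
theorem ses_DbW2 (S : ShortComplex 𝒞) (hS : S.Exact) :
    (ShortComplex.mk (kernel.ι S.f) (kernel.lift S.g S.f S.zero) (by
      rw [← cancel_mono (kernel.ι S.g), Category.assoc, kernel.lift_ι, kernel.condition,
        zero_comp])).ShortExact := by
  have h1 : Epi (kernel.lift S.g S.f S.zero) := S.exact_iff_epi_kernel_lift.1 hS
  refine { exact := ?_, mono_f := inferInstanceAs (Mono (kernel.ι S.f)), epi_g := h1 }
  refine ShortComplex.exact_of_f_is_kernel _ (KernelFork.IsLimit.ofι' _ _ fun {A} k hk => ?_)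
  have h3 : k ≫ S.f = 0 := by
    have h4 : k ≫ kernel.lift S.g S.f S.zero = 0 := hk
    have h5 := congrArg (fun u => u ≫ kernel.ι S.g) h4
    simpa using h5
  exact ⟨kernel.lift S.f k h3, kernel.lift_ι _ _ _⟩

theorem e_exact_DbW2 {W : ObjectProperty 𝒞} (hW : WSerre W) {e : 𝒞 → ℤ} (he : AddOn W e)
    (S : ShortComplex 𝒞) (hS : S.Exact) (h1 : W S.X₁) (h2 : W S.X₂) (h3 : W S.X₃) :
    e S.X₁ = e (kernel S.f) + e (kernel S.g) :=
  he _ (ses_DbW2 S hS) (hW.kernel _ h1 h2) h1 (hW.kernel _ h2 h3)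

/-- The alternating sum of an integer valued function. -/
def asum_DbW2 (a : ℤ → ℤ) : ℤ := ∑ᶠ i : ℤ, (i.negOnePow : ℤ) * a i

theorem asum_shift_DbW2 (a : ℤ → ℤ) (n : ℤ) :
    asum_DbW2 (fun i => a (n + i)) = (n.negOnePow : ℤ) * asum_DbW2 a := by
  unfold asum_DbW2
  have h := finsum_comp_equiv (Equiv.addLeft n) (f := fun i : ℤ =>
    ((i - n).negOnePow : ℤ) * a i)
  have h1 : (∑ᶠ i : ℤ, (i.negOnePow : ℤ) * a (n + i)) =
      ∑ᶠ i : ℤ, ((i - n).negOnePow : ℤ) * a i := by
    rw [← h]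
    refine finsum_congr fun i => ?_
    simp
  rw [h1, mul_finsum]
  refine finsum_congr fun i => ?_
  rw [← mul_assoc, Int.negOnePow_sub, mul_comm i.negOnePow]
  push_cast
  rfl

theorem fin_DbW2 {a : ℤ → ℤ} (ha : a.support.Finite) :
    (Function.support fun i : ℤ => (i.negOnePow : ℤ) * a i).Finite := by
  refine ha.subset fun i hi => ?_
  rw [Function.mem_support] at hi ⊢
  intro h0
  apply hi
  rw [h0, mul_zero]

theorem asum_add_DbW2 {a b : ℤ → ℤ} (ha : a.support.Finite) (hb : b.support.Finite) :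
    asum_DbW2 (fun i => a i + b i) = asum_DbW2 a + asum_DbW2 b := by
  unfold asum_DbW2
  rw [← finsum_add_distrib (fin_DbW2 ha) (fin_DbW2 hb)]
  exact finsum_congr fun i => by ring

theorem supp_finite_DbW2 {W : ObjectProperty 𝒞} (hW : WSerre W) {e : 𝒞 → ℤ} (he : AddOn W e)
    {K : DerivedCategory 𝒞} (h : dbW W K) {M : ℤ → 𝒞}
    (hM : ∀ i, IsZero (HH i K) → IsZero (M i)) : (fun i => e (M i)).support.Finite := by
  obtain ⟨⟨a, b, ha, hb⟩, -⟩ := h
  refine (Set.finite_Icc a b).subset fun i hi => ?_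
  rw [Function.mem_support] at hi
  rw [Set.mem_Icc]
  by_contra hcon
  rw [not_and_or, not_le, not_le] at hcon
  apply hi
  refine e_zero_DbW2 hW he (hM i ?_)
  rcases hcon with h1 | h1
  · exact DerivedCategory.isZero_of_isGE K a i h1
  · exact DerivedCategory.isZero_of_isLE K b i h1

/-- Additivity on distinguished triangles. Proof: break the long exact cohomology sequence into short
exact sequences; all kernels and images are in `W`; finitely many cohomology objects are nonzero and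
`e` is `0` on zero objects. With `t i := e (image of H^i(T₃) → H^(i+1)(T₁))`:
`e (H^i T₂) + t i + t (i-1) = e (H^i T₁) + e (H^i T₃)`; multiply by `(-1)^i` and sum. -/
theorem eul_add {W : ObjectProperty 𝒞} (hW : WSerre W) (e : 𝒞 → ℤ) (he : AddOn W e)
    (T : Triangle (DerivedCategory 𝒞)) (hT : T ∈ distTriang (DerivedCategory 𝒞))
    (h₁ : dbW W T.obj₁) (h₂ : dbW W T.obj₂) (h₃ : dbW W T.obj₃) :
    eul e T.obj₂ = eul e T.obj₁ + eul e T.obj₃ := by
  let f := fun i : ℤ => (DerivedCategory.homologyFunctor 𝒞 i).map T.mor₁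
  let k : ℤ → ℤ := fun i => e (kernel (f i))
  have E1 : ∀ i, e (HH i T.obj₁) = k i +
      e (kernel ((DerivedCategory.homologyFunctor 𝒞 i).map T.mor₂)) := fun i =>
    e_exact_DbW2 hW he _ (DerivedCategory.HomologySequence.exact₂ T hT i) (h₁.2 i) (h₂.2 i)
      (h₃.2 i)
  have E2 : ∀ i, e (HH i T.obj₂) =
      e (kernel ((DerivedCategory.homologyFunctor 𝒞 i).map T.mor₂)) +
      e (kernel (DerivedCategory.HomologySequence.δ T i (i + 1) rfl)) := fun i =>
    e_exact_DbW2 hW he _ (DerivedCategory.HomologySequence.exact₃ T hT i (i + 1) rfl) (h₂.2 i)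
      (h₃.2 i) (h₁.2 (i + 1))
  have E3 : ∀ i, e (HH i T.obj₃) =
      e (kernel (DerivedCategory.HomologySequence.δ T i (i + 1) rfl)) + k (i + 1) := fun i =>
    e_exact_DbW2 hW he _ (DerivedCategory.HomologySequence.exact₁ T hT i (i + 1) rfl) (h₃.2 i)
      (h₁.2 (i + 1)) (h₂.2 (i + 1))
  have hk : k.support.Finite := supp_finite_DbW2 hW he h₁
    (M := fun i => kernel (f i)) fun i hi => IsZero.of_mono (kernel.ι (f i)) hi
  have hk' : (fun i => k (1 + i)).support.Finite := by
    have h : (fun i => k (1 + i)).support = (fun i => 1 + i) ⁻¹' k.support := rfl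
    rw [h]
    exact hk.preimage (add_right_injective 1).injOn
  have hs1 : (fun i => e (HH i T.obj₁)).support.Finite :=
    supp_finite_DbW2 hW he h₁ fun i hi => hi
  have hs2 : (fun i => e (HH i T.obj₂)).support.Finite :=
    supp_finite_DbW2 hW he h₂ fun i hi => hi
  have hs3 : (fun i => e (HH i T.obj₃)).support.Finite :=
    supp_finite_DbW2 hW he h₃ fun i hi => hi
  have hkk : (fun i => k i + k (1 + i)).support.Finite :=
    (hk.union hk').subset (Function.support_add k fun i => k (1 + i))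
  have h0 : asum_DbW2 (fun i => k i + k (1 + i)) = 0 := by
    rw [asum_add_DbW2 hk hk', asum_shift_DbW2]
    simp
  have h4 : asum_DbW2 (fun i => e (HH i T.obj₂) + (k i + k (1 + i))) =
      asum_DbW2 (fun i => e (HH i T.obj₁) + e (HH i T.obj₃)) := by
    congr 1
    funext i
    rw [E1, E2, E3, add_comm 1 i]
    ring
  rw [asum_add_DbW2 hs2 hkk, asum_add_DbW2 hs1 hs3, h0, add_zero] at h4
  exact h4

theorem eul_iso {W : ObjectProperty 𝒞} (hW : WSerre W) (e : 𝒞 → ℤ) (he : AddOn W e)
    {K L : DerivedCategory 𝒞} (i : K ≅ L) (h : dbW W K) : eul e K = eul e L := by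
  unfold eul
  refine finsum_congr fun n => ?_
  rw [e_iso_DbW2 hW he ((DerivedCategory.homologyFunctor 𝒞 n).mapIso i) (h.2 n)]

/-- shifting by `n` multiplies by `(-1)^n` -/
theorem eul_shift {W : ObjectProperty 𝒞} (hW : WSerre W) (e : 𝒞 → ℤ) (he : AddOn W e)
    (K : DerivedCategory 𝒞) (h : dbW W K) (n : ℤ) :
    eul e (K⟦n⟧) = (n.negOnePow : ℤ) * eul e K := by
  have h1 := asum_shift_DbW2 (fun i => e (HH i K)) n
  have h2 : eul e (K⟦n⟧) = asum_DbW2 (fun i => e (HH (n + i) K)) := by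
    unfold eul asum_DbW2
    refine finsum_congr fun i => ?_
    have iso : HH i (K⟦n⟧) ≅ HH (n + i) K :=
      ((DerivedCategory.homologyFunctor 𝒞 0).shiftIso n i (n + i) rfl).app K
    have h3 : e (HH (n + i) K) = e (HH i (K⟦n⟧)) := e_iso_DbW2 hW he iso.symm (h.2 (n + i))
    change (i.negOnePow : ℤ) * e (HH i (K⟦n⟧)) = (i.negOnePow : ℤ) * e (HH (n + i) K)
    rw [h3]
  rw [h2, h1]
  rfl

/-- For complexes with cohomology only in degrees `-1` and `0`:
`eul e K = e (H^0 K) - e (H^(-1) K)`. -/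
theorem eul_two {W : ObjectProperty 𝒞} (hW : WSerre W) (e : 𝒞 → ℤ) (he : AddOn W e)
    (K : DerivedCategory 𝒞) (h : ∀ i, i ≠ -1 → i ≠ 0 → IsZero (HH i K)) :
    eul e K = e (HH 0 K) - e (HH (-1) K) := by
  unfold eul
  rw [finsum_eq_sum_of_support_subset (s := {0, -1})]
  · rw [Finset.sum_pair (by norm_num)]
    simp
    ring
  · intro i hi
    rw [Function.mem_support] at hi
    simp only [Finset.coe_insert, Finset.coe_singleton, Set.mem_insert_iff,
      Set.mem_singleton_iff]
    by_contra hcon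
    rw [not_or] at hcon
    apply hi
    rw [e_zero_DbW2 hW he (h i hcon.2 hcon.1), mul_zero]

end M21.E3
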