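import Pool.Agent.H.MP_21b43d_ag.E3.TCharge

/-!
# M21, existence part, R1: rank one objects and the Hartogs property (abstract)

`W` a weak Serre subcategory of the `ℂ`-linear abelian category `𝒞` with `(r, D, χ)`.
-/

open CategoryTheory CategoryTheory.Limits

universe v u

noncomputable section

namespace M21.E3

variable {𝒞 : Type u} [Category.{v} 𝒞] [Abelian 𝒞] {W : ObjectProperty 𝒞}

instance (priority := 100) instFiniteBiproductsRk : HasFiniteBiproducts 𝒞 :=
  Abelian.hasFiniteBiproducts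

/-- Morphisms to `S` extend over monomorphisms whose cokernel has `r = D = 0`. -/
def Hart (q : RDX W) (S : 𝒞) : Prop :=
  ∀ (M M' : 𝒞) (i : M ⟶ M'), Mono i → W M → W M' → q.r (cokernel i) = 0 → q.D (cokernel i) = 0 →
    ∀ ψ : M ⟶ S, ∃ ψ' : M' ⟶ S, i ≫ ψ' = ψ

/-- Objects of rank one: all nonzero subobjects have the same (positive) `r`. -/
structure Rk1 (q : RDX W) (S : 𝒞) : Prop where
  mem : W S
  pos : 0 < q.r S
  sub : ∀ (N : 𝒞) (i : N ⟶ S), Mono i → W N → ¬ IsZero N → q.r N = q.r S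

theorem Hart.iso (q : RDX W) {S S' : 𝒞} (e : S ≅ S') (h : Hart q S) : Hart q S' := by
  intro M M' i hi hM hM' hr hD ψ
  obtain ⟨ψ', hψ'⟩ := h M M' i hi hM hM' hr hD (ψ ≫ e.inv)
  exact ⟨ψ' ≫ e.hom, by rw [← Category.assoc, hψ', Category.assoc, e.inv_hom_id, Category.comp_id]⟩

theorem Hart.prod (q : RDX W) {S S' : 𝒞} (h : Hart q S) (h' : Hart q S') : Hart q (S ⊞ S') := by
  intro M M' i hi hM hM' hr hD ψ
  obtain ⟨a, ha⟩ := h M M' i hi hM hM' hr hD (ψ ≫ biprod.fst)
  obtain ⟨b, hb⟩ := h' M M' i hi hM hM' hr hD (ψ ≫ biprod.snd)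
  refine ⟨biprod.lift a b, ?_⟩
  apply biprod.hom_ext
  · rw [Category.assoc, biprod.lift_fst, ha]
  · rw [Category.assoc, biprod.lift_snd, hb]

theorem Hart.pow (q : RDX W) {S : 𝒞} (h : Hart q S) (n : ℕ) :
    Hart q (⨁ (fun _ : Fin n => S)) := by
  intro M M' i hi hM hM' hr hD ψ
  have h1 : ∀ j : Fin n, ∃ a : M' ⟶ S, i ≫ a = ψ ≫ biproduct.π (fun _ : Fin n => S) j := fun j =>
    h M M' i hi hM hM' hr hD _
  choose a ha using h1
  refine ⟨biproduct.lift a, ?_⟩
  apply biproduct.hom_ext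
  intro j
  rw [Category.assoc, biproduct.lift_π, ha]

theorem se_Rk1 (S S' : 𝒞) :
    (ShortComplex.mk (biprod.inl : S ⟶ S ⊞ S') (biprod.snd : S ⊞ S' ⟶ S') (by simp)).ShortExact :=
  ShortComplex.Splitting.shortExact
    { r := biprod.fst
      s := biprod.inr
      f_r := by simp
      s_g := by simp
      id := by simp }

theorem WSerre.prod (hW : WSerre W) {S S' : 𝒞} (h : W S) (h' : W S') : W (S ⊞ S') :=
  hW.ext _ (se_Rk1 S S') h h'

/-- Splitting off one summand. -/
def succ_Rk1 (S : 𝒞) (n : ℕ) :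
    S ⊞ (⨁ (fun _ : Fin n => S)) ≅ (⨁ (fun _ : Fin (n + 1) => S)) where
  hom := biprod.desc (biproduct.ι (fun _ : Fin (n + 1) => S) 0)
    (biproduct.desc fun j => biproduct.ι (fun _ : Fin (n + 1) => S) j.succ)
  inv := biprod.lift (biproduct.π (fun _ : Fin (n + 1) => S) 0)
    (biproduct.lift fun j => biproduct.π (fun _ : Fin (n + 1) => S) j.succ)
  hom_inv_id := by
    apply biprod.hom_ext'
    · apply biprod.hom_ext
      · simp
      · apply biproduct.hom_ext
        intro j
        simp [biproduct.ι_π_ne _ (Fin.succ_ne_zero j).symm]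
    · apply biproduct.hom_ext'
      intro j
      apply biprod.hom_ext
      · simp [biproduct.ι_π_ne _ (Fin.succ_ne_zero j)]
      · apply biproduct.hom_ext
        intro k
        by_cases hjk : j = k
        · subst hjk
          simp
        · have h1 : j.succ ≠ k.succ := fun h => hjk (Fin.succ_injective _ h)
          simp [biproduct.ι_π_ne _ hjk, biproduct.ι_π_ne _ h1]
  inv_hom_id := by
    apply biproduct.hom_ext'
    intro j
    refine Fin.cases ?_ (fun j => ?_) j
    · apply biproduct.hom_ext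
      intro k
      have h0 : ∀ l : Fin n, biproduct.ι (fun _ : Fin (n + 1) => S) 0 ≫
          biproduct.π (fun _ : Fin (n + 1) => S) l.succ = 0 := fun l =>
        biproduct.ι_π_ne _ (Fin.succ_ne_zero l).symm
      have h1 : biproduct.ι (fun _ : Fin (n + 1) => S) 0 ≫
          biproduct.lift (fun l : Fin n => biproduct.π (fun _ : Fin (n + 1) => S) l.succ) = 0 := by
        apply biproduct.hom_ext
        intro l
        rw [Category.assoc, biproduct.lift_π, h0, zero_comp]
      rw [biprod.lift_desc, Preadditive.comp_add, ← Category.assoc, ← Category.assoc, h1,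
        biproduct.ι_π_self, Category.id_comp, zero_comp, add_zero, Category.comp_id]
    · have h0 : biproduct.ι (fun _ : Fin (n + 1) => S) j.succ ≫
          biproduct.π (fun _ : Fin (n + 1) => S) 0 = 0 :=
        biproduct.ι_π_ne _ (Fin.succ_ne_zero j)
      have h1 : biproduct.ι (fun _ : Fin (n + 1) => S) j.succ ≫
          biproduct.lift (fun l : Fin n => biproduct.π (fun _ : Fin (n + 1) => S) l.succ) =
          biproduct.ι (fun _ : Fin n => S) j := by
        apply biproduct.hom_ext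
        intro l
        rw [Category.assoc, biproduct.lift_π]
        by_cases hjl : j = l
        · subst hjl
          simp
        · have h2 : j.succ ≠ l.succ := fun h => hjl (Fin.succ_injective _ h)
          rw [biproduct.ι_π_ne _ hjl, biproduct.ι_π_ne _ h2]
      rw [biprod.lift_desc, Preadditive.comp_add, ← Category.assoc, ← Category.assoc, h1, h0,
        zero_comp, zero_add, biproduct.ι_desc, Category.comp_id]

theorem zero_Rk1 (S : 𝒞) : IsZero (⨁ (fun _ : Fin 0 => S)) := by
  rw [IsZero.iff_id_eq_zero]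
  apply biproduct.hom_ext
  intro j
  exact j.elim0

theorem WSerre.pow (hW : WSerre W) {S : 𝒞} (h : W S) (n : ℕ) : W (⨁ (fun _ : Fin n => S)) := by
  induction n with
  | zero => exact hW.zero _ (zero_Rk1 S)
  | succ n ih => exact hW.iso (succ_Rk1 S n) (hW.prod h ih)

/-- `(r, D, χ)` of the `n`-fold sum. -/
theorem RDX.pow (hW : WSerre W) (q : RDX W) {S : 𝒞} (h : W S) (n : ℕ) :
    q.r (⨁ (fun _ : Fin n => S)) = n * q.r S ∧ q.D (⨁ (fun _ : Fin n => S)) = n * q.D S ∧
      q.x (⨁ (fun _ : Fin n => S)) = n * q.x S := by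
  induction n with
  | zero =>
    obtain ⟨h1, h2, h3⟩ := q.inv_zero hW (zero_Rk1 S)
    exact ⟨by rw [h1]; simp, by rw [h2]; simp, by rw [h3]; simp⟩
  | succ n ih =>
    have hn := hW.pow h n
    obtain ⟨h1, h2, h3⟩ := q.inv_iso hW (succ_Rk1 S n) (hW.prod h hn)
    obtain ⟨a1, a2, a3⟩ := q.add _ (se_Rk1 S (⨁ (fun _ : Fin n => S))) h (hW.prod h hn) hn
    obtain ⟨i1, i2, i3⟩ := ih
    dsimp only at a1 a2 a3
    refine ⟨?_, ?_, ?_⟩
    · rw [← h1, a1, i1]
      push_cast
      ring
    · rw [← h2, a2, i2]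
      push_cast
      ring
    · rw [← h3, a3, i3]
      push_cast
      ring

theorem Rk1.tf {q : RDX W} {S : 𝒞} (h : Rk1 q S) : q.Tf S := by
  refine ⟨h.mem, fun N i hi hN hr => ?_⟩
  by_contra hz
  have h1 := h.sub N i hi hN hz
  have h2 := h.pos
  omega

theorem Rk1.iso (hW : WSerre W) {q : RDX W} {S S' : 𝒞} (e : S ≅ S') (h : Rk1 q S) : Rk1 q S' := by
  have hr := (q.inv_iso hW e h.mem).1
  refine ⟨hW.iso e h.mem, hr ▸ h.pos, fun N i hi hN hz => ?_⟩
  rw [← hr]
  exact h.sub N (i ≫ e.inv) inferInstance hN hz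

/-- A morphism from an object of rank zero to a torsion-free object vanishes. -/
theorem hom_zero_Rk1 (hW : WSerre W) (q : RDX W) {N S : 𝒞} (hN : W N) (hr : q.r N = 0)
    (hS : q.Tf S) (f : N ⟶ S) : f = 0 := by
  have hI : W (Abelian.image f) := hW.kernel (cokernel.π f) hS.1 (hW.cokernel f hN hS.1)
  have hK : W (kernel f) := hW.kernel f hN hS.1
  have h1 : kernel.ι f ≫ Abelian.factorThruImage f = 0 := by
    rw [← cancel_mono (Abelian.image.ι f), Category.assoc, Abelian.image.fac, kernel.condition,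
      zero_comp]
  have hS' : (ShortComplex.mk (kernel.ι f) (Abelian.factorThruImage f) h1).ShortExact := by
    refine { exact := ?_, mono_f := inferInstance, epi_g := inferInstance }
    have h := ShortComplex.exact_iff_of_epi_of_isIso_of_mono
      (S₁ := ShortComplex.mk (kernel.ι f) (Abelian.factorThruImage f) h1)
      (S₂ := ShortComplex.mk (kernel.ι f) f (kernel.condition f))
      { τ₁ := 𝟙 _, τ₂ := 𝟙 _, τ₃ := Abelian.image.ι f, comm₁₂ := by simp, comm₂₃ := by simp }
    exact h.mpr (ShortComplex.exact_of_f_is_kernel _ (kernelIsKernel f))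
  have h2 := (q.add _ hS' hK hN hI).1
  dsimp only at h2
  have h3 := q.r_nonneg _ hK
  have h4 := q.r_nonneg _ hI
  have h5 : q.r (Abelian.image f) = 0 := by omega
  have h6 : IsZero (Abelian.image f) := hS.2 _ (Abelian.image.ι f) inferInstance hI h5
  rw [← Abelian.image.fac f, h6.eq_of_src (Abelian.image.ι f) 0, comp_zero]

theorem tf_prod_Rk1 (hW : WSerre W) (q : RDX W) {S S' : 𝒞} (h : q.Tf S) (h' : q.Tf S') :
    q.Tf (S ⊞ S') := by
  refine ⟨hW.prod h.1 h'.1, fun N i hi hN hr => ?_⟩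
  have h1 := hom_zero_Rk1 hW q hN hr h (i ≫ biprod.fst)
  have h2 := hom_zero_Rk1 hW q hN hr h' (i ≫ biprod.snd)
  have h3 : i = 0 := by
    apply biprod.hom_ext
    · rw [h1, zero_comp]
    · rw [h2, zero_comp]
  rw [IsZero.iff_id_eq_zero, ← cancel_mono i, h3, comp_zero, comp_zero]

/-- Finite sums of torsion-free objects are torsion-free. -/
theorem RDX.Tf_pow (hW : WSerre W) (q : RDX W) {S : 𝒞} (h : q.Tf S) (n : ℕ) :
    q.Tf (⨁ (fun _ : Fin n => S)) := by
  induction n with
  | zero =>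
    refine ⟨hW.zero _ (zero_Rk1 S), fun N i hi _ _ => ?_⟩
    rw [IsZero.iff_id_eq_zero, ← cancel_mono i]
    exact (zero_Rk1 S).eq_of_tgt _ _
  | succ n ih => exact q.Tf_iso hW (succ_Rk1 S n) (tf_prod_Rk1 hW q h ih)

end M21.E3
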