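import Pool.Agent.H.MP_21b43d_ag.E3.SliceHN

/-!
# M21, existence part, B3: a slicing from a stability function on the heart of a bounded t-structure
(Bridgeland, Stability conditions on triangulated categories, Proposition 5.3)
-/

open CategoryTheory CategoryTheory.Limits CategoryTheory.Pretriangulated
  CategoryTheory.Triangulated

universe v u

noncomputable section

namespace M21.E3

variable {C : Type u} [Category.{v} C] [HasZeroObject C] [HasShift C ℤ] [Preadditive C]
  [∀ n : ℤ, (shiftFunctor C n).Additive] [Pretriangulated C] [IsTriangulated C]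
  (t : TStructure C) (c : Charge (Hrt t))

/-- Harder-Narasimhan filtrations of bounded objects. -/
theorem exists_HN_SliceH (hb : ∀ E : C, ∃ a b : ℤ, t.IsGE E a ∧ t.IsLE E b)
    (hn : ∀ E : Hrt t, IsNoetherianObject E) (E : C) : ∃ L : List ℝ, HN (PH t c) L E := by
  obtain ⟨a, b, h1, h2⟩ := hb E
  have hc : ∀ E : Hrt t, ∃ L, c.HNA L E := fun E => c.exists_hna hn E
  have h3 : t.IsLE E (a + ((b - a).toNat : ℕ)) :=
    t.isLE_of_le E b _ (by omega)
  obtain ⟨L, hL, _⟩ := exists_HN t c hc a (b - a).toNat E h1 h3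
  exact ⟨L, hL⟩

/-- B3. The slicing given by a stability function on the heart of a bounded t-structure. -/
theorem exists_slicing (hb : ∀ E : C, ∃ a b : ℤ, t.IsGE E a ∧ t.IsLE E b)
    (hn : ∀ E : Hrt t, IsNoetherianObject E) :
    ∃ σ : Slicing C, ∀ φ E, σ.P φ E ↔ PH t c φ E :=
  ⟨{ P := PH t c
     iso_mem := fun φ _ _ e h => PH_iso t c φ e h
     zero_mem := fun _ _ h => Or.inl h
     sum_mem := fun φ E F hE hF => PH_sum t c φ E F hE hF
     shift_iff := fun φ E => PH_shift t c φ E
     hom_zero := fun φ ψ E F h hE hF f => PH_hom_zero t c φ ψ E F h hE hF f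
     hn := fun E => exists_HN_SliceH t c hb hn E }, fun _ _ => Iff.rfl⟩

end M21.E3
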