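import Pool.Agent.H.MP_21b43d_ag.E3.TNoeth
import Pool.Agent.H.MP_21b43d_ag.E3.SliceH

/-!
# M21, existence part, B8: the slicing of `D^b_W` with central charge `- (χ - t r) + i D`
-/

open CategoryTheory CategoryTheory.Limits CategoryTheory.Pretriangulated
  CategoryTheory.Triangulated

universe w v u

noncomputable section

namespace M21.E3

variable {𝒞 : Type u} [Category.{v} 𝒞] [Abelian 𝒞] [HasDerivedCategory.{w} 𝒞]
  {W : ObjectProperty 𝒞} [(dbW W).IsTriangulated]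

/-- `exp (i π (a + n)) = (-1)^n exp (i π a)` -/
theorem exp_shift_MainB (a : ℝ) (n : ℤ) :
    Complex.exp (Real.pi * ((a + (n : ℝ) : ℝ) : ℂ) * Complex.I) =
      ((n.negOnePow : ℤ) : ℂ) * Complex.exp (Real.pi * a * Complex.I) := by
  have h1 : (Real.pi : ℂ) * ((a + (n : ℝ) : ℝ) : ℂ) * Complex.I =
      (n : ℂ) * ((Real.pi : ℂ) * Complex.I) + Real.pi * a * Complex.I := by
    push_cast
    ring
  rw [h1, Complex.exp_add, Complex.exp_int_mul, Complex.exp_pi_mul_I, Int.cast_negOnePow]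

/-- Main theorem of part B. -/
theorem exists_stab (hW : WSerre W) (q : RDX W) (t : ℤ) (hq : Pos q t) :
    ∃ σ : Slicing (dbW W).FullSubcategory, ∀ (φ : ℝ) (E : (dbW W).FullSubcategory), σ.P φ E →
      ¬ IsZero E → ∃ ρ : ℝ, 0 < ρ ∧
        - (eul (mm q t) E.obj : ℂ) + (eul q.D E.obj : ℂ) * Complex.I =
          (ρ : ℂ) * Complex.exp (Real.pi * φ * Complex.I) := by
  obtain ⟨σ, hσ⟩ := exists_slicing (tilt hW q) (tCharge hW q t hq) (tilt_bounded hW q)
    (tilt_noetherian hW q t hq)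
  refine ⟨σ, fun φ E hE h0 => ?_⟩
  rcases (hσ φ E).1 hE with h | ⟨n, M, ⟨e⟩, hM, rfl⟩
  · exact absurd h h0
  obtain ⟨ρ, hρ, hZ⟩ := (tCharge hW q t hq).Z_phase hM.1
  refine ⟨ρ, hρ, ?_⟩
  have i1 : E.obj ≅ M.obj.obj⟦n⟧ :=
    (dbW W).ι.mapIso e ≪≫ ((dbW W).ι.commShiftIso n).app M.obj
  have e1 : eul q.D E.obj = (n.negOnePow : ℤ) * eul q.D M.obj.obj :=
    (eul_iso hW q.D (addOn_D q) i1 E.property).trans
      (eul_shift hW q.D (addOn_D q) _ M.obj.property n)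
  have e2 : eul (mm q t) E.obj = (n.negOnePow : ℤ) * eul (mm q t) M.obj.obj :=
    (eul_iso hW (mm q t) (addOn_mm q t) i1 E.property).trans
      (eul_shift hW (mm q t) (addOn_mm q t) _ M.obj.property n)
  have hZ' : - (eul (mm q t) M.obj.obj : ℂ) + (eul q.D M.obj.obj : ℂ) * Complex.I =
      (ρ : ℂ) * Complex.exp (Real.pi * (tCharge hW q t hq).ph M * Complex.I) := hZ
  rw [exp_shift_MainB, e1, e2]
  push_cast
  linear_combination ((n.negOnePow : ℤ) : ℂ) * hZ'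

end M21.E3
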