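import Pool.Agent.H.MP_21b43d_ag.E3.Rk2b

/-!
# M21, existence part, R3: the bound
-/

open CategoryTheory CategoryTheory.Limits

universe v u

noncomputable section

namespace M21.E3

variable {𝒞 : Type u} [Category.{v} 𝒞] [Abelian 𝒞] [Linear ℂ 𝒞] {W : ObjectProperty 𝒞}

/-- A vector space in which linearly independent families have at most `r` elements. -/
theorem finrank_le_Rk3 {V : Type*} [AddCommGroup V] [Module ℂ V] (r : ℤ)
    (h : ∀ (n : ℕ) (t : Fin n → V), LinearIndependent ℂ t → (n : ℤ) ≤ r) :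
    FiniteDimensional ℂ V ∧ (Module.finrank ℂ V : ℤ) ≤ r := by
  have key : ∀ n : ℕ, (n : Cardinal) ≤ Module.rank ℂ V → (n : ℤ) ≤ r := by
    intro n hn
    obtain ⟨s, hs, hli⟩ := le_rank_iff_exists_linearIndependent_finset.mp hn
    have e : Fin n ≃ s := (Fintype.equivFinOfCardEq (by simpa using hs)).symm
    exact h n _ (hli.comp e e.injective)
  have hfd : FiniteDimensional ℂ V := by
    by_contra hcon
    have h1 : Cardinal.aleph0 ≤ Module.rank ℂ V := by
      by_contra h2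
      exact hcon (Module.rank_lt_aleph0_iff.mp (not_le.mp h2))
    have h3 := key (r.toNat + 1) ((Cardinal.natCast_lt_aleph0 (n := r.toNat + 1)).le.trans h1)
    have h4 := Int.self_le_toNat r
    push_cast at h3
    omega
  refine ⟨hfd, key _ ?_⟩
  rw [Module.finrank_eq_rank]

theorem Rk1H.finrank_from (hW : WSerre W) {q : RDX W} {S M : 𝒞} (h : Rk1H q S) (hM : q.Fc M)
    (hD : q.D M = 0) :
    FiniteDimensional ℂ (S ⟶ M) ∧ (Module.finrank ℂ (S ⟶ M) : ℤ) ≤ q.r M := by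
  apply finrank_le_Rk3
  intro n t ht
  have h1 := h.hom_from hW hM hD n t ht
  have h2 := h.pos
  nlinarith [Int.natCast_nonneg n]

theorem Rk1H.finrank_to (hW : WSerre W) {q : RDX W} {S M : 𝒞} (h : Rk1H q S) (hM : q.Fc M)
    (hD : q.D M = 0) :
    FiniteDimensional ℂ (M ⟶ S) ∧ (Module.finrank ℂ (M ⟶ S) : ℤ) ≤ q.r M := by
  apply finrank_le_Rk3
  intro n t ht
  have h1 := h.hom_to hW hM hD n t ht
  have h2 := h.pos
  nlinarith [Int.natCast_nonneg n]

/-- The conditions `Pos q 3` from two rank one objects `O`, `Ω`. -/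
theorem pos_of (hW : WSerre W) {q : RDX W} {O Ω : 𝒞} (hO : Rk1H q O) (hΩ : Rk1H q Ω)
    (hx : ∀ M, W M → FiniteDimensional ℂ (O ⟶ M) → FiniteDimensional ℂ (M ⟶ Ω) →
      q.x M ≤ Module.finrank ℂ (O ⟶ M) + Module.finrank ℂ (M ⟶ Ω))
    (he : ∀ M, q.Tf M → ∃ (S : 𝒞) (j : M ⟶ S), W S ∧ Hart q S ∧ Mono j) : Pos q 3 := by
  constructor
  · intro M hM hD h0
    obtain ⟨f1, l1⟩ := hO.finrank_from hW hM hD
    obtain ⟨f2, l2⟩ := hΩ.finrank_to hW hM hD
    have h1 := hx M hM.1.1 f1 f2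
    have h2 := q.r_nonneg M hM.1.1
    have h3 : q.r M ≠ 0 := fun h => h0 (hM.1.2 M (𝟙 M) inferInstance hM.1.1 h)
    omega
  · intro M hM
    obtain ⟨S, j, hS, hH, hj⟩ := he M hM
    exact hull_of_embed hW q hM j hS hH

end M21.E3
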