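import Mathlib

/-!
# M21, existence part, B4: a weak Serre subcategory `W` of an abelian category with rank, degree and
Euler characteristic; the torsion pair of slope 0
-/

open CategoryTheory CategoryTheory.Limits

universe v u

namespace M21.E3

variable {𝒞 : Type u} [Category.{v} 𝒞] [Abelian 𝒞]

/-- `W` is closed under isomorphisms, kernels, cokernels and extensions and contains zero. -/
structure WSerre (W : ObjectProperty 𝒞) : Prop where
  iso : ∀ {M N : 𝒞}, (M ≅ N) → W M → W N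
  zero : ∀ M : 𝒞, IsZero M → W M
  kernel : ∀ {M N : 𝒞} (f : M ⟶ N), W M → W N → W (kernel f)
  cokernel : ∀ {M N : 𝒞} (f : M ⟶ N), W M → W N → W (cokernel f)
  ext : ∀ S : ShortComplex 𝒞, S.ShortExact → W S.X₁ → W S.X₃ → W S.X₂

/-- Rank `r`, degree `D` and Euler characteristic `χ` on `W` (functions on all objects, only used on
`W`). -/
structure RDX (W : ObjectProperty 𝒞) where
  /-- the rank -/
  r : 𝒞 → ℤ
  /-- the degree -/
  D : 𝒞 → ℤ
  /-- the Euler characteristic -/
  x : 𝒞 → ℤ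
  add : ∀ S : ShortComplex 𝒞, S.ShortExact → W S.X₁ → W S.X₂ → W S.X₃ →
    r S.X₂ = r S.X₁ + r S.X₃ ∧ D S.X₂ = D S.X₁ + D S.X₃ ∧ x S.X₂ = x S.X₁ + x S.X₃
  r_nonneg : ∀ M, W M → 0 ≤ r M
  D_nonneg : ∀ M, W M → r M = 0 → 0 ≤ D M
  x_pos : ∀ M, W M → r M = 0 → D M = 0 → ¬ IsZero M → 0 < x M
  /-- `W` is noetherian -/
  noeth : ∀ M, W M → ∀ f : ℕ →o Subobject M, (∀ n, W (f n : 𝒞)) → ∃ n, ∀ m, n ≤ m → f n = f m

namespace RDX

variable {W : ObjectProperty 𝒞} (q : RDX W)

/-- torsion-free objects of `W`: no nonzero subobjects of rank 0 -/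
def Tf (M : 𝒞) : Prop :=
  W M ∧ ∀ (N : 𝒞) (i : N ⟶ M), Mono i → W N → q.r N = 0 → IsZero N

/-- the class `F`: torsion-free objects all whose subobjects have degree `≤ 0` -/
def Fc : ObjectProperty 𝒞 := fun M =>
  q.Tf M ∧ ∀ (N : 𝒞) (i : N ⟶ M), Mono i → W N → q.D N ≤ 0

/-- the class `T`: objects of `W` all whose nonzero torsion-free quotients have degree `> 0` -/
def Tc : ObjectProperty 𝒞 := fun M =>
  W M ∧ ∀ (Q : 𝒞) (p : M ⟶ Q), Epi p → q.Tf Q → ¬ IsZero Q → 0 < q.D Q

theorem aux_zero_Wk (hW : WSerre W) {M : 𝒞} (h : IsZero M) :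
    q.r M = 0 ∧ q.D M = 0 ∧ q.x M = 0 := by
  have hS : (ShortComplex.mk (0 : M ⟶ M) (0 : M ⟶ M) (by simp)).ShortExact :=
    { exact := ShortComplex.exact_of_isZero_X₂ _ h
      mono_f := ⟨fun _ _ _ => h.eq_of_tgt _ _⟩
      epi_g := ⟨fun _ _ _ => h.eq_of_src _ _⟩ }
  have hw := hW.zero M h
  obtain ⟨h1, h2, h3⟩ := q.add _ hS hw hw hw
  dsimp only at h1 h2 h3
  exact ⟨by linarith, by linarith, by linarith⟩

theorem inv_iso (hW : WSerre W) {M N : 𝒞} (e : M ≅ N) (hM : W M) :
    q.r M = q.r N ∧ q.D M = q.D N ∧ q.x M = q.x N := by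
  have hz : IsZero (cokernel e.hom) := isZero_cokernel_of_epi e.hom
  have hS : (ShortComplex.mk e.hom (cokernel.π e.hom) (cokernel.condition _)).ShortExact :=
    { exact := ShortComplex.exact_cokernel e.hom
      mono_f := inferInstance
      epi_g := inferInstance }
  obtain ⟨h1, h2, h3⟩ := q.add _ hS hM (hW.iso e hM) (hW.zero _ hz)
  obtain ⟨z1, z2, z3⟩ := aux_zero_Wk q hW hz
  dsimp only at h1 h2 h3
  rw [z1] at h1
  rw [z2] at h2
  rw [z3] at h3
  exact ⟨by linarith, by linarith, by linarith⟩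

theorem inv_zero (hW : WSerre W) {M : 𝒞} (h : IsZero M) : q.r M = 0 ∧ q.D M = 0 ∧ q.x M = 0 :=
  aux_zero_Wk q hW h

theorem Tf_iso (hW : WSerre W) {M N : 𝒞} (e : M ≅ N) (h : q.Tf M) : q.Tf N := by
  refine ⟨hW.iso e h.1, fun K i hi hK hr => ?_⟩
  exact h.2 K (i ≫ e.inv) (mono_comp _ _) hK hr

theorem Fc_iso (hW : WSerre W) {M N : 𝒞} (e : M ≅ N) (h : q.Fc M) : q.Fc N := by
  refine ⟨Tf_iso q hW e h.1, fun K i hi hK => ?_⟩
  exact h.2 K (i ≫ e.inv) (mono_comp _ _) hK

theorem Tc_iso (hW : WSerre W) {M N : 𝒞} (e : M ≅ N) (h : q.Tc M) : q.Tc N := by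
  refine ⟨hW.iso e h.1, fun Q p hp hQ hz => ?_⟩
  exact h.2 Q (e.hom ≫ p) (epi_comp _ _) hQ hz

include q in
/-- The general lemma behind torsion pairs: if `Pr` is a property of objects of `W`, true for zero,
invariant under isomorphisms, closed under quotients in `W` and under extensions, then every `M` in
`W` has a largest subobject with the property: a short exact sequence `N → M → Q` with `Pr N` such that
every subobject of `Q` in `W` with the property is zero. Proof: by `noeth` choose a maximal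
subobject `N` among the subobjects in `W` with `Pr` (`noeth` for chains; the sum of two such
subobjects is not needed); a subobject `N'/N` of `M/N` with `Pr` gives an extension `N'` of `N'/N` by
`N`, so `Pr N'` and `N' = N`. -/
theorem exists_max (hW : WSerre W) (Pr : ObjectProperty 𝒞) (h0 : ∀ M, IsZero M → Pr M)
    (hiso : ∀ {M N : 𝒞}, (M ≅ N) → Pr M → Pr N)
    (hext : ∀ S : ShortComplex 𝒞, S.ShortExact → W S.X₁ → W S.X₃ → Pr S.X₁ → Pr S.X₃ → Pr S.X₂)
    (M : 𝒞) (hM : W M) :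
    ∃ S : ShortComplex 𝒞, S.ShortExact ∧ S.X₂ = M ∧ W S.X₁ ∧ W S.X₃ ∧ Pr S.X₁ ∧
      ∀ (N : 𝒞) (i : N ⟶ S.X₃), Mono i → W N → Pr N → IsZero N := by
  classical
  set P : Subobject M → Prop := fun A => W (A : 𝒞) ∧ Pr (A : 𝒞) with hP
  have hbot : P ⊥ := by
    have hz : IsZero ((⊥ : Subobject M) : 𝒞) :=
      (isZero_zero 𝒞).of_iso Subobject.botCoeIsoZero
    exact ⟨hW.zero _ hz, h0 _ hz⟩
  obtain ⟨A, hA, hmax⟩ : ∃ A, P A ∧ ∀ B, P B → A ≤ B → A = B := by
    by_contra hcon
    push Not at hcon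
    have hstep : ∀ A : {A : Subobject M // P A}, ∃ B : {B : Subobject M // P B}, A.1 < B.1 := by
      intro A
      obtain ⟨B, hB, hAB, hne⟩ := hcon A.1 A.2
      exact ⟨⟨B, hB⟩, lt_of_le_of_ne hAB hne⟩
    choose g hg using hstep
    set f : ℕ → {A : Subobject M // P A} := fun n => g^[n] ⟨⊥, hbot⟩ with hf
    have hlt : ∀ n, (f n).1 < (f (n + 1)).1 := by
      intro n
      have : f (n + 1) = g (f n) := by
        simp only [hf, Function.iterate_succ_apply']
      rw [this]
      exact hg _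
    have hmono : StrictMono (fun n => (f n).1) := strictMono_nat_of_lt_succ hlt
    obtain ⟨n, hn⟩ := q.noeth M hM ⟨fun n => (f n).1, hmono.monotone⟩ (fun n => (f n).2.1)
    have := hn (n + 1) (Nat.le_succ n)
    exact absurd this (ne_of_lt (hlt n))
  set π := cokernel.π A.arrow with hπ
  have hS : (ShortComplex.mk A.arrow π (cokernel.condition _)).ShortExact :=
    { exact := ShortComplex.exact_cokernel A.arrow
      mono_f := inferInstance
      epi_g := inferInstance }
  refine ⟨ShortComplex.mk A.arrow π (cokernel.condition _), hS, rfl, hA.1,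
    hW.cokernel A.arrow hA.1 hM, hA.2, ?_⟩
  intro N i hi hN hPN
  change N ⟶ cokernel A.arrow at i
  have : Mono i := hi
  have hsm : Mono (pullback.snd i π) := inferInstance
  have hfe : Epi (pullback.fst i π) := Abelian.epi_pullback_of_epi_g i π
  let l : (A : 𝒞) ⟶ pullback i π := pullback.lift 0 A.arrow (by simp [hπ])
  have hlf : l ≫ pullback.fst i π = 0 := pullback.lift_fst _ _ _
  have hls : l ≫ pullback.snd i π = A.arrow := pullback.lift_snd _ _ _
  have hlm : Mono l := by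
    have : Mono (l ≫ pullback.snd i π) := by rw [hls]; infer_instance
    exact mono_of_mono l (pullback.snd i π)
  have hT : (ShortComplex.mk l (pullback.fst i π) hlf).ShortExact := by
    refine { exact := ?_, mono_f := hlm, epi_g := hfe }
    refine ShortComplex.exact_of_f_is_kernel _ ?_
    refine KernelFork.IsLimit.ofι' l hlf ?_
    intro T k hk
    have hk2 : (k ≫ pullback.snd i π) ≫ π = 0 := by
      rw [Category.assoc, ← pullback.condition, ← Category.assoc, hk, zero_comp]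
    refine ⟨hS.fIsKernel.lift (KernelFork.ofι (k ≫ pullback.snd i π) hk2), ?_⟩
    have hl' : hS.fIsKernel.lift (KernelFork.ofι (k ≫ pullback.snd i π) hk2) ≫ A.arrow
        = k ≫ pullback.snd i π :=
      hS.fIsKernel.fac (KernelFork.ofι (k ≫ pullback.snd i π) hk2) WalkingParallelPair.zero
    apply pullback.hom_ext
    · rw [Category.assoc, hlf, comp_zero, hk]
    · rw [Category.assoc, hls, hl']
  have hWB : W (pullback i π) := hW.ext _ hT hA.1 hN
  have hPB : Pr (pullback i π) := hext _ hT hA.1 hN hA.2 hPN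
  have eB : pullback i π ≅ ((Subobject.mk (pullback.snd i π) : Subobject M) : 𝒞) :=
    (Subobject.underlyingIso (pullback.snd i π)).symm
  have hPB' : P (Subobject.mk (pullback.snd i π)) := ⟨hW.iso eB hWB, hiso eB hPB⟩
  have hle : A ≤ Subobject.mk (pullback.snd i π) :=
    Subobject.le_mk_of_comm l hls
  have heq := hmax _ hPB' hle
  have hle2 : Subobject.mk (pullback.snd i π) ≤ A := heq.ge
  have hfac : Subobject.ofMkLE (pullback.snd i π) A hle2 ≫ A.arrow = pullback.snd i π :=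
    Subobject.ofMkLE_arrow hle2
  have h1 : pullback.snd i π ≫ π = 0 := by
    have h0' : A.arrow ≫ π = 0 := cokernel.condition A.arrow
    calc pullback.snd i π ≫ π
        = (Subobject.ofMkLE (pullback.snd i π) A hle2 ≫ A.arrow) ≫ π := by rw [hfac]
      _ = 0 := by rw [Category.assoc, h0', comp_zero]
  have h2 : pullback.fst i π ≫ i = 0 := by rw [pullback.condition, h1]
  have h3 : pullback.fst i π = 0 := zero_of_comp_mono i h2
  exact IsZero.of_epi_eq_zero (pullback.fst i π) h3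

/-- The torsion subobject: `T → M → Q` with `r T = 0` and `Q` torsion-free. -/
theorem exists_torsion (hW : WSerre W) (M : 𝒞) (hM : W M) :
    ∃ S : ShortComplex 𝒞, S.ShortExact ∧ S.X₂ = M ∧ W S.X₁ ∧ q.r S.X₁ = 0 ∧ q.Tf S.X₃ := by
  obtain ⟨S, hS, h2, hw1, hw3, hP, hmax⟩ := exists_max q hW (fun N => W N ∧ q.r N = 0)
    (fun N hN => ⟨hW.zero N hN, (aux_zero_Wk q hW hN).1⟩)
    (fun {K N} e hK => ⟨hW.iso e hK.1, (inv_iso q hW e hK.1).1 ▸ hK.2⟩)
    (fun T hT h1 h3 hp1 hp3 => by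
      have hw2 := hW.ext T hT h1 h3
      exact ⟨hw2, by rw [(q.add T hT h1 hw2 h3).1, hp1.2, hp3.2, add_zero]⟩) M hM
  exact ⟨S, hS, h2, hw1, hP.2, hw3, fun N i hi hN hr => hmax N i hi hN ⟨hN, hr⟩⟩

end RDX

end M21.E3
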