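import Pool.Agent.H.MP_21b43d_ag.E3.Rk1

/-!
# M21, existence part, R1b: consequences of the Hartogs property (abstract)
-/

open CategoryTheory CategoryTheory.Limits

universe v u

noncomputable section

namespace M21.E3

variable {𝒞 : Type u} [Category.{v} 𝒞] [Abelian 𝒞] {W : ObjectProperty 𝒞}

theorem se_coker_Rk1b {M N : 𝒞} (i : M ⟶ N) [Mono i] :
    (ShortComplex.mk i (cokernel.π i) (cokernel.condition i)).ShortExact :=
  { exact := ShortComplex.exact_cokernel i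
    mono_f := inferInstance
    epi_g := inferInstance }

theorem se_ker_Rk1b {M N : 𝒞} (p : M ⟶ N) [Epi p] :
    (ShortComplex.mk (kernel.ι p) p (kernel.condition p)).ShortExact :=
  { exact := ShortComplex.exact_kernel p
    mono_f := inferInstance
    epi_g := inferInstance }

theorem zero_im_Rk1b {M N : 𝒞} (f : M ⟶ N) : kernel.ι f ≫ Abelian.factorThruImage f = 0 := by
  rw [← cancel_mono (Abelian.image.ι f), Category.assoc, Abelian.image.fac, kernel.condition,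
    zero_comp]

theorem se_im_Rk1b {M N : 𝒞} (f : M ⟶ N) :
    (ShortComplex.mk (kernel.ι f) (Abelian.factorThruImage f) (zero_im_Rk1b f)).ShortExact := by
  refine { exact := ?_, mono_f := inferInstance, epi_g := inferInstance }
  have h := ShortComplex.exact_iff_of_epi_of_isIso_of_mono
    (S₁ := ShortComplex.mk (kernel.ι f) (Abelian.factorThruImage f) (zero_im_Rk1b f))
    (S₂ := ShortComplex.mk (kernel.ι f) f (kernel.condition f))
    { τ₁ := 𝟙 _, τ₂ := 𝟙 _, τ₃ := Abelian.image.ι f, comm₁₂ := by simp, comm₂₃ := by simp }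
  exact h.mpr (ShortComplex.exact_of_f_is_kernel _ (kernelIsKernel f))

theorem W_im_Rk1b (hW : WSerre W) {M N : 𝒞} (f : M ⟶ N) (hM : W M) (hN : W N) :
    W (Abelian.image f) := hW.kernel (cokernel.π f) hN (hW.cokernel f hM hN)

/-- A monomorphism `S → N` in `W` with `N` torsion-free, `S` with the Hartogs property and cokernel with
`r = D = 0` is an isomorphism: extend `𝟙 S` to `ρ : N → S`; then `N = S ⊕ ker ρ` and
`ker ρ ≅ coker` has `r = 0`, so `ker ρ = 0`. -/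
theorem isIso_of_hart (hW : WSerre W) (q : RDX W) {S N : 𝒞} (i : S ⟶ N) [Mono i] (hS : W S)
    (hH : Hart q S) (hN : q.Tf N) (hr : q.r (cokernel i) = 0) (hD : q.D (cokernel i) = 0) :
    IsIso i := by
  obtain ⟨ρ, hρ⟩ := hH S N i inferInstance hS hN.1 hr hD (𝟙 S)
  have he : Epi ρ := by
    have : Epi (i ≫ ρ) := by rw [hρ]; infer_instance
    exact epi_of_epi i ρ
  have h1 := (q.add _ (se_coker_Rk1b i) hS hN.1 (hW.cokernel i hS hN.1)).1
  have h2 := (q.add _ (se_ker_Rk1b ρ) (hW.kernel ρ hN.1 hS) hN.1 hS).1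
  dsimp only at h1 h2
  have h3 : q.r (kernel ρ) = 0 := by omega
  have h4 : IsZero (kernel ρ) := hN.2 _ (kernel.ι ρ) inferInstance (hW.kernel ρ hN.1 hS) h3
  have hm : Mono ρ := Preadditive.mono_of_kernel_zero (h4.eq_of_src _ _)
  have hi : IsIso ρ := isIso_of_mono_of_epi ρ
  have h5 : i = inv ρ := by
    rw [← cancel_mono ρ, hρ, IsIso.inv_hom_id]
  rw [h5]
  infer_instance

/-- If `Hom(L, S)` is finite dimensional and nonzero, then `End(S) = ℂ`: `g` acts on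
`Hom(L, S)` and has an eigenvector `s ≠ 0` with eigenvalue `c`; then `ker (g - c) ≠ 0` has
`r = r S`, so the image of `g - c` has `r = 0` and is zero. -/
theorem Rk1.end_eq [Linear ℂ 𝒞] (hW : WSerre W) {q : RDX W} {S L : 𝒞} (h : Rk1 q S)
    [FiniteDimensional ℂ (L ⟶ S)] (hL : ∃ s : L ⟶ S, s ≠ 0) (g : S ⟶ S) :
    ∃ c : ℂ, g = c • 𝟙 S := by
  obtain ⟨s0, hs0⟩ := hL
  have hnt : Nontrivial (L ⟶ S) := ⟨⟨s0, 0, hs0⟩⟩
  obtain ⟨c, hc⟩ := Module.End.exists_eigenvalue (CategoryTheory.Linear.rightComp ℂ L g)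
  obtain ⟨s, hs⟩ := hc.exists_hasEigenvector
  have hs1 : s ≫ g = c • s := hs.apply_eq_smul
  have hs2 : s ≠ 0 := hs.2
  refine ⟨c, ?_⟩
  have hs3 : s ≫ (g - c • 𝟙 S) = 0 := by
    rw [Preadditive.comp_sub, hs1, CategoryTheory.Linear.comp_smul, Category.comp_id, sub_self]
  have hK : W (kernel (g - c • 𝟙 S)) := hW.kernel _ h.mem h.mem
  have hI : W (Abelian.image (g - c • 𝟙 S)) := W_im_Rk1b hW _ h.mem h.mem
  have hz : ¬ IsZero (kernel (g - c • 𝟙 S)) := by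
    intro hz
    apply hs2
    rw [← kernel.lift_ι (g - c • 𝟙 S) s hs3, hz.eq_of_tgt (kernel.lift (g - c • 𝟙 S) s hs3) 0,
      zero_comp]
  have h1 := h.sub _ (kernel.ι (g - c • 𝟙 S)) inferInstance hK hz
  have h2 := (q.add _ (se_im_Rk1b (g - c • 𝟙 S)) hK h.mem hI).1
  dsimp only at h2
  have h3 : q.r (Abelian.image (g - c • 𝟙 S)) = 0 := by omega
  have h4 : IsZero (Abelian.image (g - c • 𝟙 S)) :=
    h.tf.2 _ (Abelian.image.ι _) inferInstance hI h3
  have h5 : g - c • 𝟙 S = 0 := by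
    rw [← Abelian.image.fac (g - c • 𝟙 S), h4.eq_of_src (Abelian.image.ι _) 0, comp_zero]
  exact sub_eq_zero.1 h5

/-- If `i ≫ ψ = j` with `i`, `j` mono, then `ker ψ` embeds into `coker i`. -/
theorem mono_ker_Rk1b {M M' S : 𝒞} (i : M ⟶ M') [Mono i] (j : M ⟶ S) [Mono j] (ψ : M' ⟶ S)
    (h : i ≫ ψ = j) : Mono (kernel.ι ψ ≫ cokernel.π i) := by
  refine Preadditive.mono_of_cancel_zero _ fun {T} t ht => ?_
  have hk := (se_coker_Rk1b i).fIsKernel
  have h1 : (t ≫ kernel.ι ψ) ≫ cokernel.π i = 0 := by rw [Category.assoc]; exact ht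
  have h2 : hk.lift (KernelFork.ofι (t ≫ kernel.ι ψ) h1) ≫ i = t ≫ kernel.ι ψ :=
    hk.fac (KernelFork.ofι (t ≫ kernel.ι ψ) h1) WalkingParallelPair.zero
  have h3 : hk.lift (KernelFork.ofι (t ≫ kernel.ι ψ) h1) ≫ j = 0 := by
    rw [← h, ← Category.assoc, h2, Category.assoc, kernel.condition, comp_zero]
  have h4 : hk.lift (KernelFork.ofι (t ≫ kernel.ι ψ) h1) = 0 := zero_of_comp_mono j h3
  have h5 : t ≫ kernel.ι ψ = 0 := by rw [← h2, h4, zero_comp]
  exact zero_of_comp_mono (kernel.ι ψ) h5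

/-- If `i ≫ ψ = j` with `ψ` mono, then `coker i` embeds into `coker j`. -/
theorem mono_coker_Rk1b {M M' S : 𝒞} (i : M ⟶ M') [Mono i] (j : M ⟶ S) [Mono j] (ψ : M' ⟶ S)
    [Mono ψ] (h : i ≫ ψ = j) (φ : cokernel i ⟶ cokernel j)
    (hφ : cokernel.π i ≫ φ = ψ ≫ cokernel.π j) : Mono φ := by
  refine Preadditive.mono_of_cancel_zero _ fun {T} t ht => ?_
  have hpe : Epi (pullback.fst t (cokernel.π i)) := Abelian.epi_pullback_of_epi_g t (cokernel.π i)
  have hk := (se_coker_Rk1b j).fIsKernel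
  have h1 : (pullback.snd t (cokernel.π i) ≫ ψ) ≫ cokernel.π j = 0 := by
    rw [Category.assoc, ← hφ, ← Category.assoc, ← pullback.condition, Category.assoc, ht,
      comp_zero]
  have h2 : hk.lift (KernelFork.ofι (pullback.snd t (cokernel.π i) ≫ ψ) h1) ≫ j =
      pullback.snd t (cokernel.π i) ≫ ψ :=
    hk.fac (KernelFork.ofι (pullback.snd t (cokernel.π i) ≫ ψ) h1) WalkingParallelPair.zero
  have h3 : hk.lift (KernelFork.ofι (pullback.snd t (cokernel.π i) ≫ ψ) h1) ≫ i =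
      pullback.snd t (cokernel.π i) := by
    rw [← cancel_mono ψ, Category.assoc, h, h2]
  have h4 : pullback.fst t (cokernel.π i) ≫ t = 0 := by
    rw [pullback.condition, ← h3, Category.assoc, cokernel.condition, comp_zero]
  exact zero_of_epi_comp _ h4

/-- A subobject in `W` of an object with `r = D = 0` has `r = D = 0` and smaller `χ`. -/
theorem x_le_Rk1b (hW : WSerre W) (q : RDX W) {A B : 𝒞} (i : A ⟶ B) [Mono i] (hA : W A)
    (hB : W B) (hr : q.r B = 0) (hD : q.D B = 0) :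
    q.r A = 0 ∧ q.D A = 0 ∧ q.x A ≤ q.x B := by
  have hC := hW.cokernel i hA hB
  obtain ⟨h1, h2, h3⟩ := q.add _ (se_coker_Rk1b i) hA hB hC
  dsimp only at h1 h2 h3
  have a1 := q.r_nonneg _ hA
  have a2 := q.r_nonneg _ hC
  have b1 : q.r A = 0 := by omega
  have b2 : q.r (cokernel i) = 0 := by omega
  have a3 := q.D_nonneg _ hA b1
  have a4 := q.D_nonneg _ hC b2
  have b3 : q.D (cokernel i) = 0 := by omega
  refine ⟨b1, by omega, ?_⟩
  by_cases hz : IsZero (cokernel i)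
  · have := (q.inv_zero hW hz).2.2
    omega
  · have := q.x_pos _ hC b2 b3 hz
    omega

/-- The image of an object with `r = D = 0` has `r = D = 0`. -/
theorem im_Rk1b (hW : WSerre W) (q : RDX W) {A B : 𝒞} (f : A ⟶ B) (hA : W A) (hB : W B)
    (hr : q.r A = 0) (hD : q.D A = 0) :
    q.r (Abelian.image f) = 0 ∧ q.D (Abelian.image f) = 0 := by
  have hK := hW.kernel f hA hB
  have hI := W_im_Rk1b hW f hA hB
  obtain ⟨h1, h2, -⟩ := q.add _ (se_im_Rk1b f) hK hA hI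
  dsimp only at h1 h2
  have a1 := q.r_nonneg _ hK
  have a2 := q.r_nonneg _ hI
  have b1 : q.r (kernel f) = 0 := by omega
  have b2 : q.r (Abelian.image f) = 0 := by omega
  have a3 := q.D_nonneg _ hK b1
  have a4 := q.D_nonneg _ hI b2
  exact ⟨b2, by omega⟩

/-- The largest subobject with `r = D = 0`. -/
theorem max_Rk1b (hW : WSerre W) (q : RDX W) (C : 𝒞) (hC : W C) :
    ∃ (X₁ X₃ : 𝒞) (f : X₁ ⟶ C) (g : C ⟶ X₃) (w : f ≫ g = 0),
      (ShortComplex.mk f g w).ShortExact ∧ W X₁ ∧ W X₃ ∧ q.r X₁ = 0 ∧ q.D X₁ = 0 ∧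
      ∀ (N : 𝒞) (i : N ⟶ X₃), Mono i → W N → (W N ∧ q.r N = 0 ∧ q.D N = 0) → IsZero N := by
  obtain ⟨T, hT, h2, hw1, hw3, hp, hmax⟩ :=
    RDX.exists_max q hW (fun N => W N ∧ q.r N = 0 ∧ q.D N = 0)
    (fun N hN => ⟨hW.zero N hN, (q.inv_zero hW hN).1, (q.inv_zero hW hN).2.1⟩)
    (fun {K N} e hK => ⟨hW.iso e hK.1, (q.inv_iso hW e hK.1).1 ▸ hK.2.1,
      (q.inv_iso hW e hK.1).2.1 ▸ hK.2.2⟩)
    (fun T hT h1 h3 hp1 hp3 => by
      have hw2 := hW.ext T hT h1 h3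
      refine ⟨hw2, ?_, ?_⟩
      · rw [(q.add T hT h1 hw2 h3).1, hp1.2.1, hp3.2.1, add_zero]
      · rw [(q.add T hT h1 hw2 h3).2.1, hp1.2.2, hp3.2.2, add_zero]) C hC
  subst h2
  exact ⟨T.X₁, T.X₃, T.f, T.g, T.zero, hT, hw1, hw3, hp.2.1, hp.2.2, hmax⟩

/-- A morphism from an object with `r = D = 0` to an object without such subobjects vanishes. -/
theorem zero_Rk1b (hW : WSerre W) (q : RDX W) {A B : 𝒞} (θ : A ⟶ B) (hA : W A) (hB : W B)
    (hr : q.r A = 0) (hD : q.D A = 0)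
    (hmax : ∀ (N : 𝒞) (i : N ⟶ B), Mono i → W N → (W N ∧ q.r N = 0 ∧ q.D N = 0) → IsZero N) :
    θ = 0 := by
  obtain ⟨b1, b2⟩ := im_Rk1b hW q θ hA hB hr hD
  have hIW := W_im_Rk1b hW θ hA hB
  have hIz := hmax _ (Abelian.image.ι θ) inferInstance hIW ⟨hIW, b1, b2⟩
  rw [← Abelian.image.fac θ, hIz.eq_of_src (Abelian.image.ι θ) 0, comp_zero]

theorem lift_Rk1b {X₁ C X₃ A : 𝒞} {f : X₁ ⟶ C} {g : C ⟶ X₃} {w : f ≫ g = 0}
    (hT : (ShortComplex.mk f g w).ShortExact) (k : A ⟶ C) (hk : k ≫ g = 0) :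
    ∃ l : A ⟶ X₁, l ≫ f = k :=
  ⟨hT.fIsKernel.lift (KernelFork.ofι k hk),
    hT.fIsKernel.fac (KernelFork.ofι k hk) WalkingParallelPair.zero⟩

/-- The hull: if the torsion-free `M` embeds into `S ∈ W` with the Hartogs property, then the torsion-free
`M' ⊇ M` with the same `r` and `D` have bounded `χ`. Proof: let `C = S / M` and let `C₀` be its largest
subobject with `r = D = 0` (`exists_max`). The embedding extends to `M' → S` (Hartogs), which is mono
(its kernel meets `M` in `0`, so it embeds into `M'/M` and has `r = 0`), so `M'/M` embeds into `C`, and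
into `C₀`. So `χ(M') = χ(M) + χ(M'/M) ≤ χ(M) + χ(C₀)`. -/
theorem hull_of_embed (hW : WSerre W) (q : RDX W) {M S : 𝒞} (hM : q.Tf M) (j : M ⟶ S) [Mono j]
    (hS : W S) (hH : Hart q S) :
    ∃ n : ℤ, ∀ (M' : 𝒞) (i : M ⟶ M'), Mono i → q.Tf M' → q.r M' = q.r M →
      q.D M' = q.D M → q.x M' ≤ n := by
  obtain ⟨X₁, X₃, f, g, w, hT, hw1, hw3, hr1, hD1, hmax⟩ :=
    max_Rk1b hW q (cokernel j) (hW.cokernel j hM.1 hS)
  refine ⟨q.x M + q.x X₁, fun M' i hi hM' hr hD => ?_⟩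
  have hC := hW.cokernel i hM.1 hM'.1
  obtain ⟨a1, a2, a3⟩ := q.add _ (se_coker_Rk1b i) hM.1 hM'.1 hC
  dsimp only at a1 a2 a3
  have hCr : q.r (cokernel i) = 0 := by omega
  have hCD : q.D (cokernel i) = 0 := by omega
  obtain ⟨ψ, hψ⟩ := hH M M' i hi hM.1 hM'.1 hCr hCD j
  have hK := hW.kernel ψ hM'.1 hS
  have hm1 := mono_ker_Rk1b i j ψ hψ
  have hKr := (x_le_Rk1b hW q (kernel.ι ψ ≫ cokernel.π i) hK hC hCr hCD).1
  have hKz : IsZero (kernel ψ) := hM'.2 _ (kernel.ι ψ) inferInstance hK hKr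
  have hψm : Mono ψ := Preadditive.mono_of_kernel_zero (hKz.eq_of_src _ _)
  have hc : i ≫ ψ ≫ cokernel.π j = 0 := by
    rw [← Category.assoc, hψ, cokernel.condition]
  obtain ⟨φ, hφ⟩ : ∃ φ : cokernel i ⟶ cokernel j, cokernel.π i ≫ φ = ψ ≫ cokernel.π j :=
    ⟨cokernel.desc i (ψ ≫ cokernel.π j) hc, cokernel.π_desc i (ψ ≫ cokernel.π j) hc⟩
  have hφm := mono_coker_Rk1b i j ψ hψ φ hφ
  have h0 : φ ≫ g = 0 := zero_Rk1b hW q (φ ≫ g) hC hw3 hCr hCD hmax
  obtain ⟨l, hl⟩ := lift_Rk1b hT φ h0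
  have h5 : Mono l := by
    have : Mono (l ≫ f) := by rw [hl]; exact hφm
    exact mono_of_mono l f
  have h6 := (x_le_Rk1b hW q l hC hw1 hr1 hD1).2.2
  omega

end M21.E3
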