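import Pool.Agent.H.MP_21b43d_ag.E3.Slope

/-!
# M21, stage 3: Harder-Narasimhan filtrations in a noetherian abelian category with a central
charge with values in `ℤ[i]`
-/

open CategoryTheory CategoryTheory.Limits ZeroObject

noncomputable section

universe v u

namespace M21

variable {A : Type u} [Category.{v} A] [Abelian A]

/-! ### induction on quotients of a noetherian object -/

theorem kernelSubobject_le_comp {E Q Q' : A} (g : E ⟶ Q) (q : Q ⟶ Q') :
    kernelSubobject g ≤ kernelSubobject (g ≫ q) :=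
  kernelSubobject_comp_le g q

theorem isIso_of_kernelSubobject_eq {E Q Q' : A} (g : E ⟶ Q) [Epi g] (q : Q ⟶ Q') [Epi q]
    (h : kernelSubobject g = kernelSubobject (g ≫ q)) : IsIso q := by
  have hm : Mono q := by
    rw [Preadditive.mono_iff_cancel_zero]
    intro T t ht
    -- pull back along the epimorphism g
    have h1 : pullback.fst t g ≫ t = pullback.snd t g ≫ g := pullback.condition
    have h2 : pullback.snd t g ≫ g ≫ q = 0 := by
      rw [← Category.assoc, ← h1, Category.assoc, ht, comp_zero]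
    have h3 : (kernelSubobject (g ≫ q)).Factors (pullback.snd t g) :=
      (kernelSubobject_factors_iff _ _).mpr h2
    rw [← h] at h3
    have h4 : pullback.snd t g ≫ g = 0 := (kernelSubobject_factors_iff _ _).mp h3
    rw [h4] at h1
    exact (cancel_epi (pullback.fst t g)).mp (by rw [h1, comp_zero])
  exact isIso_of_mono_of_epi q

/-- Induction on the quotients of a noetherian object. -/
theorem quot_induction {E : A} (hE : IsNoetherianObject E) (P : A → Prop)
    (h : ∀ (Q : A) (g : E ⟶ Q), Epi g → (∀ (Q' : A) (q : Q ⟶ Q'), Epi q → ¬ IsIso q → P Q') → P Q) :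
    P E := by
  have key : ∀ x : Subobject E, ∀ (Q : A) (g : E ⟶ Q), Epi g → kernelSubobject g = x → P Q := by
    intro x
    induction x using (wellFounded_gt (α := Subobject E)).induction with
    | _ x ih =>
      intro Q g hg hx
      refine h Q g hg fun Q' q hq hqi => ?_
      have h1 : kernelSubobject g < kernelSubobject (g ≫ q) := by
        refine lt_of_le_of_ne (kernelSubobject_le_comp g q) fun h2 => ?_
        exact hqi (isIso_of_kernelSubobject_eq g q h2)
      exact ih (kernelSubobject (g ≫ q)) (hx ▸ h1) Q' (g ≫ q) (epi_comp _ _) rfl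
  exact key _ E (𝟙 E) inferInstance rfl

variable (Z : StabFun A)

/-! ### boundedness -/

/-- `-R` is bounded above on the subobjects of `E`. -/
def Bd (E : A) : Prop := ∃ B : ℤ, ∀ (L : A) (i : L ⟶ E), Mono i → -Z.R L ≤ B

variable {Z}

theorem Bd.ext {L E : A} (i : L ⟶ E) [Mono i] (hL : Bd Z L) (hQ : Bd Z (cokernel i)) : Bd Z E := by
  obtain ⟨B₁, h₁⟩ := hL
  obtain ⟨B₂, h₂⟩ := hQ
  refine ⟨B₁ + B₂, fun M j hj => ?_⟩
  let g : M ⟶ cokernel i := j ≫ cokernel.π i
  have hT : (ShortComplex.mk (kernel.ι g) (Abelian.factorThruImage g) (by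
      rw [← cancel_mono (Abelian.image.ι g), Category.assoc, Abelian.image.fac,
        kernel.condition, zero_comp])).ShortExact := by
    refine { exact := ?_ }
    refine ShortComplex.exact_of_f_is_kernel _ (KernelFork.IsLimit.ofι _ _
      (fun k hk => kernel.lift g k (by
        rw [← Abelian.image.fac g, ← Category.assoc, hk, zero_comp]))
      (fun k hk => kernel.lift_ι _ _ _)
      (fun k hk m hm => by
        rw [← cancel_mono (kernel.ι g), hm, kernel.lift_ι]))
  have hR := Z.R_add _ hT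
  have hS := shortExact_cokernel i
  have hw : (kernel.ι g ≫ j) ≫ cokernel.π i = 0 := by
    rw [Category.assoc]
    exact kernel.condition g
  let l : kernel g ⟶ L := hS.exact.lift (kernel.ι g ≫ j) hw
  have hl : l ≫ i = kernel.ι g ≫ j := hS.exact.lift_f _ _
  have hm : Mono (l ≫ i) := by rw [hl]; exact mono_comp _ _
  have hlm : Mono l := mono_of_mono l i
  have a1 := h₁ (kernel g) l hlm
  have a2 := h₂ (Abelian.image g) (Abelian.image.ι g) inferInstance
  have a3 : Z.R M = Z.R (kernel g) + Z.R (Abelian.image g) := hR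
  omega

theorem bd_of_noetherian {E : A} (hE : IsNoetherianObject E) : Bd Z E := by
  refine quot_induction hE (Bd Z) fun Q g _ ih => ?_
  by_contra hQ
  have key : ∀ (L : A) (i : L ⟶ Q), Mono i → ¬ IsZero L → ¬ Bd Z L := by
    intro L i hi hL hB
    refine hQ (Bd.ext i hB (ih _ (cokernel.π i) inferInstance fun hiso => hL ?_))
    have h1 : i = 0 := by
      rw [← cancel_mono (cokernel.π i), cokernel.condition, zero_comp]
    rw [IsZero.iff_id_eq_zero, ← cancel_mono i, h1, comp_zero, comp_zero]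
  have hQ0 : ¬ IsZero Q := by
    intro h0
    refine hQ ⟨0, fun L i hi => ?_⟩
    have : IsZero L := by
      rw [IsZero.iff_id_eq_zero, ← cancel_mono i]
      exact h0.eq_of_tgt _ _
    rw [Z.R_zero this, neg_zero]
  -- a nonzero subobject with minimal `D`
  let S : Set ℕ := {d | ∃ (L : A) (i : L ⟶ Q), Mono i ∧ ¬ IsZero L ∧ Z.D L = d}
  have hS : S.Nonempty := by
    refine ⟨(Z.D Q).toNat, Q, 𝟙 Q, inferInstance, hQ0, ?_⟩
    rw [Int.toNat_of_nonneg (Z.D_nonneg Q)]
  obtain ⟨L, i, hi, hL0, hLD⟩ := Nat.sInf_mem hS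
  refine key L i hi hL0 ⟨max (-Z.R L) 0, fun M j hj => ?_⟩
  by_cases hM : IsZero M
  · rw [Z.R_zero hM, neg_zero]
    exact le_max_right _ _
  · refine le_trans ?_ (le_max_left _ _)
    have h1 : (Z.D M).toNat ∈ S := by
      refine ⟨M, j ≫ i, mono_comp _ _, hM, ?_⟩
      rw [Int.toNat_of_nonneg (Z.D_nonneg M)]
    have h2 : sInf S ≤ (Z.D M).toNat := Nat.sInf_le h1
    have h3 : Z.D L ≤ Z.D M := by
      rw [hLD, ← Int.toNat_of_nonneg (Z.D_nonneg M)]
      exact_mod_cast h2
    have h4 := Z.D_sub j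
    have h5 := Z.D_nonneg (cokernel j)
    have h6 : Z.D (cokernel j) = 0 := by omega
    have h7 := Z.R_le h6
    have h8 := Z.R_sub j
    omega

/-! ### the maximal destabilising subobject -/

theorem exists_max_slope {E : A} (hE : IsNoetherianObject E) (hE0 : ¬ IsZero E) :
    ∃ (M : A) (i : M ⟶ E), Mono i ∧ ¬ IsZero M ∧
      ∀ (L : A) (j : L ⟶ E), Mono j → ¬ IsZero L → Z.slope L ≤ Z.slope M := by
  by_cases h0 : ∃ (M : A) (i : M ⟶ E), Mono i ∧ ¬ IsZero M ∧ Z.D M = 0
  · obtain ⟨M, i, hi, hM, hD⟩ := h0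
    refine ⟨M, i, hi, hM, fun L j _ hL => ?_⟩
    rw [Z.slope_le_iff hL hM, hD, mul_zero]
    exact mul_nonpos_of_nonpos_of_nonneg (Z.R_neg M hM hD).le (Z.D_nonneg L)
  · have hD : ∀ (L : A) (j : L ⟶ E), Mono j → ¬ IsZero L → 0 < Z.D L := by
      intro L j hj hL
      refine lt_of_le_of_ne (Z.D_nonneg L) fun h1 => h0 ⟨L, j, hj, hL, h1.symm⟩
    obtain ⟨B, hB⟩ := bd_of_noetherian (Z := Z) hE
    let N : ℕ := (Z.D E).toNat.factorial
    have hdvd : ∀ (L : A) (j : L ⟶ E), Mono j → ¬ IsZero L → ∃ c : ℤ, 0 < c ∧ (N : ℤ) = Z.D L * c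
        ∧ c ≤ N := by
      intro L j hj hL
      have h1 := hD L j hj hL
      have h2 := Z.D_le j
      have h3 : (Z.D L).toNat ∣ N := Nat.dvd_factorial (by omega) (by omega)
      obtain ⟨c, hc⟩ := h3
      have hN : 0 < N := Nat.factorial_pos _
      have hc0 : 0 < c := by
        rcases Nat.eq_zero_or_pos c with h4 | h4
        · rw [h4, mul_zero] at hc; omega
        · exact h4
      refine ⟨c, by exact_mod_cast hc0, ?_, ?_⟩
      · rw [hc]
        push_cast
        rw [Int.toNat_of_nonneg h1.le]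
      · have h5 : 0 < (Z.D L).toNat := by omega
        have h6 : c ≤ N := by
          rw [hc]
          exact Nat.le_mul_of_pos_left c h5
        exact_mod_cast h6
    -- the integer `-R(L) N / D(L)`
    let T : Set ℤ := {z | ∃ (L : A) (j : L ⟶ E), Mono j ∧ ¬ IsZero L ∧ z * Z.D L = -Z.R L * N}
    have hTne : ∃ z, z ∈ T := by
      obtain ⟨c, hc, hNc, -⟩ := hdvd E (𝟙 E) inferInstance hE0
      refine ⟨-Z.R E * c, E, 𝟙 E, inferInstance, hE0, ?_⟩
      rw [hNc]; ring
    have hTb : ∃ b : ℤ, ∀ z, z ∈ T → z ≤ b := by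
      refine ⟨|B| * N, ?_⟩
      rintro z ⟨L, j, hj, hL, hz⟩
      obtain ⟨c, hc, hNc, hcN⟩ := hdvd L j hj hL
      have h1 := hD L j hj hL
      have h2 := hB L j hj
      have h3 : z = -Z.R L * c := by
        have h4 : z * Z.D L = (-Z.R L * c) * Z.D L := by rw [hz, hNc]; ring
        exact mul_right_cancel₀ h1.ne' h4
      rw [h3]
      have h5 : -Z.R L ≤ |B| := h2.trans (le_abs_self B)
      calc -Z.R L * c ≤ |B| * c := mul_le_mul_of_nonneg_right h5 hc.le
        _ ≤ |B| * N := mul_le_mul_of_nonneg_left hcN (abs_nonneg B)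
    obtain ⟨z, ⟨M, i, hi, hM, hz⟩, hzmax⟩ := Int.exists_greatest_of_bdd hTb hTne
    refine ⟨M, i, hi, hM, fun L j hj hL => ?_⟩
    obtain ⟨c, hc, hNc, -⟩ := hdvd L j hj hL
    have h1 : -Z.R L * c ∈ T := ⟨L, j, hj, hL, by rw [hNc]; ring⟩
    have h2 := hzmax _ h1
    have hDL := hD L j hj hL
    have hDM := hD M i hi hM
    have hN : (0 : ℤ) < N := by exact_mod_cast Nat.factorial_pos _
    rw [Z.slope_le_iff hL hM]
    -- multiply by `N`
    have h3 : (-Z.R L * c) * (Z.D M * Z.D L) ≤ z * (Z.D M * Z.D L) :=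
      mul_le_mul_of_nonneg_right h2 (mul_pos hDM hDL).le
    have h4 : (-Z.R L * c) * (Z.D M * Z.D L) = N * (-Z.R L * Z.D M) := by
      rw [hNc]; ring
    have h5 : z * (Z.D M * Z.D L) = N * (-Z.R M * Z.D L) := by
      have : z * (Z.D M * Z.D L) = (z * Z.D M) * Z.D L := by ring
      rw [this, hz]; ring
    rw [h4, h5] at h3
    have h6 := le_of_mul_le_mul_left h3 hN
    linarith

/-- The preimage of a subobject of a quotient. -/
theorem exists_preimage {M E Q F' A₀ : A} (i : M ⟶ E) (p : E ⟶ Q) (w : i ≫ p = 0)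
    (h1 : (ShortComplex.mk i p w).ShortExact) (j : F' ⟶ Q) (q : Q ⟶ A₀) (w' : j ≫ q = 0)
    (h2 : (ShortComplex.mk j q w').ShortExact) :
    ∃ (F : A) (a : M ⟶ F) (b : F ⟶ F') (c : F ⟶ E) (wab : a ≫ b = 0) (wc : c ≫ p ≫ q = 0),
      (ShortComplex.mk a b wab).ShortExact ∧ (ShortComplex.mk c (p ≫ q) wc).ShortExact ∧
        a ≫ c = i := by
  have hi : Mono i := h1.mono_f
  have hp : Epi p := h1.epi_g
  have hj : Mono j := h2.mono_f
  have hq : Epi q := h2.epi_g
  let F := pullback p j
  let c : F ⟶ E := pullback.fst p j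
  let b : F ⟶ F' := pullback.snd p j
  have hcb : c ≫ p = b ≫ j := pullback.condition
  let a : M ⟶ F := pullback.lift i 0 (by rw [w, zero_comp])
  have hac : a ≫ c = i := pullback.lift_fst _ _ _
  have hab : a ≫ b = 0 := pullback.lift_snd _ _ _
  have hwc : c ≫ p ≫ q = 0 := by rw [← Category.assoc, hcb, Category.assoc, w', comp_zero]
  have hma : Mono a := by
    have : Mono (a ≫ c) := by rw [hac]; exact hi
    exact mono_of_mono a c
  refine ⟨F, a, b, c, hab, hwc, ?_, ?_, hac⟩
  · refine { exact := ?_, mono_f := hma, epi_g := (inferInstance : Epi (pullback.snd p j)) }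
    refine ShortComplex.exact_of_f_is_kernel _ (KernelFork.IsLimit.ofι _ _
      (fun {W} k hk => h1.exact.lift (k ≫ c) (by
        change (k ≫ c) ≫ p = 0
        rw [Category.assoc, hcb, ← Category.assoc]
        change (k ≫ b) ≫ j = 0
        rw [show k ≫ b = 0 from hk, zero_comp]))
      (fun {W} k hk => ?_) (fun {W} k hk m hm => ?_))
    · have h3 : (h1.exact.lift (k ≫ c) (by
        change (k ≫ c) ≫ p = 0
        rw [Category.assoc, hcb, ← Category.assoc]
        change (k ≫ b) ≫ j = 0
        rw [show k ≫ b = 0 from hk, zero_comp])) ≫ i = k ≫ c := h1.exact.lift_f _ _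
      apply pullback.hom_ext
      · change (_ ≫ a) ≫ c = k ≫ c
        rw [Category.assoc, hac, h3]
      · change (_ ≫ a) ≫ b = k ≫ b
        rw [Category.assoc, hab, comp_zero]
        exact hk.symm
    · rw [← cancel_mono a]
      change m ≫ a = _ at hm
      rw [hm]
      symm
      have h3 : (h1.exact.lift (k ≫ c) (by
        change (k ≫ c) ≫ p = 0
        rw [Category.assoc, hcb, ← Category.assoc]
        change (k ≫ b) ≫ j = 0
        rw [show k ≫ b = 0 from hk, zero_comp])) ≫ i = k ≫ c := h1.exact.lift_f _ _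
      apply pullback.hom_ext
      · change (_ ≫ a) ≫ c = k ≫ c
        rw [Category.assoc, hac, h3]
      · change (_ ≫ a) ≫ b = k ≫ b
        rw [Category.assoc, hab, comp_zero]
        exact hk.symm
  · refine { exact := ?_, mono_f := (inferInstance : Mono (pullback.fst p j)),
             epi_g := (epi_comp p q : Epi (p ≫ q)) }
    have hl : ∀ {W : A} (k : W ⟶ E), k ≫ p ≫ q = 0 → ∃ t : W ⟶ F', t ≫ j = k ≫ p := by
      intro W k hk
      have hk' : (k ≫ p) ≫ q = 0 := by rw [Category.assoc]; exact hk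
      exact ⟨h2.exact.lift (k ≫ p) hk', h2.exact.lift_f _ _⟩
    refine ShortComplex.exact_of_f_is_kernel _ (KernelFork.IsLimit.ofι _ _
      (fun {W} k hk => pullback.lift k (hl k hk).choose (hl k hk).choose_spec.symm)
      (fun {W} k hk => pullback.lift_fst _ _ _) (fun {W} k hk m hm => ?_))
    rw [← cancel_mono c]
    change m ≫ c = _ at hm
    rw [hm]
    exact (pullback.lift_fst _ _ _).symm

/-- The maximal destabilising subobject. -/
theorem exists_mds {E : A} (hE : IsNoetherianObject E) (hE0 : ¬ IsZero E) :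
    ∃ (M : A) (i : M ⟶ E) (_ : Mono i), ¬ IsZero M ∧ Z.SS M ∧
      ∀ (L : A) (j : L ⟶ cokernel i), Mono j → ¬ IsZero L → Z.slope L < Z.slope M := by
  obtain ⟨M₀, i₀, hi₀, hM₀, hmax⟩ := exists_max_slope (Z := Z) hE hE0
  let s := Z.slope M₀
  let S : Set (Subobject E) := {x | ¬ IsZero (x : A) ∧ Z.slope (x : A) = s}
  have hS : S.Nonempty := by
    refine ⟨Subobject.mk i₀, fun h0 => hM₀ (h0.of_iso (Subobject.underlyingIso i₀).symm), ?_⟩
    exact Z.slope_iso (Subobject.underlyingIso i₀)
  obtain ⟨x, ⟨hx0, hxs⟩, hxmax⟩ := (wellFounded_gt (α := Subobject E)).has_min S hS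
  refine ⟨(x : A), x.arrow, inferInstance, hx0, ?_, ?_⟩
  · intro L j hj hL
    rw [hxs]
    exact hmax L (j ≫ x.arrow) (mono_comp _ _) hL
  · intro L j hj hL
    rw [hxs]
    by_contra hlt
    rw [not_lt] at hlt
    obtain ⟨F, a, b, c, wab, wc, hab, hc, hac⟩ := exists_preimage x.arrow
      (cokernel.π x.arrow) (cokernel.condition _) (shortExact_cokernel x.arrow) j (cokernel.π j)
      (cokernel.condition _) (shortExact_cokernel j)
    have hcm : Mono c := hc.mono_f
    have ham : Mono a := hab.mono_f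
    have hbe : Epi b := hab.epi_g
    have hF0 : ¬ IsZero F := by
      intro h0
      apply hx0
      rw [IsZero.iff_id_eq_zero, ← cancel_mono a]
      exact h0.eq_of_tgt _ _
    have h1 : Z.slope (x : A) ≤ Z.slope F :=
      (Z.slope₁₂_le_iff hab hx0 hF0 hL).mpr (by rw [hxs]; exact hlt)
    have h2 : Z.slope F ≤ s := hmax F c hcm hF0
    have h3 : Z.slope F = s := le_antisymm h2 (hxs ▸ h1)
    have h4 : Subobject.mk c ∈ S := by
      refine ⟨fun h0 => hF0 (h0.of_iso (Subobject.underlyingIso c).symm), ?_⟩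
      rw [Z.slope_iso (Subobject.underlyingIso c)]
      exact h3
    refine hxmax _ h4 ?_
    have h5 : x ≤ Subobject.mk c := Subobject.le_mk_of_comm a hac
    refine lt_of_le_of_ne h5 fun h6 => hL ?_
    -- then `a` is an isomorphism, so `b = 0`
    have h7 : Subobject.mk c ≤ x := h6.ge
    have h8 : (Subobject.ofMkLE c x h7) ≫ x.arrow = c := Subobject.ofMkLE_arrow h7
    have h9 : (Subobject.ofMkLE c x h7) ≫ a = 𝟙 F := by
      rw [← cancel_mono c, Category.assoc, hac, h8, Category.id_comp]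
    have h10 : b = 0 := by
      have : b = (Subobject.ofMkLE c x h7 ≫ a) ≫ b := by rw [h9, Category.id_comp]
      rw [this, Category.assoc, wab, comp_zero]
    rw [IsZero.iff_id_eq_zero, ← cancel_epi b, h10, zero_comp, zero_comp]

/-! ### Harder-Narasimhan filtrations -/

variable (Z)

/-- Harder-Narasimhan filtrations (lowest slope first). -/
inductive HNA : List (WithTop ℚ) → A → Prop
  | zero (E : A) (hE : IsZero E) : HNA [] E
  | step (s : WithTop ℚ) (L : List (WithTop ℚ)) (S : ShortComplex A) (hS : S.ShortExact)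
      (hF : HNA L S.X₁) (hA : Z.SS S.X₃) (hA0 : ¬ IsZero S.X₃) (hs : Z.slope S.X₃ = s)
      (hL : ∀ r ∈ L, s < r) : HNA (s :: L) S.X₂

variable {Z}

theorem HNA.exists_sub {L : List (WithTop ℚ)} {E : A} (h : HNA Z L E) :
    ∀ s ∈ L, ∃ (N : A) (i : N ⟶ E), Mono i ∧ ¬ IsZero N ∧ s ≤ Z.slope N := by
  induction h with
  | zero E hE => intro s hs; simp at hs
  | step s L S hS hF hA hA0 hs hL ih =>
    have hf := hS.mono_f
    intro r hr
    rw [List.mem_cons] at hr
    rcases hr with rfl | hr
    · cases L with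
      | nil =>
        -- `S.X₁ = 0`
        have h1 : IsZero S.X₁ := by
          cases hF with
          | zero _ h => exact h
        have := hS.epi_g
        have : Mono S.g := by
          rw [hS.exact.mono_g_iff]
          exact h1.eq_of_src _ _
        have : IsIso S.g := isIso_of_mono_of_epi S.g
        refine ⟨S.X₂, 𝟙 _, inferInstance, fun h2 => hA0 (h2.of_iso (asIso S.g).symm), ?_⟩
        rw [Z.slope_iso (asIso S.g), hs]
      | cons r L' =>
        obtain ⟨N, i, hi, hN, hr'⟩ := ih r (by simp)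
        exact ⟨N, i ≫ S.f, mono_comp _ _, hN, (hL r (by simp)).le.trans hr'⟩
    · obtain ⟨N, i, hi, hN, hr'⟩ := ih r hr
      exact ⟨N, i ≫ S.f, mono_comp _ _, hN, hr'⟩

theorem HNA.append_top {L : List (WithTop ℚ)} {Q : A} (h : HNA Z L Q) :
    ∀ {M E : A} (i : M ⟶ E) (p : E ⟶ Q) (w : i ≫ p = 0),
      (ShortComplex.mk i p w).ShortExact → Z.SS M → ¬ IsZero M → (∀ s ∈ L, s < Z.slope M) →
        HNA Z (L ++ [Z.slope M]) E := by
  induction h with
  | zero Q hQ =>
    intro M E i p w hS hM hM0 _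
    have := hS.mono_f
    have : Epi i := by
      have h2 := hS.exact.epi_f_iff
      exact h2.mpr (hQ.eq_of_tgt _ _)
    have : IsIso i := isIso_of_mono_of_epi i
    refine HNA.step (Z.slope M) [] _
      (shortExact_zero_left (isZero_zero A) (asIso i).symm) (HNA.zero _ (isZero_zero A)) hM hM0 rfl
      (fun r hr => by simp at hr)
  | step s L S hS hF hA hA0 hs hL ih =>
    intro M E i p w hT hM hM0 hLM
    obtain ⟨F, a, b, c, wab, wc, hab, hc, -⟩ := exists_preimage i p w hT S.f S.g S.zero hS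
    have h1 := ih a b wab hab hM hM0 (fun r hr => hLM r (List.mem_cons_of_mem _ hr))
    refine HNA.step s (L ++ [Z.slope M]) (ShortComplex.mk c (p ≫ S.g) wc) hc h1 hA hA0 hs ?_
    intro r hr
    rw [List.mem_append] at hr
    rcases hr with hr | hr
    · exact hL r hr
    · rw [List.mem_singleton] at hr
      rw [hr]
      exact hLM s (by simp)

/-- (B5) In a noetherian abelian category with a central charge with values in `ℤ[i]` every object
has a Harder-Narasimhan filtration. -/
theorem exists_HNA (hN : ∀ E : A, IsNoetherianObject E) (E : A) : ∃ L, HNA Z L E := by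
  refine quot_induction (hN E) (fun Q => ∃ L, HNA Z L Q) fun Q g _ ih => ?_
  by_cases hQ : IsZero Q
  · exact ⟨[], HNA.zero Q hQ⟩
  · obtain ⟨M, i, hi, hM0, hM, hlt⟩ := exists_mds (Z := Z) (hN Q) hQ
    obtain ⟨L, hL⟩ := ih (cokernel i) (cokernel.π i) inferInstance (fun hiso => hM0 (by
      have h1 : i = 0 := by
        rw [← cancel_mono (cokernel.π i), cokernel.condition, zero_comp]
      rw [IsZero.iff_id_eq_zero, ← cancel_mono i, h1, comp_zero, comp_zero]))
    refine ⟨L ++ [Z.slope M], hL.append_top i (cokernel.π i) (cokernel.condition i)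
      (shortExact_cokernel i) hM hM0 fun s hs => ?_⟩
    obtain ⟨N, j, hj, hN0, hsN⟩ := hL.exists_sub s hs
    exact lt_of_le_of_lt hsN (hlt N j hj hN0)

end M21
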