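import Mathlib

/-!
# M21, existence part, B1: Harder-Narasimhan filtrations in a noetherian abelian category with a
discrete stability function

`Charge A`: two integer valued additive functions `D`, `m` on an abelian category `A` such that
`Z = - m + i D` is a stability function. Phases `ph E ∈ (0, 1]` of nonzero objects, semistable
objects `SS`, filtrations `HNA`.
-/

open CategoryTheory CategoryTheory.Limits

universe v u

namespace M21.E3

/-- Integer valued additive functions `D`, `m` on an abelian category with `D ≥ 0` and `m > 0` on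
nonzero objects with `D = 0`: `Z = - m + i D` is a stability function. -/
structure Charge (A : Type u) [Category.{v} A] [Abelian A] where
  /-- the imaginary part of the central charge -/
  D : A → ℤ
  /-- minus the real part of the central charge -/
  m : A → ℤ
  D_add : ∀ S : ShortComplex A, S.ShortExact → D S.X₂ = D S.X₁ + D S.X₃
  m_add : ∀ S : ShortComplex A, S.ShortExact → m S.X₂ = m S.X₁ + m S.X₃
  D_nonneg : ∀ E, 0 ≤ D E
  m_pos : ∀ E, D E = 0 → ¬ IsZero E → 0 < m E

variable {A : Type u} [Category.{v} A] [Abelian A]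

namespace Charge

variable (c : Charge A)

/-- the central charge -/
noncomputable def Z (E : A) : ℂ := - (c.m E : ℂ) + (c.D E : ℂ) * Complex.I

/-- the phase of an object, in `(0, 1]` for nonzero objects -/
noncomputable def ph (E : A) : ℝ := Complex.arg (c.Z E) / Real.pi

/-- semistable objects (nonzero, all nonzero subobjects have smaller or equal phase) -/
def SS (E : A) : Prop :=
  ¬ IsZero E ∧ ∀ (N : A) (i : N ⟶ E), Mono i → ¬ IsZero N → c.ph N ≤ c.ph E

/-- `HNA L E`: `E` has a filtration by subobjects with semistable quotients of strictly decreasing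
phases; `L` is the list of the phases, lowest phase (last quotient) first. -/
inductive HNA : List ℝ → A → Prop
  | zero (E : A) (hE : IsZero E) : HNA [] E
  | step (L : List ℝ) (S : ShortComplex A) (hS : S.ShortExact) (hF : HNA L S.X₁) (hB : c.SS S.X₃)
      (hφ : ∀ ψ ∈ L, c.ph S.X₃ < ψ) : HNA (c.ph S.X₃ :: L) S.X₂

theorem shortExact_HNab {E : A} (h : IsZero E) :
    (ShortComplex.mk (0 : E ⟶ E) (0 : E ⟶ E) comp_zero).ShortExact :=
  ShortComplex.Splitting.shortExact
    { r := 0, s := 0, f_r := h.eq_of_src _ _, s_g := h.eq_of_src _ _, id := h.eq_of_src _ _ }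

theorem zero_D_HNab {E : A} (h : IsZero E) : c.D E = 0 := by
  have := c.D_add _ (shortExact_HNab h)
  simp only at this
  omega

theorem zero_m_HNab {E : A} (h : IsZero E) : c.m E = 0 := by
  have := c.m_add _ (shortExact_HNab h)
  simp only at this
  omega

theorem D_iso {E F : A} (e : E ≅ F) : c.D E = c.D F := by
  obtain ⟨Y, hY⟩ := HasZeroObject.zero (C := A)
  have hs : (ShortComplex.mk e.hom (0 : F ⟶ Y) comp_zero).ShortExact := by
    refine ShortComplex.Splitting.shortExact
      { r := e.inv, s := 0, f_r := by simp, s_g := ?_, id := by simp }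
    exact hY.eq_of_tgt _ _
  have h0 := c.zero_D_HNab hY
  have := c.D_add _ hs
  simp only at this
  omega

theorem m_iso {E F : A} (e : E ≅ F) : c.m E = c.m F := by
  obtain ⟨Y, hY⟩ := HasZeroObject.zero (C := A)
  have hs : (ShortComplex.mk e.hom (0 : F ⟶ Y) comp_zero).ShortExact := by
    refine ShortComplex.Splitting.shortExact
      { r := e.inv, s := 0, f_r := by simp, s_g := ?_, id := by simp }
    exact hY.eq_of_tgt _ _
  have h0 := c.zero_m_HNab hY
  have := c.m_add _ hs
  simp only at this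
  omega

theorem ph_iso {E F : A} (e : E ≅ F) : c.ph E = c.ph F := by
  unfold ph Z
  rw [c.D_iso e, c.m_iso e]

theorem zero_of_isZero {E : A} (h : IsZero E) : c.D E = 0 ∧ c.m E = 0 := by
  exact ⟨c.zero_D_HNab h, c.zero_m_HNab h⟩

theorem ss_iso {E F : A} (e : E ≅ F) (h : c.SS E) : c.SS F := by
  refine ⟨fun hF => h.1 (hF.of_iso e), fun N i hi hN => ?_⟩
  rw [← c.ph_iso e]
  exact h.2 N (i ≫ e.inv) inferInstance hN

theorem Z_im_HNab (E : A) : (c.Z E).im = c.D E := by
  simp [Z]

theorem Z_re_HNab (E : A) : (c.Z E).re = - c.m E := by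
  simp [Z]

theorem Z_ne_HNab {E : A} (h : ¬ IsZero E) : c.Z E ≠ 0 := by
  intro h0
  have h1 := c.Z_im_HNab E
  have h2 := c.Z_re_HNab E
  rw [h0] at h1 h2
  simp only [Complex.zero_im, Complex.zero_re] at h1 h2
  have h3 : c.D E = 0 := by exact_mod_cast h1.symm
  have h4 := c.m_pos E h3 h
  have h5 : (0 : ℝ) < c.m E := by exact_mod_cast h4
  linarith

/-- `0 < ph E ≤ 1` for nonzero `E`: `Im Z = D ≥ 0`, and `Re Z = - m < 0` if `D = 0`. -/
theorem ph_mem {E : A} (h : ¬ IsZero E) : 0 < c.ph E ∧ c.ph E ≤ 1 := by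
  have him := c.Z_im_HNab E
  have hre := c.Z_re_HNab E
  have hpi := Real.pi_pos
  have hD : (0 : ℝ) ≤ (c.Z E).im := by
    rw [him]
    exact_mod_cast c.D_nonneg E
  have h0 : 0 ≤ Complex.arg (c.Z E) := Complex.arg_nonneg_iff.2 hD
  have h1 : Complex.arg (c.Z E) ≠ 0 := by
    intro h2
    rw [Complex.arg_eq_zero_iff] at h2
    rw [him, hre] at h2
    have h3 : c.D E = 0 := by exact_mod_cast h2.2
    have h4 := c.m_pos E h3 h
    have h5 : (0 : ℝ) < c.m E := by exact_mod_cast h4
    linarith [h2.1]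
  refine ⟨div_pos (lt_of_le_of_ne h0 (Ne.symm h1)) hpi, ?_⟩
  rw [ph, div_le_one hpi]
  exact Complex.arg_le_pi _

/-- `Z E = |Z E| exp (i π ph E)`. -/
theorem Z_phase {E : A} (h : ¬ IsZero E) :
    ∃ ρ : ℝ, 0 < ρ ∧ c.Z E = (ρ : ℂ) * Complex.exp (Real.pi * c.ph E * Complex.I) := by
  refine ⟨‖c.Z E‖, norm_pos_iff.2 (c.Z_ne_HNab h), ?_⟩
  have h1 : ((Real.pi : ℂ) * (c.ph E : ℂ)) = ((Complex.arg (c.Z E) : ℝ) : ℂ) := by
    rw [ph]
    push_cast
    field_simp
  rw [h1]
  exact (Complex.norm_mul_exp_arg_mul_I (c.Z E)).symm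

/-- Comparison of phases by the cross product: for nonzero `E`, `F`:
`ph E < ph F ↔ m E * D F < m F * D E`. (Both central charges lie in the closed upper half plane
without the ray of the non-negative reals; `arg` is increasing there: e.g.
`Complex.arg` of `Z F * conj (Z E)` has the sign of its imaginary part
`D F * (- m E) - (- m F) * D E`.) -/
theorem ph_lt_iff {E F : A} (hE : ¬ IsZero E) (hF : ¬ IsZero F) :
    c.ph E < c.ph F ↔ c.m E * c.D F < c.m F * c.D E := by
  have hpi := Real.pi_pos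
  obtain ⟨e1, e2⟩ := c.ph_mem hE
  obtain ⟨f1, f2⟩ := c.ph_mem hF
  have hE0 := norm_pos_iff.2 (c.Z_ne_HNab hE)
  have hF0 := norm_pos_iff.2 (c.Z_ne_HNab hF)
  have ha : Complex.arg (c.Z E) = c.ph E * Real.pi := by
    rw [ph]
    field_simp
  have hb : Complex.arg (c.Z F) = c.ph F * Real.pi := by
    rw [ph]
    field_simp
  have hs : ‖c.Z E‖ * ‖c.Z F‖ * Real.sin ((c.ph F - c.ph E) * Real.pi) =
      (c.m F : ℝ) * c.D E - c.m E * c.D F := by
    rw [sub_mul, ← ha, ← hb, Real.sin_sub]
    have g1 := Complex.norm_mul_cos_arg (c.Z E)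
    have g2 := Complex.norm_mul_sin_arg (c.Z E)
    have g3 := Complex.norm_mul_cos_arg (c.Z F)
    have g4 := Complex.norm_mul_sin_arg (c.Z F)
    rw [c.Z_re_HNab] at g1 g3
    rw [c.Z_im_HNab] at g2 g4
    calc ‖c.Z E‖ * ‖c.Z F‖ * (Real.sin (c.Z F).arg * Real.cos (c.Z E).arg -
          Real.cos (c.Z F).arg * Real.sin (c.Z E).arg)
        = (‖c.Z F‖ * Real.sin (c.Z F).arg) * (‖c.Z E‖ * Real.cos (c.Z E).arg) -
          (‖c.Z F‖ * Real.cos (c.Z F).arg) * (‖c.Z E‖ * Real.sin (c.Z E).arg) := by ring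
      _ = _ := by rw [g1, g2, g3, g4]; ring
  have hpos : 0 < ‖c.Z E‖ * ‖c.Z F‖ := mul_pos hE0 hF0
  have hcast : c.m E * c.D F < c.m F * c.D E ↔
      0 < (c.m F : ℝ) * c.D E - c.m E * c.D F := by
    rw [sub_pos]
    exact_mod_cast Iff.rfl
  rw [hcast, ← hs]
  constructor
  · intro h
    apply mul_pos hpos
    apply Real.sin_pos_of_pos_of_lt_pi
    · exact mul_pos (by linarith) hpi
    · nlinarith
  · intro h
    by_contra hcon
    push Not at hcon
    have h3 : Real.sin ((c.ph F - c.ph E) * Real.pi) ≤ 0 := by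
      apply Real.sin_nonpos_of_nonpos_of_neg_pi_le
      · nlinarith
      · nlinarith
    have h4 := (pos_iff_pos_of_mul_pos h).1 hpos
    linarith

theorem nz_HNab {S : ShortComplex A} (hS : S.ShortExact) (h₁ : ¬ IsZero S.X₁) :
    ¬ IsZero S.X₂ := by
  intro h
  have := hS.mono_f
  exact h₁ (IsZero.of_mono S.f h)

/-- Seesaw: `ph X₁ < ph X₂ ↔ ph X₂ < ph X₃`, and the same with `≤`; from `ph_lt_iff` and
additivity. -/
theorem seesaw_lt {S : ShortComplex A} (hS : S.ShortExact) (h₁ : ¬ IsZero S.X₁)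
    (h₃ : ¬ IsZero S.X₃) : c.ph S.X₁ < c.ph S.X₂ ↔ c.ph S.X₂ < c.ph S.X₃ := by
  have h₂ := nz_HNab hS h₁
  rw [c.ph_lt_iff h₁ h₂, c.ph_lt_iff h₂ h₃, c.D_add S hS, c.m_add S hS]
  constructor <;> intro h <;> nlinarith

theorem seesaw_le {S : ShortComplex A} (hS : S.ShortExact) (h₁ : ¬ IsZero S.X₁)
    (h₃ : ¬ IsZero S.X₃) : c.ph S.X₁ ≤ c.ph S.X₂ ↔ c.ph S.X₂ ≤ c.ph S.X₃ := by
  have h₂ := nz_HNab hS h₁
  rw [← not_lt, ← not_lt, not_iff_not, c.ph_lt_iff h₂ h₁, c.ph_lt_iff h₃ h₂, c.D_add S hS,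
    c.m_add S hS]
  constructor <;> intro h <;> nlinarith

theorem seesaw_gt {S : ShortComplex A} (hS : S.ShortExact) (h₁ : ¬ IsZero S.X₁)
    (h₃ : ¬ IsZero S.X₃) : c.ph S.X₂ < c.ph S.X₁ ↔ c.ph S.X₃ < c.ph S.X₂ := by
  have h₂ := nz_HNab hS h₁
  rw [c.ph_lt_iff h₂ h₁, c.ph_lt_iff h₃ h₂, c.D_add S hS, c.m_add S hS]
  constructor <;> intro h <;> nlinarith

/-- a nonzero quotient of a semistable object has phase `≥` (seesaw). -/
theorem ss_quot {E Q : A} (h : c.SS E) (p : E ⟶ Q) (hp : Epi p) (hQ : ¬ IsZero Q) :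
    c.ph E ≤ c.ph Q := by
  have hS : (ShortComplex.mk (kernel.ι p) p (kernel.condition p)).ShortExact :=
    { exact := ShortComplex.exact_of_f_is_kernel _ (kernelIsKernel p)
      mono_f := inferInstance
      epi_g := hp }
  by_cases hK : IsZero (kernel p)
  · have : Mono p := Preadditive.mono_of_isZero_kernel p hK
    have : IsIso p := isIso_of_mono_of_epi p
    exact (c.ph_iso (asIso p)).le
  · exact (c.seesaw_le hS hK hQ).1 (h.2 _ (kernel.ι p) inferInstance hK)

/-- no nonzero maps between semistable objects from larger to smaller phase: the image `I` of a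
nonzero `f` has `ph E ≤ ph I ≤ ph F`. -/
theorem ss_hom_zero {E F : A} (hE : c.SS E) (hF : c.SS F) (h : c.ph F < c.ph E) (f : E ⟶ F) :
    f = 0 := by
  by_contra hf
  have hI : ¬ IsZero (Abelian.image f) := by
    intro hI
    apply hf
    rw [← Abelian.image.fac f, hI.eq_of_src (Abelian.image.ι f) 0, comp_zero]
  have h1 := c.ss_quot hE (Abelian.factorThruImage f) inferInstance hI
  have h2 := hF.2 _ (Abelian.image.ι f) inferInstance hI
  linarith

/-- an extension of semistable objects of the same phase is semistable: for `N → X₂` mono let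
`N₁ = N ∩ X₁` (kernel of `N → X₃`) and `N₃` its image in `X₃`; both have phase `≤ ph` or are zero,
hence `N` too (cross products add up). -/
theorem ss_ext {S : ShortComplex A} (hS : S.ShortExact) (h₁ : c.SS S.X₁) (h₃ : c.SS S.X₃)
    (h : c.ph S.X₁ = c.ph S.X₃) : c.SS S.X₂ ∧ c.ph S.X₂ = c.ph S.X₁ := by
  have := hS.mono_f
  have := hS.epi_g
  have hz := nz_HNab hS h₁.1
  have hph : c.ph S.X₂ = c.ph S.X₁ := by
    rcases lt_trichotomy (c.ph S.X₁) (c.ph S.X₂) with h2 | h2 | h2
    · have h3 := (c.seesaw_lt hS h₁.1 h₃.1).1 h2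
      linarith
    · exact h2.symm
    · have h3 := (c.seesaw_gt hS h₁.1 h₃.1).1 h2
      linarith
  refine ⟨⟨hz, fun N i hi hN => ?_⟩, hph⟩
  rw [hph]
  -- the map from `N` to `X₃`
  let q : N ⟶ S.X₃ := i ≫ S.g
  have hk : (kernel.ι q ≫ i) ≫ S.g = 0 := by
    rw [Category.assoc]
    exact kernel.condition q
  let j : kernel q ⟶ S.X₁ := hS.fIsKernel.lift (KernelFork.ofι _ hk)
  have hj : j ≫ S.f = kernel.ι q ≫ i := hS.fIsKernel.fac (KernelFork.ofι _ hk)
    WalkingParallelPair.zero
  have : Mono (j ≫ S.f) := by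
    rw [hj]
    infer_instance
  have : Mono j := mono_of_mono j S.f
  have hN1 : ¬ IsZero (kernel q) → c.ph (kernel q) ≤ c.ph S.X₁ := fun hz =>
    h₁.2 _ j inferInstance hz
  have hN3 : ¬ IsZero (Abelian.image q) → c.ph (Abelian.image q) ≤ c.ph S.X₁ := fun hz => by
    rw [h]
    exact h₃.2 _ (Abelian.image.ι q) inferInstance hz
  by_cases hK : IsZero (kernel q)
  · have : Mono q := Preadditive.mono_of_isZero_kernel q hK
    rw [h]
    exact h₃.2 _ q inferInstance hN
  by_cases hI : IsZero (Abelian.image q)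
  · have hq : q = 0 := by
      rw [← Abelian.image.fac q, hI.eq_of_src (Abelian.image.ι q) 0, comp_zero]
    have hk' : i ≫ S.g = 0 := hq
    let j' : N ⟶ S.X₁ := hS.fIsKernel.lift (KernelFork.ofι _ hk')
    have hj' : j' ≫ S.f = i := hS.fIsKernel.fac (KernelFork.ofι _ hk')
      WalkingParallelPair.zero
    have : Mono (j' ≫ S.f) := by
      rw [hj']
      exact hi
    have : Mono j' := mono_of_mono j' S.f
    exact h₁.2 _ j' inferInstance hN
  have hE : (ShortComplex.mk (kernel.ι q) (Abelian.factorThruImage q) (by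
      rw [← cancel_mono (Abelian.image.ι q), Category.assoc, Abelian.image.fac,
        kernel.condition, zero_comp])).ShortExact := by
    have hex : (ShortComplex.mk (kernel.ι q) q (kernel.condition q)).Exact :=
      ShortComplex.exact_of_f_is_kernel _ (kernelIsKernel q)
    let τ : ShortComplex.mk (kernel.ι q) (Abelian.factorThruImage q) (by
      rw [← cancel_mono (Abelian.image.ι q), Category.assoc, Abelian.image.fac,
        kernel.condition, zero_comp]) ⟶ ShortComplex.mk (kernel.ι q) q (kernel.condition q) :=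
      { τ₁ := 𝟙 _, τ₂ := 𝟙 _, τ₃ := Abelian.image.ι q, comm₁₂ := by simp, comm₂₃ := by simp }
    have e1 : Epi τ.τ₁ := inferInstanceAs (Epi (𝟙 (kernel q)))
    have e2 : IsIso τ.τ₂ := inferInstanceAs (IsIso (𝟙 N))
    have e3 : Mono τ.τ₃ := inferInstanceAs (Mono (Abelian.image.ι q))
    exact { exact := (ShortComplex.exact_iff_of_epi_of_isIso_of_mono τ).2 hex
            mono_f := inferInstanceAs (Mono (kernel.ι q))
            epi_g := inferInstanceAs (Epi (Abelian.factorThruImage q)) }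
  rcases le_or_gt (c.ph (kernel q)) (c.ph N) with h2 | h2
  · exact ((c.seesaw_le hE hK hI).1 h2).trans (hN3 hI)
  · exact h2.le.trans (hN1 hK)

/-- the direct sum of two semistable objects of the same phase -/
theorem ss_biprod {E F : A} (hE : c.SS E) (hF : c.SS F) (h : c.ph E = c.ph F) :
    c.SS (E ⊞ F) ∧ c.ph (E ⊞ F) = c.ph E := by
  have hS := (ShortComplex.Splitting.ofHasBinaryBiproduct E F).shortExact
  exact c.ss_ext hS hE hF h

end Charge

end M21.E3
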