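import Pool.Agent.H.MP_21b43d_ag.E3.HNab

/-!
# M21, existence part, B1b: existence of Harder-Narasimhan filtrations
(Bridgeland, Stability conditions on triangulated categories, Proposition 2.4)
-/

open CategoryTheory CategoryTheory.Limits

universe v u

namespace M21.E3.Charge

variable {A : Type u} [Category.{v} A] [Abelian A] (c : Charge A)

/-- the short complex of a monomorphism and its cokernel -/
noncomputable def ck_HNab2 {N E : A} (i : N ⟶ E) : ShortComplex A :=
  ShortComplex.mk i (cokernel.π i) (cokernel.condition i)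

theorem ck_exact_HNab2 {N E : A} (i : N ⟶ E) [Mono i] : (ck_HNab2 i).ShortExact := by
  have h1 : Mono (ck_HNab2 i).f := by change Mono i; infer_instance
  have h2 : Epi (ck_HNab2 i).g := by change Epi (cokernel.π i); infer_instance
  refine ⟨?_⟩
  exact ShortComplex.exact_of_g_is_cokernel _ (cokernelIsCokernel i)

/-- Chain condition (a): there is no sequence of proper monos `… → E (n+1) → E n → …` with strictly
increasing phases. Proof: `D (E n)` is a nonincreasing sequence of non-negative integers, so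
`D (E (n+1)) = D (E n)` for some `n`. The quotient `Q` of `E n` by `E (n+1)` has `D Q = 0`; if `Q` is
not zero then `m Q > 0`, and `m (E (n+1)) * D (E n) < m (E n) * D (E (n+1))` or `D (E n) = 0`
(then `ph (E n) = 1`): in both cases `ph (E (n+1)) ≤ ph (E n)` by `ph_lt_iff`. If `Q` is zero the
phases are equal. -/
theorem chain_a (E : ℕ → A) (i : ∀ n, E (n + 1) ⟶ E n) (hi : ∀ n, Mono (i n))
    (h0 : ∀ n, ¬ IsZero (E n)) : ∃ n, c.ph (E (n + 1)) ≤ c.ph (E n) := by
  have hD : ∀ n, c.D (E n) = c.D (E (n + 1)) + c.D (cokernel (i n)) := by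
    intro n
    have := hi n
    exact c.D_add (ck_HNab2 (i n)) (ck_exact_HNab2 (i n))
  have hm : ∀ n, c.m (E n) = c.m (E (n + 1)) + c.m (cokernel (i n)) := by
    intro n
    have := hi n
    exact c.m_add (ck_HNab2 (i n)) (ck_exact_HNab2 (i n))
  obtain ⟨n, hn⟩ : ∃ n, c.D (E n) ≤ c.D (E (n + 1)) := by
    by_contra hcon
    push Not at hcon
    have h1 : ∀ n : ℕ, c.D (E n) ≤ c.D (E 0) - n := by
      intro n
      induction n with
      | zero => simp
      | succ n ih =>
        have := hcon n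
        push_cast
        omega
    have h2 := h1 (c.D (E 0)).toNat.succ
    have h3 := c.D_nonneg (E (c.D (E 0)).toNat.succ)
    have h4 := c.D_nonneg (E 0)
    push_cast at h2
    omega
  have hQ : c.D (cokernel (i n)) = 0 := by
    have h1 := hD n
    have h2 := c.D_nonneg (cokernel (i n))
    omega
  have hmQ : 0 ≤ c.m (cokernel (i n)) := by
    by_cases hz : IsZero (cokernel (i n))
    · exact le_of_eq (c.zero_of_isZero hz).2.symm
    · exact le_of_lt (c.m_pos _ hQ hz)
  refine ⟨n, ?_⟩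
  by_contra hcon
  push Not at hcon
  rw [c.ph_lt_iff (h0 n) (h0 (n + 1))] at hcon
  have h1 := hD n
  rw [hQ, add_zero] at h1
  have h2 := hm n
  have h3 := c.D_nonneg (E (n + 1))
  rw [h1] at hcon
  have h4 : c.m (E (n + 1)) * c.D (E (n + 1)) ≤ c.m (E n) * c.D (E (n + 1)) :=
    mul_le_mul_of_nonneg_right (by omega) h3
  omega

theorem isIso_of_ker_eq_HNab2 {E Q Q' : A} (g : E ⟶ Q) [Epi g] (q : Q ⟶ Q') [Epi q]
    (h : kernelSubobject g = kernelSubobject (g ≫ q)) : IsIso q := by
  have hm : Mono q := by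
    rw [Preadditive.mono_iff_cancel_zero]
    intro T t ht
    have h1 : pullback.fst t g ≫ t = pullback.snd t g ≫ g := pullback.condition
    have h2 : pullback.snd t g ≫ g ≫ q = 0 := by
      rw [← Category.assoc, ← h1, Category.assoc, ht, comp_zero]
    have h3 : (kernelSubobject (g ≫ q)).Factors (pullback.snd t g) :=
      (kernelSubobject_factors_iff _ _).mpr h2
    rw [← h] at h3
    have h4 : pullback.snd t g ≫ g = 0 := (kernelSubobject_factors_iff _ _).mp h3
    rw [h4] at h1
    exact (cancel_epi (pullback.fst t g)).mp (by rw [h1, comp_zero])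
  exact isIso_of_mono_of_epi q

/-- the composites of a sequence of morphisms -/
noncomputable def comp_HNab2 (E : ℕ → A) (p : ∀ n, E n ⟶ E (n + 1)) : ∀ n, E 0 ⟶ E n
  | 0 => 𝟙 _
  | n + 1 => comp_HNab2 E p n ≫ p n

theorem comp_epi_HNab2 (E : ℕ → A) (p : ∀ n, E n ⟶ E (n + 1)) (hp : ∀ n, Epi (p n)) :
    ∀ n, Epi (comp_HNab2 E p n)
  | 0 => by unfold comp_HNab2; infer_instance
  | n + 1 => by
    have := comp_epi_HNab2 E p hp n
    have := hp n
    unfold comp_HNab2
    exact epi_comp _ _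

/-- Chain condition (b): in a noetherian category a sequence of epis `E 0 → E 1 → …` is eventually
iso (the kernels of `E 0 → E n` form an increasing sequence of subobjects of `E 0`). -/
theorem chain_b (hn : ∀ E : A, IsNoetherianObject E) (E : ℕ → A) (p : ∀ n, E n ⟶ E (n + 1))
    (hp : ∀ n, Epi (p n)) : ∃ n, IsIso (p n) := by
  have := hn (E 0)
  have hmono : Monotone (fun n => kernelSubobject (comp_HNab2 E p n)) := by
    refine monotone_nat_of_le_succ fun n => ?_
    exact kernelSubobject_comp_le (comp_HNab2 E p n) (p n)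
  obtain ⟨n, hn'⟩ := monotone_chain_condition_of_isNoetherianObject
    (⟨fun n => kernelSubobject (comp_HNab2 E p n), hmono⟩ : ℕ →o Subobject (E 0))
  refine ⟨n, ?_⟩
  have h1 := hn' (n + 1) (Nat.le_succ n)
  have h2 := comp_epi_HNab2 E p hp n
  have h3 := hp n
  exact isIso_of_ker_eq_HNab2 (comp_HNab2 E p n) (p n) h1

/-- Every nonzero object `E` has a semistable subobject of phase `≥ ph E`: otherwise dependent choice
gives a chain contradicting `chain_a` (if `E` is not semistable there is a nonzero mono `N → E` with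
`ph E < ph N`). If moreover `E` is not semistable, the phase can be taken `> ph E`. -/
theorem exists_ss_sub (E : A) (h : ¬ IsZero E) :
    ∃ (N : A) (i : N ⟶ E), Mono i ∧ c.SS N ∧ c.ph E ≤ c.ph N ∧ (c.SS E ∨ c.ph E < c.ph N) := by
  by_cases hE : c.SS E
  · exact ⟨E, 𝟙 E, inferInstance, hE, le_refl _, Or.inl hE⟩
  by_contra hcon
  push Not at hcon
  -- destabilising subobjects
  have hdes : ∀ X : A, ¬ IsZero X → ¬ c.SS X →
      ∃ (N : A) (j : N ⟶ X), Mono j ∧ ¬ IsZero N ∧ c.ph X < c.ph N := by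
    intro X hX hXS
    by_contra hc
    push Not at hc
    exact hXS ⟨hX, fun N j hj hN => hc N j hj hN⟩
  let T := {X : A // ∃ i : X ⟶ E, Mono i ∧ ¬ IsZero X ∧ c.ph E < c.ph X}
  have hstep : ∀ X : T, ∃ (Y : T) (j : Y.1 ⟶ X.1), Mono j ∧ c.ph X.1 < c.ph Y.1 := by
    rintro ⟨X, i, hi, hX, hph⟩
    have hXS : ¬ c.SS X := fun hS => (hcon X i hi hS hph.le).2.not_gt hph
    obtain ⟨N, j, hj, hN, hlt⟩ := hdes X hX hXS
    exact ⟨⟨N, j ≫ i, mono_comp _ _, hN, hph.trans hlt⟩, j, hj, hlt⟩
  obtain ⟨N, j, hj, hN, hlt⟩ := hdes E h hE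
  choose nx jx hjx hlx using hstep
  let X0 : T := ⟨N, j, hj, hN, hlt⟩
  let F : ℕ → T := fun n => nx^[n] X0
  have hF : ∀ n, F (n + 1) = nx (F n) := fun n => Function.iterate_succ_apply' nx n X0
  obtain ⟨n, hn⟩ := c.chain_a (fun n => (F n).1)
    (fun n => eqToHom (by rw [hF n]) ≫ jx (F n))
    (fun n => by
      have := hjx (F n)
      exact mono_comp _ _)
    (fun n => (F n).2.choose_spec.2.1)
  have h1 := hlx (F n)
  rw [hF n] at hn
  exact absurd h1 (not_lt.mpr hn)

/-- A maximally destabilising quotient: `p : E → B` epi, `B` semistable, `ph B ≤ ph E`, and every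
epi `q : E → B'` to a semistable `B'` has `ph B ≤ ph B'`, and if `ph B = ph B'` then `q` factors
through `p`. -/
structure IsMDQ {E B : A} (p : E ⟶ B) : Prop where
  epi : Epi p
  ss : c.SS B
  le : c.ph B ≤ c.ph E
  min : ∀ (B' : A) (q : E ⟶ B'), Epi q → c.SS B' → c.ph B ≤ c.ph B'
  fac : ∀ (B' : A) (q : E ⟶ B'), Epi q → c.SS B' → c.ph B' = c.ph B → ∃ g : B ⟶ B', p ≫ g = q

theorem mdq_id_HNab2 {E : A} (h : c.SS E) : c.IsMDQ (𝟙 E) where
  epi := inferInstance
  ss := h
  le := le_refl _
  min := fun _ q hq hB' => c.ss_quot h q hq hB'.1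
  fac := fun _ q _ _ _ => ⟨q, Category.id_comp q⟩

theorem mdq_comp_HNab2 {N X B : A} (i : N ⟶ X) [Mono i] (hN : c.SS N) (hX : ¬ IsZero X)
    (hlt : c.ph X < c.ph N) (p : cokernel i ⟶ B) (hp : c.IsMDQ p) :
    c.IsMDQ (cokernel.π i ≫ p) := by
  have hep := hp.epi
  have hck : ¬ IsZero (cokernel i) := by
    intro hz
    have h0 : c.D (cokernel i) = 0 ∧ c.m (cokernel i) = 0 := c.zero_of_isZero hz
    have h1 := c.D_add (ck_HNab2 i) (ck_exact_HNab2 i)
    have h2 := c.m_add (ck_HNab2 i) (ck_exact_HNab2 i)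
    change c.D X = c.D N + c.D (cokernel i) at h1
    change c.m X = c.m N + c.m (cokernel i) at h2
    rw [h0.1, add_zero] at h1
    rw [h0.2, add_zero] at h2
    rw [c.ph_lt_iff hX hN.1, h1, h2] at hlt
    exact lt_irrefl _ hlt
  have hse : c.ph (cokernel i) < c.ph X :=
    (c.seesaw_gt (ck_exact_HNab2 i) hN.1 hck).mp hlt
  have hfac : ∀ (B' : A) (q : X ⟶ B'), Epi q → c.SS B' → c.ph B' ≤ c.ph B →
      ∃ q' : cokernel i ⟶ B', Epi q' ∧ cokernel.π i ≫ q' = q := by
    intro B' q hq hB' hle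
    have hz : i ≫ q = 0 := by
      refine c.ss_hom_zero hN hB' ?_ _
      exact lt_of_le_of_lt (hle.trans hp.le) (hse.trans hlt)
    refine ⟨cokernel.desc i q hz, ?_, cokernel.π_desc _ _ _⟩
    have : Epi (cokernel.π i ≫ cokernel.desc i q hz) := by rw [cokernel.π_desc]; exact hq
    exact epi_of_epi (cokernel.π i) _
  refine ⟨epi_comp _ _, hp.ss, hp.le.trans hse.le, ?_, ?_⟩
  · intro B' q hq hB'
    by_contra hc
    push Not at hc
    obtain ⟨q', hq', _⟩ := hfac B' q hq hB' hc.le
    exact absurd hc (not_lt.mpr (hp.min B' q' hq' hB'))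
  · intro B' q hq hB' he
    obtain ⟨q', hq', hqq⟩ := hfac B' q hq hB' he.le
    obtain ⟨g, hg⟩ := hp.fac B' q' hq' hB' he
    exact ⟨g, by rw [Category.assoc, hg, hqq]⟩

/-- Every nonzero object has a maximally destabilising quotient. Proof (Bridgeland 2.4): if `E` is
semistable take the identity. Otherwise there is a short exact sequence `0 → N → E → E' → 0` with `N`
semistable and `ph N > ph E`; by `seesaw` `ph E' < ph E`. If `E' → B` is an mdq of `E'` then
`E → E' → B` is one of `E`: let `q : E → B'` be an epi, `B'` semistable, `ph B' ≤ ph B`. As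
`ph B ≤ ph E' < ph E < ph N` there is no nonzero map `N → B'`, so `q` factors through `E'`. So if `E`
has no mdq we get an infinite sequence of epis `E → E' → E'' → …`, none an iso: contradiction to
`chain_b`. -/
theorem exists_mdq (hn : ∀ E : A, IsNoetherianObject E) (E : A) (h : ¬ IsZero E) :
    ∃ (B : A) (p : E ⟶ B), c.IsMDQ p := by
  by_contra hcon
  let T := {X : A // ¬ IsZero X ∧ ¬ ∃ (B : A) (p : X ⟶ B), c.IsMDQ p}
  have hstep : ∀ X : T, ∃ (Y : T) (j : X.1 ⟶ Y.1), Epi j ∧ ¬ IsIso j := by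
    rintro ⟨X, hX, hno⟩
    have hXS : ¬ c.SS X := fun hS => hno ⟨X, 𝟙 X, c.mdq_id_HNab2 hS⟩
    obtain ⟨N, i, hi, hN, _, hor⟩ := c.exists_ss_sub X hX
    have hlt : c.ph X < c.ph N := hor.resolve_left hXS
    have hck : ¬ IsZero (cokernel i) := by
      intro hz
      have h0 : c.D (cokernel i) = 0 ∧ c.m (cokernel i) = 0 := c.zero_of_isZero hz
      have h1 := c.D_add (ck_HNab2 i) (ck_exact_HNab2 i)
      have h2 := c.m_add (ck_HNab2 i) (ck_exact_HNab2 i)
      change c.D X = c.D N + c.D (cokernel i) at h1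
      change c.m X = c.m N + c.m (cokernel i) at h2
      rw [h0.1, add_zero] at h1
      rw [h0.2, add_zero] at h2
      rw [c.ph_lt_iff hX hN.1, h1, h2] at hlt
      exact lt_irrefl _ hlt
    refine ⟨⟨cokernel i, hck, ?_⟩, cokernel.π i, inferInstance, ?_⟩
    · rintro ⟨B, p, hp⟩
      exact hno ⟨B, cokernel.π i ≫ p, c.mdq_comp_HNab2 i hN hX hlt p hp⟩
    · intro hiso
      have h0 : i = 0 := by
        rw [← cancel_mono (cokernel.π i), cokernel.condition, zero_comp]
      apply hN.1
      rw [IsZero.iff_id_eq_zero, ← cancel_mono i, zero_comp, Category.id_comp, h0]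
  choose nx jx hjx hlx using hstep
  let X0 : T := ⟨E, h, hcon⟩
  let F : ℕ → T := fun n => nx^[n] X0
  have hF : ∀ n, F (n + 1) = nx (F n) := fun n => Function.iterate_succ_apply' nx n X0
  obtain ⟨n, hn'⟩ := chain_b hn (fun n => (F n).1)
    (fun n => jx (F n) ≫ eqToHom (by rw [hF n]))
    (fun n => by
      have := hjx (F n)
      exact epi_comp _ _)
  refine hlx (F n) ?_
  have h1 : jx (F n) = (jx (F n) ≫ eqToHom (by rw [hF n])) ≫
      eqToHom (show (F (n + 1)).1 = (nx (F n)).1 by rw [hF n]) := by simp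
  rw [h1]
  have : IsIso (jx (F n) ≫ eqToHom (show (nx (F n)).1 = (F (n + 1)).1 by rw [hF n])) := hn'
  infer_instance

end M21.E3.Charge
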