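import Pool.Agent.H.MP_21b43d_ag.E3.HNab2

/-!
# M21, existence part, B1c: existence of Harder-Narasimhan filtrations, second half
-/

open CategoryTheory CategoryTheory.Limits

universe v u

namespace M21.E3.Charge

variable {A : Type u} [Category.{v} A] [Abelian A] (c : Charge A)

section Push

/-- the short complex `B' → Q → X₃` obtained by pushing out along `p'` -/
noncomputable def push_HNab3 (S : ShortComplex A) {B' : A} (p' : S.X₁ ⟶ B') :
    ShortComplex A :=
  ShortComplex.mk (pushout.inl p' S.f)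
    (pushout.desc (0 : B' ⟶ S.X₃) S.g (by rw [comp_zero, S.zero])) (pushout.inl_desc _ _ _)

theorem push_exact_HNab3 {S : ShortComplex A} (hS : S.ShortExact) {B' : A} (p' : S.X₁ ⟶ B') :
    (push_HNab3 S p').ShortExact := by
  have := hS.mono_f
  have hgepi := hS.epi_g
  have hmono : Mono (push_HNab3 S p').f := by
    change Mono (pushout.inl p' S.f)
    infer_instance
  have hepi : Epi (push_HNab3 S p').g := by
    have h : pushout.inr p' S.f ≫ (push_HNab3 S p').g = S.g := pushout.inr_desc _ _ _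
    have : Epi (pushout.inr p' S.f ≫ (push_HNab3 S p').g) := by
      rw [h]; exact hS.epi_g
    exact epi_of_epi (pushout.inr p' S.f) _
  refine ⟨?_⟩
  refine ShortComplex.exact_of_g_is_cokernel _ ?_
  refine CokernelCofork.IsColimit.ofπ' _ _ ?_
  intro T h hh
  have h1 : S.f ≫ (pushout.inr p' S.f ≫ h) = 0 := by
    rw [← Category.assoc, ← pushout.condition, Category.assoc]
    have : pushout.inl p' S.f ≫ h = 0 := hh
    rw [this, comp_zero]
  refine ⟨hS.exact.desc (pushout.inr p' S.f ≫ h) h1, ?_⟩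
  apply pushout.hom_ext
  · have : pushout.inl p' S.f ≫ h = 0 := hh
    rw [this]
    change pushout.inl p' S.f ≫ pushout.desc (0 : B' ⟶ S.X₃) S.g _ ≫ _ = 0
    rw [← Category.assoc, pushout.inl_desc, zero_comp]
  · change pushout.inr p' S.f ≫ pushout.desc (0 : B' ⟶ S.X₃) S.g _ ≫ _ = _
    rw [← Category.assoc, pushout.inr_desc]
    exact hS.exact.g_desc _ _

end Push

/-- Let `p : E → B` be an mdq with kernel `E'` (`S = (E' → E → B)`), `E'` nonzero, `p' : E' → B'` an
mdq. Then `ph B < ph B'` and `ph E < ph E'`. Proof: let `K` be the kernel of `p'` and `Q = E/K`, an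
extension `0 → B' → Q → B → 0`. If `ph B' ≤ ph B` then, by the seesaw, `ph B' ≤ ph Q ≤ ph B`; take
an mdq `Q → B''` (of `Q`); `ph B'' ≤ ph Q ≤ ph B` and `E → Q → B''` is an epi to a semistable object, so
`ph B'' = ph B` and `E → B''` factors through `B`; hence `ph Q = ph B = ph B'`, so `Q` is semistable
(`ss_ext`) and `E → Q` factors through `E → B`: `Q → B` is an iso, `B' = 0`, contradiction. The second
statement: `ph B ≤ ph E`; the sequence `E' → E → B` and the seesaw give `ph E ≤ ph E'`, and equality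
would give `ph B = ph E = ph E'`, but `ph B' ≤ ph E'`… `ph B < ph B' ≤ ph E'` excludes it. -/
theorem mdq_lt (hn : ∀ E : A, IsNoetherianObject E) {S : ShortComplex A} (hS : S.ShortExact)
    (hp : c.IsMDQ S.g) (h₁ : ¬ IsZero S.X₁) {B' : A} (p' : S.X₁ ⟶ B') (hp' : c.IsMDQ p') :
    c.ph S.X₃ < c.ph B' ∧ c.ph S.X₂ < c.ph S.X₁ := by
  have key : c.ph S.X₃ < c.ph B' := by
    by_contra hcon
    push Not at hcon
    have := hp'.epi
    have := hp.epi
    have hT := push_exact_HNab3 hS p'
    have := hT.mono_f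
    have := hT.epi_g
    have hB : ¬ IsZero S.X₃ := hp.ss.1
    have hB' : ¬ IsZero B' := hp'.ss.1
    have hlt := c.seesaw_lt hT hB' hB
    have hgt := c.seesaw_gt hT hB' hB
    have hle := c.seesaw_le hT hB' hB
    change (c.ph B' < c.ph (push_HNab3 S p').X₂ ↔ c.ph (push_HNab3 S p').X₂ < c.ph S.X₃) at hlt
    change (c.ph (push_HNab3 S p').X₂ < c.ph B' ↔ c.ph S.X₃ < c.ph (push_HNab3 S p').X₂) at hgt
    change (c.ph B' ≤ c.ph (push_HNab3 S p').X₂ ↔ c.ph (push_HNab3 S p').X₂ ≤ c.ph S.X₃) at hle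
    have h1 : c.ph B' ≤ c.ph (push_HNab3 S p').X₂ := by
      by_contra h
      push Not at h
      have := hgt.1 h
      linarith
    have h2 : c.ph (push_HNab3 S p').X₂ ≤ c.ph S.X₃ := hle.1 h1
    have hQ : ¬ IsZero (push_HNab3 S p').X₂ := by
      intro h
      apply hB
      have := hT.epi_g
      have h' : IsZero (push_HNab3 S p').X₃ := IsZero.of_epi (push_HNab3 S p').g h
      exact h'
    obtain ⟨B'', r, hr⟩ := c.exists_mdq hn _ hQ
    have := hr.epi
    let q : S.X₂ ⟶ (push_HNab3 S p').X₂ := pushout.inr p' S.f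
    have hq : Epi q := by
      change Epi (pushout.inr p' S.f)
      infer_instance
    have h3 : c.ph S.X₃ ≤ c.ph B'' := hp.min B'' (q ≫ r) (epi_comp q r) hr.ss
    have h4 : c.ph B'' ≤ c.ph (push_HNab3 S p').X₂ := hr.le
    have h5 : c.ph (push_HNab3 S p').X₂ = c.ph S.X₃ := le_antisymm h2 (h3.trans h4)
    have h6 : c.ph B' = c.ph (push_HNab3 S p').X₂ := by
      rcases lt_trichotomy (c.ph B') (c.ph (push_HNab3 S p').X₂) with h | h | h
      · have := hlt.1 h
        exact absurd h5 (ne_of_lt this)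
      · exact h
      · exact absurd h (not_lt.2 h1)
    have hQss := c.ss_ext hT hp'.ss hp.ss (h6.trans h5)
    obtain ⟨g, hg⟩ := hp.fac _ q hq hQss.1 h5
    have h7 : p' ≫ pushout.inl p' S.f = 0 := by
      rw [pushout.condition]
      change S.f ≫ q = 0
      rw [← hg, ← Category.assoc, S.zero, zero_comp]
    have h8 : pushout.inl p' S.f = 0 := by
      rw [← cancel_epi p', h7, comp_zero]
    have : Mono (pushout.inl p' S.f) := hT.mono_f
    exact hB' (IsZero.of_mono_eq_zero _ h8)
  refine ⟨key, ?_⟩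
  by_contra hcon
  push Not at hcon
  have h1 := (c.seesaw_le hS h₁ hp.ss.1).1 hcon
  have h2 := hp.le
  have h3 := hp'.le
  linarith

/-- Existence of Harder-Narasimhan filtrations. Proof: build `E ⊃ E' ⊃ E'' ⊃ …`, each the kernel of
an mdq of the previous one, with strictly increasing phases; by `chain_a` some kernel is zero. Then go
back: if `E'` has an HN filtration whose lowest phase is the phase of its mdq then so has `E`. It is
convenient to prove: for every `E` not zero and every mdq `p : E → B` there is a list `L` with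
`HNA (ph B :: L) E` and all members of `L` larger than `ph B`. -/
theorem exists_hna (hn : ∀ E : A, IsNoetherianObject E) (E : A) : ∃ L : List ℝ, c.HNA L E := by
  classical
  by_cases hE : IsZero E
  · exact ⟨[], HNA.zero E hE⟩
  -- good pairs
  let P : ∀ (E B : A), (E ⟶ B) → Prop := fun E B _ =>
    ∃ L : List ℝ, c.HNA (c.ph B :: L) E ∧ ∀ ψ ∈ L, c.ph B < ψ
  let X := {t : Σ (E : A) (B : A), (E ⟶ B) // c.IsMDQ t.2.2 ∧ ¬ P t.1 t.2.1 t.2.2}
  have step : ∀ x : X, ∃ y : X, ∃ i : y.1.1 ⟶ x.1.1, Mono i ∧ c.ph x.1.1 < c.ph y.1.1 := by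
    rintro ⟨⟨E, B, p⟩, hp, hP⟩
    dsimp only at hp hP
    have := hp.epi
    let S : ShortComplex A := ShortComplex.mk (kernel.ι p) p (kernel.condition p)
    have hS : S.ShortExact := by
      refine ShortComplex.ShortExact.mk' ?_ ?_ ?_
      · exact ShortComplex.exact_of_f_is_kernel _ (kernelIsKernel p)
      · change Mono (kernel.ι p); infer_instance
      · change Epi p; infer_instance
    by_cases hz : IsZero S.X₁
    · exfalso
      apply hP
      refine ⟨[], ?_, by simp⟩
      exact HNA.step [] S hS (HNA.zero _ hz) hp.ss (by simp)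
    obtain ⟨B', p', hp'⟩ := c.exists_mdq hn S.X₁ hz
    have hlt := c.mdq_lt hn hS hp hz p' hp'
    have hP' : ¬ P S.X₁ B' p' := by
      rintro ⟨L, hL, hL'⟩
      apply hP
      refine ⟨c.ph B' :: L, ?_, ?_⟩
      · refine HNA.step _ S hS hL hp.ss ?_
        intro ψ hψ
        rcases List.mem_cons.1 hψ with h | h
        · rw [h]; exact hlt.1
        · exact hlt.1.trans (hL' ψ h)
      · intro ψ hψ
        rcases List.mem_cons.1 hψ with h | h
        · rw [h]; exact hlt.1
        · exact hlt.1.trans (hL' ψ h)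
    exact ⟨⟨⟨S.X₁, B', p'⟩, hp', hP'⟩, S.f, hS.mono_f, hlt.2⟩
  obtain ⟨B, p, hp⟩ := c.exists_mdq hn E hE
  by_cases hP : P E B p
  · obtain ⟨L, hL, _⟩ := hP
    exact ⟨_, hL⟩
  exfalso
  choose f i hi hlt using step
  let x0 : X := ⟨⟨E, B, p⟩, hp, hP⟩
  let s : ℕ → X := fun n => Nat.rec x0 (fun _ x => f x) n
  have hs : ∀ n, s (n + 1) = f (s n) := fun n => rfl
  have h0 : ∀ x : X, ¬ IsZero x.1.1 := by
    intro x hx
    have := x.2.1.epi
    exact x.2.1.ss.1 (IsZero.of_epi x.1.2.2 hx)
  obtain ⟨n, hn'⟩ := c.chain_a (fun n => (s n).1.1) (fun n => i (s n)) (fun n => hi (s n))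
    (fun n => h0 (s n))
  exact absurd (hlt (s n)) (not_lt.2 hn')

/-- All phases in an HN list lie in `(0, 1]`. -/
theorem hna_mem {L : List ℝ} {E : A} (h : c.HNA L E) : ∀ ψ ∈ L, 0 < ψ ∧ ψ ≤ 1 := by
  induction h with
  | zero E hE => simp
  | step L S hS hF hB hφ ih =>
    intro ψ hψ
    rcases List.mem_cons.1 hψ with h | h
    · rw [h]; exact c.ph_mem hB.1
    · exact ih ψ h

end M21.E3.Charge
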