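import Mathlib

/-!
# M21, stage 3: the heart of a t-structure is an abelian category
-/

open CategoryTheory CategoryTheory.Limits CategoryTheory.Pretriangulated
open CategoryTheory.Triangulated ZeroObject

noncomputable section

universe v u

namespace M21

variable {C : Type u} [Category.{v} C] [Preadditive C] [HasZeroObject C] [HasShift C ℤ]
  [∀ n : ℤ, (shiftFunctor C n).Additive] [Pretriangulated C] (t : TStructure C)

/-- Replace the first object of a triangle by an isomorphic one. -/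
theorem triangle_iso₁ {A A' B D : C} (e : A' ≅ A) {f : A ⟶ B} {g : B ⟶ D} {h : D ⟶ A⟦(1 : ℤ)⟧}
    (hT : Triangle.mk f g h ∈ distTriang C) :
    Triangle.mk (e.hom ≫ f) g (h ≫ e.inv⟦(1 : ℤ)⟧') ∈ distTriang C := by
  refine isomorphic_distinguished _ hT _ ?_
  refine Triangle.isoMk _ _ e (Iso.refl B) (Iso.refl D) ?_ ?_ ?_
  · show (e.hom ≫ f) ≫ 𝟙 B = e.hom ≫ f
    simp
  · show g ≫ 𝟙 D = 𝟙 B ≫ g
    simp
  · show (h ≫ e.inv⟦(1 : ℤ)⟧') ≫ e.hom⟦(1 : ℤ)⟧' = 𝟙 D ≫ h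
    rw [Category.assoc, ← Functor.map_comp, e.inv_hom_id, CategoryTheory.Functor.map_id]
    simp

/-- Replace the second object of a triangle by an isomorphic one. -/
theorem triangle_iso₂ {A B B' D : C} (e : B' ≅ B) {f : A ⟶ B} {g : B ⟶ D} {h : D ⟶ A⟦(1 : ℤ)⟧}
    (hT : Triangle.mk f g h ∈ distTriang C) :
    Triangle.mk (f ≫ e.inv) (e.hom ≫ g) h ∈ distTriang C := by
  refine isomorphic_distinguished _ hT _ ?_
  refine Triangle.isoMk _ _ (Iso.refl A) e (Iso.refl D) ?_ ?_ ?_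
  · show (f ≫ e.inv) ≫ e.hom = 𝟙 A ≫ f
    simp
  · show (e.hom ≫ g) ≫ 𝟙 D = e.hom ≫ g
    simp
  · show h ≫ (𝟙 A)⟦(1 : ℤ)⟧' = 𝟙 D ≫ h
    simp

/-- Replace the third object of a triangle by an isomorphic one. -/
theorem triangle_iso₃ {A B D D' : C} (e : D' ≅ D) {f : A ⟶ B} {g : B ⟶ D} {h : D ⟶ A⟦(1 : ℤ)⟧}
    (hT : Triangle.mk f g h ∈ distTriang C) :
    Triangle.mk f (g ≫ e.inv) (e.hom ≫ h) ∈ distTriang C := by
  refine isomorphic_distinguished _ hT _ ?_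
  refine Triangle.isoMk _ _ (Iso.refl A) (Iso.refl B) e ?_ ?_ ?_
  · show f ≫ 𝟙 B = 𝟙 A ≫ f
    simp
  · show (g ≫ e.inv) ≫ e.hom = 𝟙 B ≫ g
    simp
  · show (e.hom ≫ h) ≫ (𝟙 A)⟦(1 : ℤ)⟧' = e.hom ≫ h
    simp

theorem heart_le {E : C} (h : t.heart E) : t.IsLE E 0 := ((t.mem_heart_iff E).mp h).1

theorem heart_ge {E : C} (h : t.heart E) : t.IsGE E 0 := ((t.mem_heart_iff E).mp h).2

theorem heart_mk {E : C} (h1 : t.IsLE E 0) (h2 : t.IsGE E 0) : t.heart E :=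
  (t.mem_heart_iff E).mpr ⟨h1, h2⟩

theorem heart_isZero {E : C} (h : IsZero E) : t.heart E :=
  heart_mk t (t.isLE_of_isZero h 0) (t.isGE_of_isZero h 0)

theorem heart_iso {E F : C} (e : E ≅ F) (h : t.heart E) : t.heart F :=
  t.heart.prop_of_iso e h

/-- the heart is closed under extensions -/
theorem heart_ext {T : Triangle C} (hT : T ∈ distTriang C) (h1 : t.heart T.obj₁)
    (h3 : t.heart T.obj₃) : t.heart T.obj₂ :=
  heart_mk t (t.isLE₂ T hT 0 (heart_le t h1) (heart_le t h3))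
    (t.isGE₂ T hT 0 (heart_ge t h1) (heart_ge t h3))

/-- the third object of a triangle -/
theorem isLE₃ {T : Triangle C} (hT : T ∈ distTriang C) (n : ℤ) (h1 : t.IsLE T.obj₁ (n + 1))
    (h2 : t.IsLE T.obj₂ n) : t.IsLE T.obj₃ n :=
  t.isLE₂ _ (rot_of_distTriang _ hT) n h2 (by
    exact t.isLE_shift T.obj₁ (n + 1) 1 n (by lia))

theorem isGE₃ {T : Triangle C} (hT : T ∈ distTriang C) (n : ℤ) (h1 : t.IsGE T.obj₁ (n + 1))
    (h2 : t.IsGE T.obj₂ n) : t.IsGE T.obj₃ n :=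
  t.isGE₂ _ (rot_of_distTriang _ hT) n h2 (by
    exact t.isGE_shift T.obj₁ (n + 1) 1 n (by lia))

theorem isLE₁ {T : Triangle C} (hT : T ∈ distTriang C) (n : ℤ) (h2 : t.IsLE T.obj₂ n)
    (h3 : t.IsLE T.obj₃ (n - 1)) : t.IsLE T.obj₁ n :=
  t.isLE₂ _ (inv_rot_of_distTriang _ hT) n (by
    exact t.isLE_shift T.obj₃ (n - 1) (-1) n (by lia)) h2

theorem isGE₁ {T : Triangle C} (hT : T ∈ distTriang C) (n : ℤ) (h2 : t.IsGE T.obj₂ n)
    (h3 : t.IsGE T.obj₃ (n - 1)) : t.IsGE T.obj₁ n :=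
  t.isGE₂ _ (inv_rot_of_distTriang _ hT) n (by
    exact t.isGE_shift T.obj₃ (n - 1) (-1) n (by lia)) h2

instance : t.heart.ContainsZero where
  exists_zero := ⟨0, isZero_zero C, heart_isZero t (isZero_zero C)⟩

instance : t.heart.IsClosedUnderBinaryProducts where
  limitsOfShape_le := by
    rintro X ⟨p⟩
    refine t.heart.prop_of_iso ?_ (heart_ext t (binaryProductTriangle_distinguished _ _)
      (p.prop_diag_obj (.mk .left)) (p.prop_diag_obj (.mk .right)))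
    exact IsLimit.conePointUniqueUpToIso (prodIsProd _ _)
      ((IsLimit.postcomposeHomEquiv (diagramIsoPair p.diag) _).2 p.isLimit)

instance : t.heart.IsClosedUnderFiniteProducts := .mk'

/-- The heart of a t-structure. -/
abbrev Ht := t.heart.FullSubcategory

/-- no negative extensions in the heart -/
theorem heart_hom_zero ⦃X Y : Ht t⦄ ⦃n : ℤ⦄ (f : t.heart.ι.obj X ⟶ (t.heart.ι.obj Y)⟦n⟧)
    (hn : n < 0) : f = 0 := by
  have h1 : t.IsLE X.obj 0 := heart_le t X.property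
  have h2 : t.IsGE Y.obj 0 := heart_ge t Y.property
  have h3 : t.IsGE (Y.obj⟦n⟧) (-n) := t.isGE_shift Y.obj 0 n (-n) (by lia)
  exact t.zero_of_isLE_of_isGE f 0 (-n) (by lia) h1 h3

theorem heart_admissible : AbelianSubcategory.admissibleMorphism t.heart.ι = ⊤ := by
  ext X₁ X₂ f₁
  refine ⟨fun _ => trivial, fun _ => ?_⟩
  intro X₃ f₂ f₃ hT
  have a1 : t.IsLE X₁.obj 0 := heart_le t X₁.property
  have a2 : t.IsGE X₁.obj 0 := heart_ge t X₁.property
  have b1 : t.IsLE X₂.obj 0 := heart_le t X₂.property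
  have b2 : t.IsGE X₂.obj 0 := heart_ge t X₂.property
  have c1 : t.IsLE X₃ 0 := isLE₃ t hT 0 (t.isLE_of_le X₁.obj 0 (0 + 1)) b1
  have c2 : t.IsGE X₃ (-1) := isGE₃ t hT (-1) a2 (t.isGE_of_ge X₂.obj (-1) 0)
  obtain ⟨K', Q, hK', hQ, α', β, γ', hT'⟩ := t.exists_triangle X₃ (-1) 0 (by lia)
  have d1 : t.IsLE K' (-1) := ⟨hK'⟩
  have d2 : t.IsGE Q 0 := ⟨hQ⟩
  have d3 : t.IsLE Q 0 := isLE₃ t hT' 0 (t.isLE_of_le K' (-1) (0 + 1)) c1
  have d4 : t.IsGE K' (-1) := isGE₁ t hT' (-1) c2 (t.isGE_of_ge Q (-1 - 1) 0)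
  have e1 : t.IsLE (K'⟦(-1 : ℤ)⟧) 0 := t.isLE_shift K' (-1) (-1) 0 (by lia)
  have e2 : t.IsGE (K'⟦(-1 : ℤ)⟧) 0 := t.isGE_shift K' (-1) (-1) 0 (by lia)
  let K : Ht t := ⟨K'⟦(-1 : ℤ)⟧, heart_mk t e1 e2⟩
  let Q' : Ht t := ⟨Q, heart_mk t d3 d2⟩
  let e : (t.heart.ι.obj K)⟦(1 : ℤ)⟧ ≅ K' :=
    (shiftFunctorCompIsoId C (-1 : ℤ) 1 (by lia)).app K'
  exact ⟨K, Q', e.hom ≫ α', β, γ' ≫ (shiftFunctor C (1 : ℤ)).map e.inv, triangle_iso₁ e hT'⟩

variable [IsTriangulated C]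

/-- The heart is an abelian category. -/
instance heartAbelian : Abelian (Ht t) :=
  AbelianSubcategory.abelian t.heart.ι (heart_hom_zero t) (heart_admissible t)

variable {t}

/-- A triangle in the heart is a short exact sequence. -/
theorem shortExact_of_triangle {X₁ X₂ X₃ : Ht t} (f : X₁ ⟶ X₂) (g : X₂ ⟶ X₃)
    (h : t.heart.ι.obj X₃ ⟶ (t.heart.ι.obj X₁)⟦(1 : ℤ)⟧)
    (hT : Triangle.mk (t.heart.ι.map f) (t.heart.ι.map g) h ∈ distTriang C) :
    ∃ w : f ≫ g = 0, (ShortComplex.mk f g w).ShortExact := by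
  have w : f ≫ g = 0 := t.heart.ι.map_injective (by
    have := comp_distTriang_mor_zero₁₂ _ hT
    rw [Functor.map_comp, Functor.map_zero]
    exact this)
  refine ⟨w, ?_⟩
  have hk := AbelianSubcategory.isLimitKernelForkOfDistTriang (heart_hom_zero t) f g h hT
  have hc := AbelianSubcategory.isColimitCokernelCoforkOfDistTriang (heart_hom_zero t) f g h hT
  refine { exact := ?_, mono_f := ?_, epi_g := ?_ }
  · exact ShortComplex.exact_of_f_is_kernel _ hk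
  · exact Fork.IsLimit.mono hk
  · exact Cofork.IsColimit.epi hc

/-- A short exact sequence in the heart gives a triangle. -/
theorem exists_triangle_of_shortExact {S : ShortComplex (Ht t)} (hS : S.ShortExact) :
    ∃ h : S.X₃.obj ⟶ (S.X₁.obj)⟦(1 : ℤ)⟧,
      Triangle.mk (t.heart.ι.map S.f) (t.heart.ι.map S.g) h ∈ distTriang C := by
  have hg : Epi S.g := hS.epi_g
  obtain ⟨X₁, i, δ, hT⟩ := AbelianSubcategory.exists_distinguished_triangle_of_epi
    (heart_hom_zero t) (heart_admissible t) S.g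
  have hk := AbelianSubcategory.isLimitKernelForkOfDistTriang (heart_hom_zero t) i S.g δ hT
  let e : X₁ ≅ S.X₁ := IsLimit.conePointUniqueUpToIso hk hS.fIsKernel
  have he : e.hom ≫ S.f = i := IsLimit.conePointUniqueUpToIso_hom_comp hk hS.fIsKernel
    WalkingParallelPair.zero
  have h1 := triangle_iso₁ (t.heart.ι.mapIso e.symm) hT
  have h2 : (t.heart.ι.mapIso e.symm).hom ≫ t.heart.ι.map i = t.heart.ι.map S.f := by
    have h3 : e.inv ≫ i = S.f := by rw [← he, Iso.inv_hom_id_assoc]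
    have h4 : (t.heart.ι.mapIso e.symm).hom = t.heart.ι.map e.inv := rfl
    rw [h4, ← Functor.map_comp, h3]
  rw [h2] at h1
  exact ⟨_, h1⟩

end M21
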