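import Mathlib

/-!
# M21, existence part, B2: the heart of a t-structure is abelian
-/

open CategoryTheory CategoryTheory.Limits CategoryTheory.Pretriangulated
  CategoryTheory.Triangulated

universe v u

noncomputable section

namespace M21.E3

variable {C : Type u} [Category.{v} C] [HasZeroObject C] [HasShift C ℤ] [Preadditive C]
  [∀ n : ℤ, (shiftFunctor C n).Additive] [Pretriangulated C] [IsTriangulated C]
  (t : TStructure C)

/-- the heart as a category -/
abbrev Hrt := t.heart.FullSubcategory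

/-- the inclusion -/
abbrev hι : Hrt t ⥤ C := t.heart.ι

/-- The heart is closed under finite products (it contains zero and is closed under extensions:
`TStructure.isLE₂`, `isGE₂` applied to the split triangle of a biproduct). -/
theorem hasFiniteProducts_heart : HasFiniteProducts (Hrt t) := by
  have : t.heart.ContainsZero := by
    open ZeroObject in
    exact ⟨0, isZero_zero C, by rw [t.mem_heart_iff]; exact ⟨inferInstance, inferInstance⟩⟩
  have : t.heart.IsClosedUnderBinaryProducts :=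
    { limitsOfShape_le := by
        rintro X ⟨p⟩
        have hl : t.heart (p.diag.obj ⟨WalkingPair.left⟩) := p.prop_diag_obj (.mk .left)
        have hr : t.heart (p.diag.obj ⟨WalkingPair.right⟩) := p.prop_diag_obj (.mk .right)
        refine t.heart.prop_of_iso (IsLimit.conePointUniqueUpToIso (prodIsProd _ _)
          ((IsLimit.postcomposeHomEquiv (diagramIsoPair p.diag) _).2 p.isLimit)) ?_
        rw [t.mem_heart_iff] at hl hr ⊢
        exact ⟨t.isLE₂ _ (binaryProductTriangle_distinguished _ _) 0 hl.1 hr.1,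
          t.isGE₂ _ (binaryProductTriangle_distinguished _ _) 0 hl.2 hr.2⟩ }
  have : t.heart.IsClosedUnderFiniteProducts := .mk'
  infer_instance

/-- no maps of negative degree -/
theorem heart_neg ⦃X Y : Hrt t⦄ ⦃n : ℤ⦄ (f : (hι t).obj X ⟶ ((hι t).obj Y)⟦n⟧) (hn : n < 0) :
    f = 0 := by
  have hX : t.IsLE ((hι t).obj X) 0 := ((t.mem_heart_iff _).1 X.property).1
  have hY : t.IsGE ((hι t).obj Y) 0 := ((t.mem_heart_iff _).1 Y.property).2
  have hY' : t.IsGE (((hι t).obj Y)⟦n⟧) (-n) := t.isGE_shift _ 0 n (-n) (by lia)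
  exact t.zero f 0 (-n) (by lia)

/-- Every morphism of the heart is admissible: the cone `X₃` of `f₁ : X₁ → X₂` satisfies
`IsLE 0` and `IsGE (-1)` (`isLE₂`, `isGE₂` for the rotated triangle); the truncation triangle
`τ^{≤ -1} X₃ → X₃ → τ^{≥ 0} X₃` has first term `K[1]` and third term `Q` with `K`, `Q` in the heart. -/
theorem admissible_heart :
    AbelianSubcategory.admissibleMorphism (hι t) = ⊤ := by
  ext X₁ X₂ f₁
  refine ⟨fun _ => trivial, fun _ => ?_⟩
  intro X₃ f₂ f₃ hT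
  have hX₁ := (t.mem_heart_iff _).1 X₁.property
  have hX₂ := (t.mem_heart_iff _).1 X₂.property
  have hl1 : t.IsLE X₁.obj 0 := hX₁.1
  have hg1 : t.IsGE X₁.obj 0 := hX₁.2
  have hl2 : t.IsLE X₂.obj 0 := hX₂.1
  have hg2 : t.IsGE X₂.obj 0 := hX₂.2
  have hl1' : t.IsLE (X₁.obj⟦(1 : ℤ)⟧) (-1) := t.isLE_shift _ 0 1 (-1) (by lia)
  have hl1'' : t.IsLE (X₁.obj⟦(1 : ℤ)⟧) 0 := t.isLE_of_le _ (-1) 0 (by lia)
  have hg1' : t.IsGE (X₁.obj⟦(1 : ℤ)⟧) (-1) := t.isGE_shift _ 0 1 (-1) (by lia)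
  have hg2' : t.IsGE X₂.obj (-1) := t.isGE_of_ge _ (-1) 0 (by lia)
  have hle : t.IsLE X₃ 0 := t.isLE₂ _ (rot_of_distTriang _ hT) 0 hl2 hl1''
  have hge : t.IsGE X₃ (-1) := t.isGE₂ _ (rot_of_distTriang _ hT) (-1) hg2' hg1'
  obtain ⟨A, B, hA, hB, a, b, c, hT'⟩ := t.exists_triangle X₃ (-1) 0 (by lia)
  have hA1 : t.IsLE A (-1) := ⟨hA⟩
  have hB1 : t.IsGE B 0 := ⟨hB⟩
  have hA2 : t.IsGE A (-1) := by
    have h1 : t.IsGE (B⟦(-1 : ℤ)⟧) 1 := t.isGE_shift _ 0 (-1) 1 (by lia)
    have h2 : t.IsGE (B⟦(-1 : ℤ)⟧) (-1) := t.isGE_of_ge _ (-1) 1 (by lia)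
    exact t.isGE₂ _ (inv_rot_of_distTriang _ hT') (-1) h2 hge
  have hB2 : t.IsLE B 0 := by
    have h1 : t.IsLE (A⟦(1 : ℤ)⟧) (-2) := t.isLE_shift _ (-1) 1 (-2) (by lia)
    have h2 : t.IsLE (A⟦(1 : ℤ)⟧) 0 := t.isLE_of_le _ (-2) 0 (by lia)
    exact t.isLE₂ _ (rot_of_distTriang _ hT') 0 hle h2
  have hK : t.heart (A⟦(-1 : ℤ)⟧) :=
    (t.mem_heart_iff _).2 ⟨t.isLE_shift _ (-1) (-1) 0 (by lia), t.isGE_shift _ (-1) (-1) 0 (by lia)⟩
  have hQ : t.heart B := (t.mem_heart_iff _).2 ⟨hB2, hB1⟩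
  let e : (A⟦(-1 : ℤ)⟧)⟦(1 : ℤ)⟧ ≅ A :=
    (shiftFunctorCompIsoId C (-1 : ℤ) 1 (by norm_num)).app A
  refine ⟨⟨A⟦(-1 : ℤ)⟧, hK⟩, ⟨B, hQ⟩, e.hom ≫ a, b, c ≫ e.inv⟦(1 : ℤ)⟧', ?_⟩
  refine isomorphic_distinguished _ hT' _ ?_
  refine Triangle.isoMk _ _ e (Iso.refl _) (Iso.refl _) ?_ ?_ ?_
  · exact Category.comp_id _
  · exact (Category.comp_id _).trans (Category.id_comp _).symm
  · show (c ≫ e.inv⟦(1 : ℤ)⟧') ≫ e.hom⟦(1 : ℤ)⟧' = 𝟙 _ ≫ c
    rw [Category.assoc, ← CategoryTheory.Functor.map_comp, e.inv_hom_id,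
      CategoryTheory.Functor.map_id, Category.comp_id, Category.id_comp]

/-- The heart of a t-structure on a triangulated category is an abelian category
(Beilinson-Bernstein-Deligne 1.3.6): `AbelianSubcategory.abelian`. -/
instance heartAbelian : Abelian (Hrt t) :=
  haveI := hasFiniteProducts_heart t
  AbelianSubcategory.abelian (hι t) (heart_neg t) (admissible_heart t)

/-- A short exact sequence in the heart is a distinguished triangle
(`AbelianSubcategory.exists_distinguished_triangle_of_epi` and uniqueness of kernels). -/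
theorem exists_triangle_of_ses (S : ShortComplex (Hrt t)) (hS : S.ShortExact) :
    ∃ δ : S.X₃.obj ⟶ S.X₁.obj⟦(1 : ℤ)⟧,
      Triangle.mk ((hι t).map S.f) ((hι t).map S.g) δ ∈ distTriang C := by
  have := hasFiniteProducts_heart t
  have : Epi S.g := hS.epi_g
  obtain ⟨X₁, i, δ, hT⟩ := AbelianSubcategory.exists_distinguished_triangle_of_epi
    (heart_neg t) (admissible_heart t) S.g
  have h1 := AbelianSubcategory.isLimitKernelForkOfDistTriang (heart_neg t) i S.g δ hT
  have h2 := hS.fIsKernel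
  let e : S.X₁ ≅ X₁ := IsLimit.conePointUniqueUpToIso h2 h1
  have he : e.hom ≫ i = S.f :=
    IsLimit.conePointUniqueUpToIso_hom_comp h2 h1 WalkingParallelPair.zero
  refine ⟨δ ≫ ((hι t).map e.inv)⟦(1 : ℤ)⟧', ?_⟩
  refine isomorphic_distinguished _ hT _ ?_
  refine Triangle.isoMk _ _ ((hι t).mapIso e) (Iso.refl _) (Iso.refl _) ?_ ?_ ?_
  · show (hι t).map S.f ≫ 𝟙 _ = (hι t).map e.hom ≫ (hι t).map i
    rw [← Functor.map_comp, he, Category.comp_id]
  · exact (Category.comp_id _).trans (Category.id_comp _).symm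
  · show (δ ≫ ((hι t).map e.inv)⟦(1 : ℤ)⟧') ≫ ((hι t).map e.hom)⟦(1 : ℤ)⟧' = 𝟙 _ ≫ δ
    rw [Category.assoc, ← CategoryTheory.Functor.map_comp, ← CategoryTheory.Functor.map_comp,
      e.inv_hom_id, CategoryTheory.Functor.map_id, CategoryTheory.Functor.map_id,
      Category.comp_id, Category.id_comp]

/-- A distinguished triangle with all terms in the heart is a short exact sequence
(`isLimitKernelForkOfDistTriang`, `isColimitCokernelCoforkOfDistTriang`). -/
theorem exists_ses_of_triangle (T : Triangle C) (hT : T ∈ distTriang C) (h₁ : t.heart T.obj₁)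
    (h₂ : t.heart T.obj₂) (h₃ : t.heart T.obj₃) :
    ∃ (f : (⟨T.obj₁, h₁⟩ : Hrt t) ⟶ ⟨T.obj₂, h₂⟩) (g : (⟨T.obj₂, h₂⟩ : Hrt t) ⟶ ⟨T.obj₃, h₃⟩)
      (w : f ≫ g = 0), (ShortComplex.mk f g w).ShortExact ∧ (hι t).map f = T.mor₁ ∧
        (hι t).map g = T.mor₂ := by
  have := hasFiniteProducts_heart t
  let A₁ : Hrt t := ⟨T.obj₁, h₁⟩
  let A₂ : Hrt t := ⟨T.obj₂, h₂⟩
  let A₃ : Hrt t := ⟨T.obj₃, h₃⟩
  let f : A₁ ⟶ A₂ := (hι t).preimage (show (hι t).obj A₁ ⟶ (hι t).obj A₂ from T.mor₁)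
  let g : A₂ ⟶ A₃ := (hι t).preimage (show (hι t).obj A₂ ⟶ (hι t).obj A₃ from T.mor₂)
  have hf : (hι t).map f = T.mor₁ := (hι t).map_preimage _
  have hg : (hι t).map g = T.mor₂ := (hι t).map_preimage _
  have hT' : Triangle.mk ((hι t).map f) ((hι t).map g) T.mor₃ ∈ distTriang C := by
    rw [hf, hg]
    exact hT
  have w : f ≫ g = 0 := (hι t).map_injective (by
    rw [Functor.map_comp, hf, hg, Functor.map_zero]
    exact comp_distTriang_mor_zero₁₂ _ hT)
  have k1 := AbelianSubcategory.isLimitKernelForkOfDistTriang (heart_neg t) f g T.mor₃ hT'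
  have k2 := AbelianSubcategory.isColimitCokernelCoforkOfDistTriang (heart_neg t) f g T.mor₃ hT'
  have : Mono f := mono_of_isLimit_fork k1
  have : Epi g := epi_of_isColimit_cofork k2
  refine ⟨f, g, w, ?_, hf, hg⟩
  exact { exact := ShortComplex.exact_of_f_is_kernel _ k1
          mono_f := ‹Mono f›
          epi_g := ‹Epi g› }

/-- An object of the heart is zero in the heart iff it is zero in `C`. -/
theorem isZero_heart_iff (X : Hrt t) : IsZero X ↔ IsZero X.obj := by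
  rw [IsZero.iff_id_eq_zero, IsZero.iff_id_eq_zero]
  constructor
  · intro h
    have h1 := congrArg (hι t).map h
    rw [CategoryTheory.Functor.map_zero, CategoryTheory.Functor.map_id] at h1
    exact h1
  · intro h
    apply (hι t).map_injective
    rw [CategoryTheory.Functor.map_zero, CategoryTheory.Functor.map_id]
    exact h

end M21.E3
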