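import Pool.Agent.H.MP_21b43d_ag.E3.Slope

/-!
# M21, stage 3: the phase of a slope
-/

noncomputable section

namespace M21

/-- The phase in `(0, 1]` of a slope. -/
def phiS (s : WithTop ℚ) : ℝ :=
  WithTop.recTopCoe (C := fun _ => ℝ) 1 (fun μ : ℚ => 1 / 2 + Real.arctan (μ : ℝ) / Real.pi) s

theorem phiS_top : phiS ⊤ = 1 := rfl

theorem phiS_coe (μ : ℚ) : phiS (μ : WithTop ℚ) = 1 / 2 + Real.arctan (μ : ℝ) / Real.pi := rfl

theorem arctan_div_lt (x : ℝ) : Real.arctan x / Real.pi < 1 / 2 := by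
  rw [div_lt_iff₀ Real.pi_pos]
  linarith [Real.arctan_lt_pi_div_two x]

theorem lt_arctan_div (x : ℝ) : -(1 / 2) < Real.arctan x / Real.pi := by
  rw [lt_div_iff₀ Real.pi_pos]
  linarith [Real.neg_pi_div_two_lt_arctan x]

theorem phiS_pos (s : WithTop ℚ) : 0 < phiS s := by
  induction s using WithTop.recTopCoe with
  | top => rw [phiS_top]; norm_num
  | coe μ => rw [phiS_coe]; linarith [lt_arctan_div (μ : ℝ)]

theorem phiS_le_one (s : WithTop ℚ) : phiS s ≤ 1 := by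
  induction s using WithTop.recTopCoe with
  | top => rw [phiS_top]
  | coe μ => rw [phiS_coe]; linarith [arctan_div_lt (μ : ℝ)]

theorem phiS_strictMono : StrictMono phiS := by
  intro s s' h
  induction s using WithTop.recTopCoe with
  | top => exact absurd h not_top_lt
  | coe μ =>
    induction s' using WithTop.recTopCoe with
    | top => rw [phiS_coe, phiS_top]; linarith [arctan_div_lt (μ : ℝ)]
    | coe ν =>
      rw [phiS_coe, phiS_coe]
      have h1 : (μ : ℝ) < (ν : ℝ) := by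
        have h2 : μ < ν := WithTop.coe_lt_coe.mp h
        exact_mod_cast h2
      have h2 : Real.arctan (μ : ℝ) < Real.arctan (ν : ℝ) := Real.arctan_strictMono h1
      have h3 : Real.arctan (μ : ℝ) / Real.pi < Real.arctan (ν : ℝ) / Real.pi :=
        div_lt_div_of_pos_right h2 Real.pi_pos
      linarith

theorem exp_half_add (x : ℝ) : Complex.exp (((Real.pi / 2 + Real.arctan x : ℝ) : ℂ) * Complex.I) =
    (-(x : ℂ) + Complex.I) * ((1 / Real.sqrt (1 + x ^ 2) : ℝ) : ℂ) := by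
  rw [Complex.exp_mul_I, ← Complex.ofReal_cos, ← Complex.ofReal_sin]
  have h1 : Real.cos (Real.pi / 2 + Real.arctan x) = -Real.sin (Real.arctan x) := by
    rw [add_comm, Real.cos_add_pi_div_two]
  have h2 : Real.sin (Real.pi / 2 + Real.arctan x) = Real.cos (Real.arctan x) := by
    rw [add_comm, Real.sin_add_pi_div_two]
  rw [h1, h2, Real.sin_arctan, Real.cos_arctan]
  push_cast
  ring

/-- A point of the upper half plane and its phase. -/
theorem exp_phiS (R D : ℤ) (hD : 0 ≤ D) (h : D = 0 → R < 0) :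
    ∃ m : ℝ, 0 < m ∧ (R : ℂ) + (D : ℂ) * Complex.I =
      (m : ℂ) * Complex.exp (Real.pi * (phiS (slopeZ R D) : ℝ) * Complex.I) := by
  by_cases h0 : D = 0
  · have hR := h h0
    refine ⟨-(R : ℝ), ?_, ?_⟩
    · have : (R : ℝ) < 0 := by exact_mod_cast hR
      linarith
    · unfold slopeZ
      rw [if_pos h0, phiS_top, h0]
      push_cast
      rw [mul_one, Complex.exp_pi_mul_I]
      ring
  · have hD1 : 0 < D := lt_of_le_of_ne hD (Ne.symm h0)
    have hD2 : (0 : ℝ) < D := by exact_mod_cast hD1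
    let μ : ℚ := -(R : ℚ) / D
    have hμ : ((μ : ℚ) : ℝ) * D = -R := by
      change ((-(R : ℚ) / D : ℚ) : ℝ) * D = -R
      push_cast
      field_simp
    have hs : 0 < Real.sqrt (1 + ((μ : ℚ) : ℝ) ^ 2) := Real.sqrt_pos.mpr (by positivity)
    refine ⟨D * Real.sqrt (1 + ((μ : ℚ) : ℝ) ^ 2), by positivity, ?_⟩
    have h1 : phiS (slopeZ R D) = 1 / 2 + Real.arctan ((μ : ℚ) : ℝ) / Real.pi := by
      unfold slopeZ
      rw [if_neg h0]
      rfl
    have h2 : (Real.pi : ℂ) * ((phiS (slopeZ R D) : ℝ) : ℂ) * Complex.I =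
        ((Real.pi / 2 + Real.arctan ((μ : ℚ) : ℝ) : ℝ) : ℂ) * Complex.I := by
      rw [← Complex.ofReal_mul, h1]
      congr 2
      have := Real.pi_ne_zero
      field_simp
    rw [h2, exp_half_add]
    have h3 : (((D * Real.sqrt (1 + ((μ : ℚ) : ℝ) ^ 2) : ℝ) : ℂ)) *
        ((-(((μ : ℚ) : ℝ) : ℂ) + Complex.I) *
          ((1 / Real.sqrt (1 + ((μ : ℚ) : ℝ) ^ 2) : ℝ) : ℂ)) =
        ((D : ℝ) : ℂ) * (-(((μ : ℚ) : ℝ) : ℂ) + Complex.I) := by
      have h4 : ((D * Real.sqrt (1 + ((μ : ℚ) : ℝ) ^ 2) : ℝ) : ℂ) *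
          ((1 / Real.sqrt (1 + ((μ : ℚ) : ℝ) ^ 2) : ℝ) : ℂ) = ((D : ℝ) : ℂ) := by
        rw [← Complex.ofReal_mul]
        congr 1
        field_simp
      calc _ = (((D * Real.sqrt (1 + ((μ : ℚ) : ℝ) ^ 2) : ℝ) : ℂ) *
          ((1 / Real.sqrt (1 + ((μ : ℚ) : ℝ) ^ 2) : ℝ) : ℂ)) *
            (-(((μ : ℚ) : ℝ) : ℂ) + Complex.I) := by ring
        _ = _ := by rw [h4]
    rw [h3, mul_add, mul_neg]
    have h5 : ((D : ℝ) : ℂ) * (((μ : ℚ) : ℝ) : ℂ) = -(R : ℂ) := by
      rw [← Complex.ofReal_mul, mul_comm, hμ]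
      push_cast
      rfl
    rw [h5]
    push_cast
    ring

end M21
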