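import Pool.Agent.H.MP_21b43d_ag.E3.Rk1b

/-!
# M21, existence part, R2: maps between a rank one object of degree 0 and objects of `F` of degree 0
-/

open CategoryTheory CategoryTheory.Limits

universe v u

noncomputable section

namespace M21.E3

variable {𝒞 : Type u} [Category.{v} 𝒞] [Abelian 𝒞] [Linear ℂ 𝒞] {W : ObjectProperty 𝒞}

/-- Rank one objects of degree 0 with the Hartogs property and `End = ℂ`. -/
structure Rk1H (q : RDX W) (S : 𝒞) : Prop extends Rk1 q S where
  deg : q.D S = 0
  hart : Hart q S
  endo : ∀ g : S ⟶ S, ∃ c : ℂ, g = c • 𝟙 S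

omit [Linear ℂ 𝒞] in
theorem comp_zero_Rk2 {X M : 𝒞} (f : X ⟶ M) :
    kernel.ι f ≫ Abelian.factorThruImage f = 0 := by
  have h1 : (kernel.ι f ≫ Abelian.factorThruImage f) ≫ Abelian.image.ι f = 0 := by
    rw [Category.assoc, Abelian.image.fac, kernel.condition]
  exact zero_of_comp_mono _ h1

omit [Linear ℂ 𝒞] in
theorem ses_Rk2 {X M : 𝒞} (f : X ⟶ M) :
    (ShortComplex.mk (kernel.ι f) (Abelian.factorThruImage f) (comp_zero_Rk2 f)).ShortExact := by
  refine { exact := ?_, mono_f := inferInstance, epi_g := inferInstance }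
  refine ShortComplex.exact_of_f_is_kernel _ ?_
  refine KernelFork.IsLimit.ofι' _ _ ?_
  intro T k hk
  have hk2 : k ≫ f = 0 := by
    have h1 : (k ≫ Abelian.factorThruImage f) ≫ Abelian.image.ι f = 0 := by
      have : k ≫ Abelian.factorThruImage f = 0 := hk
      rw [this, zero_comp]
    rwa [Category.assoc, Abelian.image.fac] at h1
  exact ⟨kernel.lift f k hk2, kernel.lift_ι _ _ _⟩

/-- Linearly independent morphisms `S → M`, `M ∈ F` of degree 0, give a monomorphism `S^h → M`. Induction
on `h`: let `τ : S^h → M` be mono and `t : S → M` another morphism; if `S^h ⊞ S → M` is not mono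
let `N` be its image and `K` its kernel; `K → S` (second coordinate) is mono (`K ∩ S^h = 0`) and
`K ≠ 0`, so `r K = r S` and `r N = h r S`: the cokernel of `S^h → N` has `r = 0`; `D N ≤ 0`
(`N ⊆ M ∈ F`), so `D (N/S^h) ≤ 0`, so `= 0`. `isIso_of_hart` gives `S^h = N`, so `t` factors
through `S^h` and is a linear combination of the components of `τ` (`End S = ℂ`). -/
theorem Rk1H.mono_from (hW : WSerre W) {q : RDX W} {S M : 𝒞} (h : Rk1H q S) (hM : q.Fc M)
    (hD : q.D M = 0) (n : ℕ) (t : Fin n → (S ⟶ M)) (ht : LinearIndependent ℂ t) :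
    Mono (biproduct.desc t : (⨁ (fun _ : Fin n => S)) ⟶ M) := by
  induction n with
  | zero =>
    have hz : IsZero (⨁ (fun _ : Fin 0 => S)) := by
      rw [IsZero.iff_id_eq_zero]
      apply biproduct.hom_ext
      intro j
      exact j.elim0
    exact ⟨fun _ _ _ => hz.eq_of_tgt _ _⟩
  | succ n ih =>
    have hS : W S := h.mem
    have hMW : W M := hM.1.1
    -- the first `n` morphisms
    have ht' : LinearIndependent ℂ (fun j : Fin n => t j.castSucc) :=
      ht.comp _ (Fin.castSucc_injective n)
    have hmono : Mono (biproduct.desc (fun j : Fin n => t j.castSucc) :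
        (⨁ (fun _ : Fin n => S)) ⟶ M) := ih _ ht'
    let inc : (⨁ (fun _ : Fin n => S)) ⟶ (⨁ (fun _ : Fin (n + 1) => S)) :=
      biproduct.desc (fun j : Fin n => biproduct.ι (fun _ : Fin (n + 1) => S) j.castSucc)
    let pr : (⨁ (fun _ : Fin (n + 1) => S)) ⟶ (⨁ (fun _ : Fin n => S)) :=
      biproduct.lift (fun j : Fin n => biproduct.π (fun _ : Fin (n + 1) => S) j.castSucc)
    let pl : (⨁ (fun _ : Fin (n + 1) => S)) ⟶ S :=
      biproduct.π (fun _ : Fin (n + 1) => S) (Fin.last n)
    let il : S ⟶ (⨁ (fun _ : Fin (n + 1) => S)) :=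
      biproduct.ι (fun _ : Fin (n + 1) => S) (Fin.last n)
    have hinc : inc ≫ biproduct.desc t = biproduct.desc (fun j : Fin n => t j.castSucc) := by
      apply biproduct.hom_ext'
      intro j
      simp [inc]
    have hil : il ≫ biproduct.desc t = t (Fin.last n) := by
      simp [il]
    have htot : 𝟙 (⨁ (fun _ : Fin (n + 1) => S)) = pr ≫ inc + pl ≫ il := by
      rw [← biproduct.total, Fin.sum_univ_castSucc]
      simp only [pr, inc, pl, il, biproduct.lift_desc]
    by_contra hcon
    -- the kernel is not zero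
    have hK : ¬ IsZero (kernel (biproduct.desc t)) := by
      intro hz
      exact hcon (Preadditive.mono_of_isZero_kernel _ hz)
    have hmk : Mono (kernel.ι (biproduct.desc t) ≫ pl) := by
      apply Preadditive.mono_of_cancel_zero
      intro A a ha
      have h1 : a ≫ kernel.ι (biproduct.desc t) =
          (a ≫ kernel.ι (biproduct.desc t) ≫ pr) ≫ inc := by
        calc a ≫ kernel.ι (biproduct.desc t)
            = a ≫ kernel.ι (biproduct.desc t) ≫ 𝟙 (⨁ (fun _ : Fin (n + 1) => S)) := by
              rw [Category.comp_id]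
          _ = (a ≫ kernel.ι (biproduct.desc t) ≫ pr) ≫ inc +
              (a ≫ kernel.ι (biproduct.desc t) ≫ pl) ≫ il := by
              rw [htot, Preadditive.comp_add, Preadditive.comp_add]
              simp only [Category.assoc]
          _ = _ := by rw [ha, zero_comp, add_zero]
      have h2 : (a ≫ kernel.ι (biproduct.desc t) ≫ pr) ≫
          biproduct.desc (fun j : Fin n => t j.castSucc) = 0 := by
        rw [← hinc, ← Category.assoc, ← h1, Category.assoc, kernel.condition, comp_zero]
      have h3 : a ≫ kernel.ι (biproduct.desc t) ≫ pr = 0 := zero_of_comp_mono _ h2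
      rw [h3, zero_comp] at h1
      exact zero_of_comp_mono _ h1
    have hWn1 : W (⨁ (fun _ : Fin (n + 1) => S)) := WSerre.pow hW hS (n + 1)
    have hWn : W (⨁ (fun _ : Fin n => S)) := WSerre.pow hW hS n
    have hWK : W (kernel (biproduct.desc t)) := hW.kernel _ hWn1 hMW
    have hrK : q.r (kernel (biproduct.desc t)) = q.r S :=
      h.sub _ (kernel.ι (biproduct.desc t) ≫ pl) hmk hWK hK
    -- the image
    have hWN : W (Abelian.image (biproduct.desc t)) := RDX.image_Wk2 hW _ hWn1 hMW
    obtain ⟨hr1, hD1, -⟩ := q.add _ (ses_Rk2 (biproduct.desc t)) hWK hWn1 hWN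
    dsimp only at hr1 hD1
    obtain ⟨hp1, -, -⟩ := RDX.pow hW q hS (n + 1)
    obtain ⟨hp2, hp3, -⟩ := RDX.pow hW q hS n
    have hrN : q.r (Abelian.image (biproduct.desc t)) = n * q.r S := by
      rw [hp1, hrK] at hr1
      push_cast at hr1
      linarith
    have hTN : q.Tf (Abelian.image (biproduct.desc t)) :=
      RDX.Tf_sub_Wk2 q (Abelian.image.ι (biproduct.desc t)) inferInstance hWN hM.1
    have hDN : q.D (Abelian.image (biproduct.desc t)) ≤ 0 :=
      hM.2 _ (Abelian.image.ι (biproduct.desc t)) inferInstance hWN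
    -- `S^n → N`
    let i : (⨁ (fun _ : Fin n => S)) ⟶ Abelian.image (biproduct.desc t) :=
      inc ≫ Abelian.factorThruImage (biproduct.desc t)
    have hi : i ≫ Abelian.image.ι (biproduct.desc t) =
        biproduct.desc (fun j : Fin n => t j.castSucc) := by
      rw [← hinc]
      simp only [i, Category.assoc, Abelian.image.fac]
    have him : Mono i := by
      have : Mono (i ≫ Abelian.image.ι (biproduct.desc t)) := by rw [hi]; exact hmono
      exact mono_of_mono i (Abelian.image.ι (biproduct.desc t))
    obtain ⟨hr2, hD2⟩ := RDX.add_coker_Wk2 q hW i him hWn hWN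
    have hrc : q.r (cokernel i) = 0 := by
      rw [hrN, hp2] at hr2
      linarith
    have hDc : q.D (cokernel i) = 0 := by
      have h1 := q.D_nonneg _ (hW.cokernel i hWn hWN) hrc
      rw [hp3, h.deg, mul_zero] at hD2
      omega
    have hiso : IsIso i := isIso_of_hart hW q i hWn (Hart.pow q h.hart n) hTN hrc hDc
    -- the last morphism is a linear combination of the others
    let w : S ⟶ (⨁ (fun _ : Fin n => S)) :=
      il ≫ Abelian.factorThruImage (biproduct.desc t) ≫ inv i
    have hw : w ≫ biproduct.desc (fun j : Fin n => t j.castSucc) = t (Fin.last n) := by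
      rw [← hi, ← hil]
      simp only [w, Category.assoc, IsIso.inv_hom_id_assoc, Abelian.image.fac]
    have hc : ∀ j : Fin n, ∃ c : ℂ, w ≫ biproduct.π (fun _ : Fin n => S) j = c • 𝟙 S :=
      fun j => h.endo _
    choose c hc using hc
    have hsum : t (Fin.last n) = ∑ j : Fin n, c j • t j.castSucc := by
      rw [← hw]
      calc w ≫ biproduct.desc (fun j : Fin n => t j.castSucc)
          = biproduct.lift (fun j => w ≫ biproduct.π (fun _ : Fin n => S) j) ≫
            biproduct.desc (fun j : Fin n => t j.castSucc) := by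
            congr 1
            apply biproduct.hom_ext
            intro j
            rw [biproduct.lift_π]
        _ = ∑ j : Fin n, (w ≫ biproduct.π (fun _ : Fin n => S) j) ≫ t j.castSucc :=
            biproduct.lift_desc
        _ = _ := by
            apply Finset.sum_congr rfl
            intro j _
            rw [hc j, Linear.smul_comp, Category.id_comp]
    rw [Fintype.linearIndependent_iff] at ht
    have hl := ht (Fin.lastCases (-1) (fun j => c j)) (by
      rw [Fin.sum_univ_castSucc]
      simp only [Fin.lastCases_castSucc, Fin.lastCases_last]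
      rw [hsum, neg_one_smul, add_neg_cancel]) (Fin.last n)
    simp only [Fin.lastCases_last] at hl
    norm_num at hl

theorem Rk1H.hom_from (hW : WSerre W) {q : RDX W} {S M : 𝒞} (h : Rk1H q S) (hM : q.Fc M)
    (hD : q.D M = 0) (n : ℕ) (t : Fin n → (S ⟶ M)) (ht : LinearIndependent ℂ t) :
    n * q.r S ≤ q.r M := by
  have hm := h.mono_from hW hM hD n t ht
  have hS : W S := h.mem
  have hWn : W (⨁ (fun _ : Fin n => S)) := WSerre.pow hW hS n
  obtain ⟨h1, -⟩ := RDX.add_coker_Wk2 q hW (biproduct.desc t) hm hWn hM.1.1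
  have h2 := q.r_nonneg _ (hW.cokernel (biproduct.desc t) hWn hM.1.1)
  rw [(RDX.pow hW q hS n).1] at h1
  linarith

end M21.E3
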