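import Pool.Agent.H.MP_21b43d_ag.E3.Rk2

/-!
# M21, existence part, R2b: morphisms from objects of `F` of degree 0 to a rank one object
-/

open CategoryTheory CategoryTheory.Limits

universe v u

noncomputable section

namespace M21.E3

variable {𝒞 : Type u} [Category.{v} 𝒞] [Abelian 𝒞] [Linear ℂ 𝒞] {W : ObjectProperty 𝒞}

omit [Linear ℂ 𝒞] in
/-- additivity for a monomorphism -/
theorem mono_add_Rk2b (hW : WSerre W) (q : RDX W) {A B : 𝒞} (j : A ⟶ B) [Mono j] (hA : W A)
    (hB : W B) : q.r B = q.r A + q.r (cokernel j) ∧ q.D B = q.D A + q.D (cokernel j) := by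
  have hS : (ShortComplex.mk j (cokernel.π j) (cokernel.condition _)).ShortExact :=
    { exact := ShortComplex.exact_cokernel j
      mono_f := inferInstance
      epi_g := inferInstance }
  obtain ⟨h1, h2, -⟩ := q.add _ hS hA hB (hW.cokernel j hA hB)
  exact ⟨h1, h2⟩

omit [Linear ℂ 𝒞] in
theorem W_coim_Rk2b (hW : WSerre W) {A B : 𝒞} (f : A ⟶ B) (hA : W A) (hB : W B) :
    W (Abelian.coimage f) := hW.cokernel (kernel.ι f) (hW.kernel f hA hB) hA

omit [Linear ℂ 𝒞] in
/-- additivity for kernel and coimage -/
theorem ker_add_Rk2b (hW : WSerre W) (q : RDX W) {A B : 𝒞} (f : A ⟶ B) (hA : W A)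
    (hB : W B) : q.r A = q.r (kernel f) + q.r (Abelian.coimage f) ∧
      q.D A = q.D (kernel f) + q.D (Abelian.coimage f) :=
  mono_add_Rk2b hW q (kernel.ι f) (hW.kernel f hA hB) hA

omit [Linear ℂ 𝒞] in
/-- a nonzero morphism to a rank one object -/
theorem ker_rk_Rk2b (hW : WSerre W) {q : RDX W} {A S : 𝒞} (h : Rk1 q S) (hA : W A) (f : A ⟶ S)
    (hf : f ≠ 0) : q.r A = q.r (kernel f) + q.r S := by
  have h1 := (ker_add_Rk2b hW q f hA h.mem).1
  have h2 : ¬ IsZero (Abelian.coimage f) := by
    intro h3
    apply hf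
    rw [← Abelian.coimage.fac f, h3.eq_of_tgt (Abelian.coimage.π f) 0, zero_comp]
  rw [h.sub _ (Abelian.factorThruCoimage f) inferInstance (W_coim_Rk2b hW f hA h.mem) h2] at h1
  exact h1

omit [Linear ℂ 𝒞] in
/-- the kernel of `M → S^(n+1)` -/
theorem exists_iso_ker_Rk2b {M S : 𝒞} (n : ℕ) (t : Fin (n + 1) → (M ⟶ S)) :
    Nonempty (kernel (kernel.ι (biproduct.lift (fun i : Fin n => t i.castSucc)) ≫
      t (Fin.last n)) ≅ kernel (biproduct.lift t)) := by
  have a1 : (kernel.ι (kernel.ι (biproduct.lift (fun i : Fin n => t i.castSucc)) ≫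
      t (Fin.last n)) ≫ kernel.ι (biproduct.lift (fun i : Fin n => t i.castSucc))) ≫
      biproduct.lift t = 0 := by
    apply biproduct.hom_ext
    intro i
    rw [Category.assoc, Category.assoc, biproduct.lift_π, zero_comp]
    refine Fin.lastCases ?_ (fun j => ?_) i
    · exact kernel.condition _
    · have h1 := congrArg (fun z => z ≫ biproduct.π _ j)
        (kernel.condition (biproduct.lift (fun i : Fin n => t i.castSucc)))
      rw [Category.assoc, biproduct.lift_π, zero_comp] at h1
      rw [h1, comp_zero]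
  have a2 : kernel.ι (biproduct.lift t) ≫ biproduct.lift (fun i : Fin n => t i.castSucc) = 0 := by
    apply biproduct.hom_ext
    intro i
    have h1 := congrArg (fun z => z ≫ biproduct.π _ i.castSucc)
      (kernel.condition (biproduct.lift t))
    rw [Category.assoc, biproduct.lift_π, zero_comp] at h1
    rw [Category.assoc, biproduct.lift_π, zero_comp]
    exact h1
  have a3 : kernel.lift _ (kernel.ι (biproduct.lift t)) a2 ≫
      kernel.ι (biproduct.lift (fun i : Fin n => t i.castSucc)) ≫ t (Fin.last n) = 0 := by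
    rw [kernel.lift_ι_assoc]
    have h1 := congrArg (fun z => z ≫ biproduct.π _ (Fin.last n))
      (kernel.condition (biproduct.lift t))
    rw [Category.assoc, biproduct.lift_π, zero_comp] at h1
    exact h1
  refine ⟨⟨kernel.lift _ _ a1, kernel.lift _ _ a3, ?_, ?_⟩⟩
  · rw [← cancel_mono (kernel.ι _), ← cancel_mono (kernel.ι _)]
    simp only [Category.assoc, kernel.lift_ι, Category.id_comp]
  · rw [← cancel_mono (kernel.ι _)]
    simp only [Category.assoc, kernel.lift_ι_assoc, kernel.lift_ι, Category.id_comp]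

/-- The kernel `K` of `M → S^n` has `r K = r M - n r S`. -/
theorem ker_lift_Rk2b (hW : WSerre W) {q : RDX W} {S M : 𝒞} (h : Rk1H q S) (hM : q.Fc M)
    (hD : q.D M = 0) (n : ℕ) : ∀ (t : Fin n → (M ⟶ S)), LinearIndependent ℂ t →
    q.r M = q.r (kernel (biproduct.lift t)) + n * q.r S := by
  induction n with
  | zero =>
    intro t _
    have h0 : biproduct.lift t = 0 := by
      apply biproduct.hom_ext
      intro i
      exact i.elim0
    have h1 : IsIso (kernel.ι (biproduct.lift t)) := by
      rw [h0]
      infer_instance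
    have hWS := WSerre.pow hW h.mem 0
    rw [← (q.inv_iso hW (asIso (kernel.ι (biproduct.lift t)))
      (hW.kernel _ hM.1.1 hWS)).1]
    simp
  | succ n ih =>
    intro t ht
    have ht' : LinearIndependent ℂ (fun i : Fin n => t i.castSucc) :=
      ht.comp _ (Fin.castSucc_injective n)
    have ih' := ih _ ht'
    have hWS := WSerre.pow hW h.mem n
    have hWK : W (kernel (biproduct.lift (fun i : Fin n => t i.castSucc))) :=
      hW.kernel _ hM.1.1 hWS
    have hne : kernel.ι (biproduct.lift (fun i : Fin n => t i.castSucc)) ≫ t (Fin.last n) ≠ 0 := by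
      intro h0
      -- the last morphism factors through the coimage
      let f := biproduct.lift (fun i : Fin n => t i.castSucc)
      let g : Abelian.coimage f ⟶ S := cokernel.desc (kernel.ι f) (t (Fin.last n)) h0
      have hg : Abelian.coimage.π f ≫ g = t (Fin.last n) := cokernel.π_desc _ _ _
      have hWI : W (Abelian.coimage f) := W_coim_Rk2b hW f hM.1.1 hWS
      obtain ⟨e1, e2⟩ := ker_add_Rk2b hW q f hM.1.1 hWS
      obtain ⟨e3, e4⟩ := mono_add_Rk2b hW q (Abelian.factorThruCoimage f) hWI hWS
      obtain ⟨e5, e6, -⟩ := RDX.pow hW q h.mem n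
      have e7 : q.D (kernel f) ≤ 0 := hM.2 _ (kernel.ι f) inferInstance hWK
      have e8 : q.r (cokernel (Abelian.factorThruCoimage f)) = 0 := by
        have : q.r M = q.r (kernel f) + n * q.r S := ih'
        rw [e5] at e3
        linarith
      have e9 := q.D_nonneg _ (hW.cokernel _ hWI hWS) e8
      have e10 : q.D (cokernel (Abelian.factorThruCoimage f)) = 0 := by
        rw [e6, h.deg] at e4
        linarith
      obtain ⟨g', hg'⟩ := h.hart _ _ (Abelian.factorThruCoimage f) inferInstance hWI hWS e8 e10 g
      choose c hc using fun i : Fin n => h.endo (biproduct.ι (fun _ : Fin n => S) i ≫ g')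
      have h2 : t (Fin.last n) = ∑ i : Fin n, c i • t i.castSucc := by
        have h3 : g' = ∑ i : Fin n, biproduct.π (fun _ : Fin n => S) i ≫
            (biproduct.ι (fun _ : Fin n => S) i ≫ g') := by
          conv_lhs => rw [← Category.id_comp g', ← biproduct.total, Preadditive.sum_comp]
          simp only [Category.assoc]
        have h4 : t (Fin.last n) = f ≫ g' := by
          rw [← hg, ← hg', ← Category.assoc, Abelian.coimage.fac]
        rw [h4, h3, Preadditive.comp_sum]
        refine Finset.sum_congr rfl fun i _ => ?_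
        rw [hc i, Linear.comp_smul, Category.comp_id, Linear.comp_smul]
        congr 1
        exact biproduct.lift_π _ _
      have h5 := linearIndependent_finSucc'.mp ht
      apply h5.2
      rw [h2]
      exact Submodule.sum_mem _ fun i _ => Submodule.smul_mem _ _
        (Submodule.subset_span ⟨i, rfl⟩)
    have h6 := ker_rk_Rk2b hW h.toRk1 hWK _ hne
    obtain ⟨e⟩ := exists_iso_ker_Rk2b n t
    have h7 := (q.inv_iso hW e (hW.kernel _ hWK h.mem)).1
    rw [ih', h6, h7]
    push_cast
    ring

/-- Linearly independent morphisms `M → S`, `M ∈ F` of degree 0: the image `I` of `M → S^n` has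
`r I = n r S`. Induction on `n`: `I ⊆ S^n ⊞ S`, `I_n` its image in `S^n`, `r I_n = n r S` by induction.
The kernel `K` of `I → I_n` is a subobject of `S`. If `K ≠ 0` then `r K = r S`, and we are done. If
`K = 0` then the last morphism factors through `I_n`, `I_n → S`; `D I_n ≥ 0` (a quotient of `M`:
`D I_n = D M - D (ker)`, `D (ker) ≤ 0` as `M ∈ F`), `r (S^n / I_n) = 0`, so `D (S^n / I_n) ≥ 0`, and
`D (S^n) = 0`, so `D (S^n/I_n) = 0`. By the Hartogs property `I_n → S` extends to `S^n → S`, which is a
linear combination of the projections (`End S = ℂ`): a linear relation, a contradiction. -/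
theorem Rk1H.hom_to (hW : WSerre W) {q : RDX W} {S M : 𝒞} (h : Rk1H q S) (hM : q.Fc M)
    (hD : q.D M = 0) (n : ℕ) (t : Fin n → (M ⟶ S)) (ht : LinearIndependent ℂ t) :
    n * q.r S ≤ q.r M := by
  have h1 := ker_lift_Rk2b hW h hM hD n t ht
  have h2 := q.r_nonneg _ (hW.kernel (biproduct.lift t) hM.1.1 (WSerre.pow hW h.mem n))
  linarith

end M21.E3
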