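import Pool.Agent.H.MP_21b43d_ag.E3.SliceP

/-!
# M21, existence part, B3: a slicing from a stability function on the heart of a bounded t-structure
(Bridgeland, Stability conditions on triangulated categories, Proposition 5.3)
-/

open CategoryTheory CategoryTheory.Limits CategoryTheory.Pretriangulated
  CategoryTheory.Triangulated

universe v u

noncomputable section

namespace M21.E3

variable {C : Type u} [Category.{v} C] [HasZeroObject C] [HasShift C ℤ] [Preadditive C]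
  [∀ n : ℤ, (shiftFunctor C n).Additive] [Pretriangulated C] [IsTriangulated C]
  (t : TStructure C) (c : Charge (Hrt t))

/-- An HN filtration in the heart is an HN filtration in `C` (`exists_triangle_of_ses`), shifted by
`n`. -/
theorem HN_of_HNA {L : List ℝ} {E : Hrt t} (h : c.HNA L E) (n : ℤ) :
    HN (PH t c) (L.map (· + (n : ℝ))) (E.obj⟦n⟧) := by
  induction h with
  | zero E hE =>
    exact HN.zero _ ((A1_isZero_shift n).2 ((isZero_heart_iff t E).1 hE))
  | step L S hS hF hB hφ ih =>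
    obtain ⟨δ, hδ⟩ := exists_triangle_of_ses t S hS
    refine HN.step (c.ph S.X₃ + (n : ℝ)) (L.map (· + (n : ℝ)))
      ((Triangle.shiftFunctor C n).obj (Triangle.mk ((hι t).map S.f) ((hι t).map S.g) δ))
      (Triangle.shift_distinguished _ hδ n) ih ?_ ?_ ?_
    · exact Or.inr ⟨n, S.X₃, ⟨Iso.refl _⟩, hB, rfl⟩
    · intro h0
      exact hB.1 ((isZero_heart_iff t S.X₃).2 ((A1_isZero_shift n).1 h0))
    · intro ψ hψ
      obtain ⟨χ, hχ, rfl⟩ := List.mem_map.1 hψ
      have := hφ χ hχ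
      linarith

theorem HN_append_aux {P : ℝ → ObjectProperty C} {L L' : List ℝ} {A E B : C}
    (h₃ : HN P L' B) (f : A ⟶ E) (g : E ⟶ B) (δ : B ⟶ A⟦(1 : ℤ)⟧)
    (hT : Triangle.mk f g δ ∈ distTriang C) (h₁ : HN P L A)
    (h : ∀ a ∈ L, ∀ b ∈ L', b < a) : HN P (L' ++ L) E := by
  induction h₃ generalizing A E with
  | zero B hB =>
    have hiso : IsIso f := (Triangle.isZero₃_iff_isIso₁ _ hT).1 hB
    exact h₁.of_iso (asIso f)
  | step φ L'' T' hT' hF hA hA0 hφ ih =>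
    have hR : (Triangle.mk f g δ).rotate.rotate ∈ distTriang C :=
      rot_of_distTriang _ (rot_of_distTriang _ hT)
    obtain ⟨Z, v, w, m₁, m₃, k, H1, H2⟩ :=
      A2a_oct (Triangle.mk f g δ).rotate.rotate hR T'.mor₁ T'.mor₂ T'.mor₃ hT'
    have K1 := inv_rot_of_distTriang _ (inv_rot_of_distTriang _ H1)
    have K2 := inv_rot_of_distTriang _ (inv_rot_of_distTriang _ H2)
    have hA1 : HN P L ((A⟦(1 : ℤ)⟧)⟦(-1 : ℤ)⟧) := h₁.of_iso (shiftShiftNeg A (1 : ℤ)).symm
    have I1 := ih _ _ _ K1 hA1 (fun a ha b hb => h a ha b (List.mem_cons_of_mem _ hb))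
    have I2 := HN.step φ (L'' ++ L) _ K2 I1 hA hA0 (by
      intro ψ hψ
      rcases List.mem_append.1 hψ with hψ | hψ
      · exact hφ ψ hψ
      · exact h ψ hψ φ List.mem_cons_self)
    exact I2.of_iso (shiftShiftNeg E (1 : ℤ))

/-- Concatenation of HN filtrations: if `A → E → B →` is distinguished, `HN L A`, `HN L' B` and all
phases in `L` are larger than all phases in `L'`, then `HN (L' ++ L) E`. Induction on `HN L' B`
(octahedral axiom: for `B' → B → B_n` let `E'` be the fibre of `E → B → B_n`; then `A → E' → B'` and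
`E' → E → B_n` are distinguished; compare `A2a_oct` in `A2a.lean`). -/
theorem HN_append {P : ℝ → ObjectProperty C} {L L' : List ℝ} (T : Triangle C)
    (hT : T ∈ distTriang C) (h₁ : HN P L T.obj₁) (h₃ : HN P L' T.obj₃)
    (h : ∀ a ∈ L, ∀ b ∈ L', b < a) : HN P (L' ++ L) T.obj₂ :=
  HN_append_aux h₃ T.mor₁ T.mor₂ T.mor₃ hT h₁ h

theorem HNA_mem_SliceHN {L : List ℝ} {E : Hrt t} (h : c.HNA L E) :
    ∀ ψ ∈ L, 0 < ψ ∧ ψ ≤ 1 := by
  induction h with
  | zero E hE =>
    intro ψ hψ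
    exact absurd hψ List.not_mem_nil
  | step L S hS hF hB hφ ih =>
    intro ψ hψ
    rcases List.mem_cons.1 hψ with rfl | hψ
    · exact c.ph_mem hB.1
    · exact ih ψ hψ

theorem exists_HN_pure (hc : ∀ E : Hrt t, ∃ L, c.HNA L E) (b : ℤ) (F : C)
    (h₁ : t.IsGE F b) (h₂ : t.IsLE F b) :
    ∃ L : List ℝ, HN (PH t c) L F ∧ ∀ ψ ∈ L, -(b : ℝ) < ψ ∧ ψ ≤ -(b : ℝ) + 1 := by
  have hg : t.IsGE (F⟦b⟧) 0 := t.isGE_shift F b b 0
  have hl : t.IsLE (F⟦b⟧) 0 := t.isLE_shift F b b 0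
  have hh : t.heart (F⟦b⟧) := by
    rw [TStructure.mem_heart_iff]
    exact ⟨hl, hg⟩
  obtain ⟨L, hL⟩ := hc ⟨F⟦b⟧, hh⟩
  refine ⟨L.map (· + ((-b : ℤ) : ℝ)), ?_, ?_⟩
  · exact (HN_of_HNA t c hL (-b)).of_iso (shiftShiftNeg F b)
  · intro ψ hψ
    obtain ⟨χ, hχ, rfl⟩ := List.mem_map.1 hψ
    have := HNA_mem_SliceHN t c hL χ hχ
    push_cast
    constructor <;> linarith [this.1, this.2]

/-- Every bounded object has an HN filtration: induction on `b - a` where `t.IsGE E a`,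
`t.IsLE E b`: the triangle `τ^{< b} E → E → τ^{≥ b} E`, where `τ^{≥ b} E ≅ M[-b]` with `M` in the
heart, has phases in `(-b, -b + 1]` on the right and `> -b + 1` on the left (prove this bound along
the induction: all phases of an object with `IsLE b` are `> -b`). -/
theorem exists_HN (hc : ∀ E : Hrt t, ∃ L, c.HNA L E) (a : ℤ) (k : ℕ) (E : C)
    (h₁ : t.IsGE E a) (h₂ : t.IsLE E (a + k)) :
    ∃ L : List ℝ, HN (PH t c) L E ∧ ∀ ψ ∈ L, -((a + k : ℤ) : ℝ) < ψ := by
  induction k generalizing E with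
  | zero =>
    have h₂' : t.IsLE E a := by simpa using h₂
    obtain ⟨L, hL, hb⟩ := exists_HN_pure t c hc a E h₁ h₂'
    exact ⟨L, hL, fun ψ hψ => by simpa using (hb ψ hψ).1⟩
  | succ k ih =>
    have hb : t.IsLE E (a + (k : ℤ) + 1) := by
      have : (a + ((k + 1 : ℕ) : ℤ)) = a + (k : ℤ) + 1 := by push_cast; ring
      rwa [this] at h₂
    set b : ℤ := a + (k : ℤ) + 1 with hbdef
    have hT := t.triangleLTGE_distinguished b E
    have a1 : t.IsLE ((t.truncLT b).obj E) (a + (k : ℤ)) :=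
      t.isLE_truncLT_obj E b (a + (k : ℤ)) (by lia)
    have a3 : t.IsGE ((t.truncGE b).obj E) b := inferInstance
    have a2 : t.IsGE ((t.truncLT b).obj E) a := by
      refine t.isGE₂ _ (inv_rot_of_distTriang _ hT) a ?_ h₁
      change t.IsGE (((t.truncGE b).obj E)⟦(-1 : ℤ)⟧) a
      have : t.IsGE (((t.truncGE b).obj E)⟦(-1 : ℤ)⟧) (b + 1) := t.isGE_shift _ b (-1) (b + 1)
      exact t.isGE_of_ge _ a (b + 1)
    have a4 : t.IsLE ((t.truncGE b).obj E) b := by
      refine t.isLE₂ _ (rot_of_distTriang _ hT) b hb ?_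
      change t.IsLE (((t.truncLT b).obj E)⟦(1 : ℤ)⟧) b
      have : t.IsLE (((t.truncLT b).obj E)⟦(1 : ℤ)⟧) (a + (k : ℤ) - 1) :=
        t.isLE_shift _ (a + (k : ℤ)) 1 (a + (k : ℤ) - 1)
      exact t.isLE_of_le _ (a + (k : ℤ) - 1) b
    obtain ⟨L, hL, hL'⟩ := ih _ a2 a1
    obtain ⟨L', hM, hM'⟩ := exists_HN_pure t c hc b _ a3 a4
    have key : ((b : ℤ) : ℝ) = ((a + (k : ℤ) : ℤ) : ℝ) + 1 := by
      rw [hbdef]; push_cast; ring
    have key2 : ((a + ((k + 1 : ℕ) : ℤ) : ℤ) : ℝ) = (b : ℝ) := by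
      rw [hbdef]; push_cast; ring
    refine ⟨L' ++ L, HN_append ((t.triangleLTGE b).obj E) hT hL hM ?_, ?_⟩
    · intro x hx y hy
      have h3 := hL' x hx
      have h4 := (hM' y hy).2
      linarith
    · intro ψ hψ
      rw [key2]
      rcases List.mem_append.1 hψ with hψ | hψ
      · exact (hM' ψ hψ).1
      · have h3 := hL' ψ hψ
        linarith

end M21.E3
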