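import Pool.Agent.H.MP_21b43d_ag.StabDefs
import Pool.Agent.H.MP_21b43d_ag.A2a
import Pool.Agent.H.MP_21b43d_ag.E3.HeartAb
import Pool.Agent.H.MP_21b43d_ag.E3.HNab3

/-!
# M21, existence part, B3: a slicing from a stability function on the heart of a bounded t-structure
(Bridgeland, Stability conditions on triangulated categories, Proposition 5.3)
-/

open CategoryTheory CategoryTheory.Limits CategoryTheory.Pretriangulated
  CategoryTheory.Triangulated

universe v u

noncomputable section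

namespace M21.E3

variable {C : Type u} [Category.{v} C] [HasZeroObject C] [HasShift C ℤ] [Preadditive C]
  [∀ n : ℤ, (shiftFunctor C n).Additive] [Pretriangulated C] [IsTriangulated C]
  (t : TStructure C) (c : Charge (Hrt t))

/-- The semistable objects of phase `φ`: zero objects, and the objects isomorphic to `M[n]` with `M`
a semistable object of the heart and `φ = ph M + n`. -/
def PH (φ : ℝ) : ObjectProperty C := fun E =>
  IsZero E ∨ ∃ (n : ℤ) (M : Hrt t), Nonempty (E ≅ M.obj⟦n⟧) ∧ c.SS M ∧ φ = c.ph M + n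

theorem PH_iso (φ : ℝ) {E F : C} (e : E ≅ F) (h : PH t c φ E) : PH t c φ F := by
  rcases h with h | ⟨n, M, ⟨i⟩, hM, hφ⟩
  · exact Or.inl (h.of_iso e.symm)
  · exact Or.inr ⟨n, M, ⟨e.symm ≪≫ i⟩, hM, hφ⟩

/-- `P (φ + 1) (E[1]) ↔ P φ E`. -/
theorem PH_shift (φ : ℝ) (E : C) : PH t c (φ + 1) (E⟦(1 : ℤ)⟧) ↔ PH t c φ E := by
  constructor
  · rintro (h | ⟨n, M, ⟨i⟩, hM, hφ⟩)
    · exact Or.inl ((A1_isZero_shift 1).1 h)
    · refine Or.inr ⟨n - 1, M, ⟨?_⟩, hM, ?_⟩
      · exact ((shiftFunctorCompIsoId C (1 : ℤ) (-1) (by norm_num)).app E).symm ≪≫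
          (shiftFunctor C (-1 : ℤ)).mapIso i ≪≫
          ((shiftFunctorAdd' C n (-1) (n - 1) (by ring)).app M.obj).symm
      · push_cast
        linarith
  · rintro (h | ⟨n, M, ⟨i⟩, hM, hφ⟩)
    · exact Or.inl ((A1_isZero_shift 1).2 h)
    · refine Or.inr ⟨n + 1, M, ⟨?_⟩, hM, ?_⟩
      · exact (shiftFunctor C (1 : ℤ)).mapIso i ≪≫
          ((shiftFunctorAdd' C n 1 (n + 1) rfl).app M.obj).symm
      · push_cast
        linarith

/-- The inclusion of the heart preserves binary biproducts. -/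
def hbiprod_SliceP (M N : Hrt t) : (M ⊞ N).obj ≅ M.obj ⊞ N.obj :=
  haveI : PreservesBinaryBiproducts (hι t) := preservesBinaryBiproducts_of_preservesBiproducts _
  (hι t).mapBiprod M N

/-- The shift preserves binary biproducts. -/
def shbiprod_SliceP (X Y : C) (n : ℤ) : (X ⊞ Y)⟦n⟧ ≅ X⟦n⟧ ⊞ Y⟦n⟧ :=
  haveI : PreservesBinaryBiproducts (shiftFunctor C n) :=
    preservesBinaryBiproducts_of_preservesBiproducts _
  (shiftFunctor C n).mapBiprod X Y

theorem shift_eq_SliceP {M N : Hrt t} {n k : ℤ} (hM : c.SS M) (hN : c.SS N)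
    (h : c.ph M + (n : ℝ) = c.ph N + k) : n = k := by
  obtain ⟨m1, m2⟩ := c.ph_mem hM.1
  obtain ⟨n1, n2⟩ := c.ph_mem hN.1
  have h1 : (n : ℝ) < k + 1 := by linarith
  have h2 : (k : ℝ) < n + 1 := by linarith
  have h3 : n < k + 1 := by exact_mod_cast h1
  have h4 : k < n + 1 := by exact_mod_cast h2
  omega

/-- closed under direct sums: for nonzero `E ≅ M[n]`, `F ≅ N[k]` of the same phase `φ`: `n = k`
because `ph M, ph N ∈ (0, 1]`, and `E ⊞ F ≅ (M ⊞ N)[n]` (`ss_biprod`; the biproduct of the heart is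
the biproduct of `C`). -/
theorem PH_sum (φ : ℝ) (E F : C) (hE : PH t c φ E) (hF : PH t c φ F) : PH t c φ (E ⊞ F) := by
  rcases hE with hE0 | ⟨n, M, ⟨i⟩, hM, hφ⟩
  · refine PH_iso t c φ ?_ hF
    exact
      { hom := biprod.inr
        inv := biprod.snd
        hom_inv_id := by simp
        inv_hom_id := by
          apply biprod.hom_ext'
          · exact hE0.eq_of_src _ _
          · simp }
  · rcases hF with hF0 | ⟨k, N, ⟨j⟩, hN, hψ⟩
    · refine PH_iso t c φ ?_ (Or.inr ⟨n, M, ⟨i⟩, hM, hφ⟩)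
      exact
        { hom := biprod.inl
          inv := biprod.fst
          hom_inv_id := by simp
          inv_hom_id := by
            apply biprod.hom_ext'
            · simp
            · exact hF0.eq_of_src _ _ }
    · have hnk : n = k := shift_eq_SliceP t c hM hN (hφ.symm.trans hψ)
      subst hnk
      have hph : c.ph M = c.ph N := by linarith
      obtain ⟨h1, h2⟩ := c.ss_biprod hM hN hph
      refine Or.inr ⟨n, M ⊞ N, ⟨?_⟩, h1, by rw [h2]; exact hφ⟩
      exact biprod.mapIso i j ≪≫ (shbiprod_SliceP M.obj N.obj n).symm ≪≫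
        (shiftFunctor C n).mapIso (hbiprod_SliceP t M N).symm

/-- Hom vanishing: `E ≅ M[n]`, `F ≅ N[k]`, `ph N + k < ph M + n`: then `k ≤ n`. If `k < n`:
`M[n] → N[k]` is zero because `M[n]` is `≤ -n` and `N[k]` is `≥ -k`. If `k = n`: shift back, the map
`M → N` of the heart is zero by `ss_hom_zero`. -/
theorem PH_hom_zero (φ ψ : ℝ) (E F : C) (h : ψ < φ) (hE : PH t c φ E) (hF : PH t c ψ F)
    (f : E ⟶ F) : f = 0 := by
  rcases hE with hE0 | ⟨n, M, ⟨i⟩, hM, hφ⟩
  · exact hE0.eq_of_src _ _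
  · rcases hF with hF0 | ⟨k, N, ⟨j⟩, hN, hψ⟩
    · exact hF0.eq_of_tgt _ _
    · have hg : i.inv ≫ f ≫ j.hom = 0 := by
        generalize i.inv ≫ f ≫ j.hom = g
        obtain ⟨m1, m2⟩ := c.ph_mem hM.1
        obtain ⟨n1, n2⟩ := c.ph_mem hN.1
        have h1 : (k : ℝ) < n + 1 := by linarith
        have h2 : k < n + 1 := by exact_mod_cast h1
        rcases eq_or_ne k n with rfl | hkn
        · obtain ⟨g', rfl⟩ := (shiftFunctor C k).map_surjective g
          have h3 : g' = 0 := by
            have h4 := c.ss_hom_zero hM hN (by linarith)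
              ((hι t).preimage (show (hι t).obj M ⟶ (hι t).obj N from g'))
            have h5 := congrArg (hι t).map h4
            rw [(hι t).map_preimage, Functor.map_zero] at h5
            exact h5
          rw [h3, Functor.map_zero]
        · have hM1 : t.IsLE M.obj 0 := ((t.mem_heart_iff _).1 M.property).1
          have hN1 : t.IsGE N.obj 0 := ((t.mem_heart_iff _).1 N.property).2
          have hM2 : t.IsLE (M.obj⟦n⟧) (-n) := t.isLE_shift _ 0 n (-n) (by lia)
          have hN2 : t.IsGE (N.obj⟦k⟧) (-k) := t.isGE_shift _ 0 k (-k) (by lia)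
          exact t.zero g (-n) (-k) (by lia)
      have h3 : f = i.hom ≫ (i.inv ≫ f ≫ j.hom) ≫ j.inv := by simp
      rw [h3, hg, zero_comp, comp_zero]

end M21.E3
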