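import Mathlib

/-!
# M21, stage 3: central charges with values in `ℤ[i]` on an abelian category, slopes

`StabFun A`: additive functions `R`, `D` on the abelian category `A` (real and imaginary part of the
central charge) with `D ≥ 0` and `R < 0` on nonzero objects with `D = 0`.
-/

open CategoryTheory CategoryTheory.Limits ZeroObject

noncomputable section

universe v u

namespace M21

/-- the slope of `(R, D)` (real and imaginary part of a point of the upper half plane) -/
def slopeZ (R D : ℤ) : WithTop ℚ := if D = 0 then ⊤ else ((-(R : ℚ) / D : ℚ) : WithTop ℚ)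

theorem slopeZ_lt_iff {R D R' D' : ℤ} (hD : 0 ≤ D) (hD' : 0 ≤ D') (h : D = 0 → R < 0)
    (h' : D' = 0 → R' < 0) : slopeZ R D < slopeZ R' D' ↔ R' * D < R * D' := by
  unfold slopeZ
  by_cases h0 : D = 0
  · rw [if_pos h0, h0]
    have hR := h h0
    constructor
    · intro h1
      exact absurd h1 (not_top_lt)
    · intro h1
      nlinarith
  · have hD1 : 0 < D := lt_of_le_of_ne hD (Ne.symm h0)
    rw [if_neg h0]
    by_cases h0' : D' = 0
    · rw [if_pos h0', h0']
      have hR' := h' h0'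
      constructor
      · intro _
        nlinarith
      · intro _
        exact WithTop.coe_lt_top _
    · have hD1' : 0 < D' := lt_of_le_of_ne hD' (Ne.symm h0')
      rw [if_neg h0', WithTop.coe_lt_coe]
      have e1 : (0 : ℚ) < D := by exact_mod_cast hD1
      have e2 : (0 : ℚ) < D' := by exact_mod_cast hD1'
      rw [div_lt_div_iff₀ e1 e2]
      constructor
      · intro h1
        have h2 : (R' : ℚ) * D < R * D' := by linarith
        exact_mod_cast h2
      · intro h1
        have h2 : (R' : ℚ) * D < R * D' := by exact_mod_cast h1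
        linarith

theorem slopeZ_le_iff {R D R' D' : ℤ} (hD : 0 ≤ D) (hD' : 0 ≤ D') (h : D = 0 → R < 0)
    (h' : D' = 0 → R' < 0) : slopeZ R D ≤ slopeZ R' D' ↔ R' * D ≤ R * D' := by
  rw [← not_lt, slopeZ_lt_iff hD' hD h' h, not_lt]

variable (A : Type u) [Category.{v} A] [Abelian A]

/-- A central charge `R + i D` with values in `ℤ[i]` on an abelian category. -/
structure StabFun where
  /-- the real part -/
  R : A → ℤ
  /-- the imaginary part -/
  D : A → ℤ
  R_add : ∀ S : ShortComplex A, S.ShortExact → R S.X₂ = R S.X₁ + R S.X₃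
  D_add : ∀ S : ShortComplex A, S.ShortExact → D S.X₂ = D S.X₁ + D S.X₃
  D_nonneg : ∀ E, 0 ≤ D E
  R_neg : ∀ E, ¬ IsZero E → D E = 0 → R E < 0

variable {A}

/-! ### short exact sequences -/

theorem shortExact_cokernel {L E : A} (i : L ⟶ E) [Mono i] :
    (ShortComplex.mk i (cokernel.π i) (cokernel.condition i)).ShortExact where
  exact := ShortComplex.exact_of_g_is_cokernel _ (cokernelIsCokernel i)

theorem shortExact_kernel {E Q : A} (q : E ⟶ Q) [Epi q] :
    (ShortComplex.mk (kernel.ι q) q (kernel.condition q)).ShortExact where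
  exact := ShortComplex.exact_of_f_is_kernel _ (kernelIsKernel q)

theorem shortExact_zero_left {Z E E' : A} (hZ : IsZero Z) (e : E ≅ E') :
    (ShortComplex.mk (0 : Z ⟶ E) e.hom zero_comp).ShortExact where
  exact := by
    refine ShortComplex.exact_of_f_is_kernel _ (KernelFork.IsLimit.ofι _ _
      (fun k _ => 0) (fun k hk => ?_) (fun k hk m _ => hZ.eq_of_tgt _ _))
    have h1 : k = 0 := by
      have h2 := congrArg (fun t => t ≫ e.inv) hk
      simpa using h2
    rw [h1, zero_comp]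
  mono_f := ⟨fun a b _ => hZ.eq_of_tgt a b⟩

theorem shortExact_zero_right {Z E E' : A} (hZ : IsZero Z) (e : E ≅ E') :
    (ShortComplex.mk e.hom (0 : E' ⟶ Z) comp_zero).ShortExact where
  exact := by
    refine ShortComplex.exact_of_g_is_cokernel _ (CokernelCofork.IsColimit.ofπ _ _
      (fun k _ => 0) (fun k hk => ?_) (fun k hk m _ => hZ.eq_of_src _ _))
    have h1 : k = 0 := by
      have h2 := congrArg (fun t => e.inv ≫ t) hk
      simpa using h2
    rw [h1, comp_zero]
  epi_g := ⟨fun a b _ => hZ.eq_of_src a b⟩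

namespace StabFun

variable (Z : StabFun A)

theorem R_zero {E : A} (h : IsZero E) : Z.R E = 0 := by
  have h1 := Z.R_add _ (shortExact_zero_left h (Iso.refl E))
  have h2 : Z.R E = Z.R E + Z.R E := h1
  omega

theorem D_zero {E : A} (h : IsZero E) : Z.D E = 0 := by
  have h1 := Z.D_add _ (shortExact_zero_left h (Iso.refl E))
  have h2 : Z.D E = Z.D E + Z.D E := h1
  omega

theorem R_iso {E F : A} (e : E ≅ F) : Z.R E = Z.R F := by
  have h1 := Z.R_add _ (shortExact_zero_left (isZero_zero A) e)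
  have h2 : Z.R E = Z.R 0 + Z.R F := h1
  rw [h2, Z.R_zero (isZero_zero A), zero_add]

theorem D_iso {E F : A} (e : E ≅ F) : Z.D E = Z.D F := by
  have h1 := Z.D_add _ (shortExact_zero_left (isZero_zero A) e)
  have h2 : Z.D E = Z.D 0 + Z.D F := h1
  rw [h2, Z.D_zero (isZero_zero A), zero_add]

theorem R_le {E : A} (h : Z.D E = 0) : Z.R E ≤ 0 := by
  by_cases h0 : IsZero E
  · exact (Z.R_zero h0).le
  · exact (Z.R_neg E h0 h).le

theorem R_sub {L E : A} (i : L ⟶ E) [Mono i] : Z.R E = Z.R L + Z.R (cokernel i) :=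
  Z.R_add _ (shortExact_cokernel i)

theorem D_sub {L E : A} (i : L ⟶ E) [Mono i] : Z.D E = Z.D L + Z.D (cokernel i) :=
  Z.D_add _ (shortExact_cokernel i)

theorem D_le {L E : A} (i : L ⟶ E) [Mono i] : Z.D L ≤ Z.D E := by
  rw [Z.D_sub i]
  linarith [Z.D_nonneg (cokernel i)]

/-- the slope of an object -/
def slope (E : A) : WithTop ℚ := slopeZ (Z.R E) (Z.D E)

theorem slope_iso {E F : A} (e : E ≅ F) : Z.slope E = Z.slope F := by
  unfold slope
  rw [Z.R_iso e, Z.D_iso e]

theorem slope_lt_iff {E F : A} (hE : ¬ IsZero E) (hF : ¬ IsZero F) :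
    Z.slope E < Z.slope F ↔ Z.R F * Z.D E < Z.R E * Z.D F :=
  slopeZ_lt_iff (Z.D_nonneg E) (Z.D_nonneg F) (Z.R_neg E hE) (Z.R_neg F hF)

theorem slope_le_iff {E F : A} (hE : ¬ IsZero E) (hF : ¬ IsZero F) :
    Z.slope E ≤ Z.slope F ↔ Z.R F * Z.D E ≤ Z.R E * Z.D F :=
  slopeZ_le_iff (Z.D_nonneg E) (Z.D_nonneg F) (Z.R_neg E hE) (Z.R_neg F hF)

section seesaw

variable {S : ShortComplex A} (hS : S.ShortExact) (h₁ : ¬ IsZero S.X₁) (h₂ : ¬ IsZero S.X₂)
  (h₃ : ¬ IsZero S.X₃)

include hS h₁ h₂ h₃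

theorem slope₁₂_le_iff : Z.slope S.X₁ ≤ Z.slope S.X₂ ↔ Z.slope S.X₁ ≤ Z.slope S.X₃ := by
  rw [Z.slope_le_iff h₁ h₂, Z.slope_le_iff h₁ h₃, Z.R_add S hS, Z.D_add S hS]
  constructor <;> intro h <;> nlinarith

theorem slope₁₂_lt_iff : Z.slope S.X₁ < Z.slope S.X₂ ↔ Z.slope S.X₁ < Z.slope S.X₃ := by
  rw [Z.slope_lt_iff h₁ h₂, Z.slope_lt_iff h₁ h₃, Z.R_add S hS, Z.D_add S hS]
  constructor <;> intro h <;> nlinarith

theorem slope₂₃_le_iff : Z.slope S.X₂ ≤ Z.slope S.X₃ ↔ Z.slope S.X₁ ≤ Z.slope S.X₃ := by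
  rw [Z.slope_le_iff h₂ h₃, Z.slope_le_iff h₁ h₃, Z.R_add S hS, Z.D_add S hS]
  constructor <;> intro h <;> nlinarith

theorem slope₂₃_lt_iff : Z.slope S.X₂ < Z.slope S.X₃ ↔ Z.slope S.X₁ < Z.slope S.X₃ := by
  rw [Z.slope_lt_iff h₂ h₃, Z.slope_lt_iff h₁ h₃, Z.R_add S hS, Z.D_add S hS]
  constructor <;> intro h <;> nlinarith

theorem slope₂₁_le_iff : Z.slope S.X₂ ≤ Z.slope S.X₁ ↔ Z.slope S.X₃ ≤ Z.slope S.X₁ := by
  rw [Z.slope_le_iff h₂ h₁, Z.slope_le_iff h₃ h₁, Z.R_add S hS, Z.D_add S hS]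
  constructor <;> intro h <;> nlinarith

theorem slope₃₂_le_iff : Z.slope S.X₃ ≤ Z.slope S.X₂ ↔ Z.slope S.X₃ ≤ Z.slope S.X₁ := by
  rw [Z.slope_le_iff h₃ h₂, Z.slope_le_iff h₃ h₁, Z.R_add S hS, Z.D_add S hS]
  constructor <;> intro h <;> nlinarith

end seesaw

/-- Semistability: subobjects have slopes at most the slope of `E`. -/
def SS (E : A) : Prop := ∀ (L : A) (i : L ⟶ E), Mono i → ¬ IsZero L → Z.slope L ≤ Z.slope E

theorem SS.of_iso {Z : StabFun A} {E F : A} (e : E ≅ F) (h : Z.SS E) : Z.SS F := by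
  intro L i hi hL
  rw [← Z.slope_iso e]
  exact h L (i ≫ e.inv) (mono_comp _ _) hL

theorem SS.quot {Z : StabFun A} {E : A} (h : Z.SS E) (hE : ¬ IsZero E) {Q : A} (q : E ⟶ Q) [Epi q]
    (hQ : ¬ IsZero Q) : Z.slope E ≤ Z.slope Q := by
  by_cases h0 : IsZero (kernel q)
  · have : Mono q := by
      refine Preadditive.mono_of_kernel_zero ?_
      exact h0.eq_of_src _ _
    have : IsIso q := isIso_of_mono_of_epi q
    exact (Z.slope_iso (asIso q)).le
  · have h1 := h (kernel q) (kernel.ι q) inferInstance h0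
    have h2 := (Z.slope₁₂_le_iff (shortExact_kernel q) h0 hE hQ).mp h1
    exact (Z.slope₂₃_le_iff (shortExact_kernel q) h0 hE hQ).mpr h2

/-- There are no nonzero maps from a semistable object to one of smaller slope. -/
theorem SS.hom_zero {Z : StabFun A} {E F : A} (hE : Z.SS E) (hF : Z.SS F)
    (h : Z.slope F < Z.slope E) (f : E ⟶ F) : f = 0 := by
  by_contra hf
  have h0 : ¬ IsZero (Abelian.image f) := by
    intro h1
    apply hf
    rw [← Abelian.image.fac f, h1.eq_of_tgt (Abelian.factorThruImage f) 0, zero_comp]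
  have hE0 : ¬ IsZero E := fun h1 => hf (h1.eq_of_src _ _)
  have h1 := hE.quot hE0 (Abelian.factorThruImage f) h0
  have h2 := hF _ (Abelian.image.ι f) inferInstance h0
  exact absurd (h1.trans h2) (not_le.mpr h)

/-- An extension of semistable objects of the same slope is semistable. -/
theorem SS.ext {Z : StabFun A} {S : ShortComplex A} (hS : S.ShortExact) (h1 : Z.SS S.X₁)
    (h3 : Z.SS S.X₃) {s : WithTop ℚ} (e1 : ¬ IsZero S.X₁ → Z.slope S.X₁ = s)
    (e3 : ¬ IsZero S.X₃ → Z.slope S.X₃ = s) (h2 : ¬ IsZero S.X₂) :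
    Z.SS S.X₂ ∧ Z.slope S.X₂ = s := by
  have hs : Z.slope S.X₂ = s := by
    by_cases z1 : IsZero S.X₁
    · have := hS.mono_f
      have := hS.epi_g
      have : Mono S.g := by
        rw [hS.exact.mono_g_iff]
        exact z1.eq_of_src _ _
      have : IsIso S.g := isIso_of_mono_of_epi S.g
      have z3 : ¬ IsZero S.X₃ := fun z3 => h2 (z3.of_iso (asIso S.g))
      rw [Z.slope_iso (asIso S.g), e3 z3]
    · by_cases z3 : IsZero S.X₃
      · have := hS.mono_f
        have : Epi S.f := by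
          rw [hS.exact.epi_f_iff]
          exact z3.eq_of_tgt _ _
        have : IsIso S.f := isIso_of_mono_of_epi S.f
        rw [← Z.slope_iso (asIso S.f), e1 z1]
      · have a1 := e1 z1
        have a3 := e3 z3
        have b1 := (Z.slope₁₂_le_iff hS z1 h2 z3).mpr (by rw [a1, a3])
        have b2 := (Z.slope₂₁_le_iff hS z1 h2 z3).mpr (by rw [a1, a3])
        rw [← a1]
        exact le_antisymm b2 b1
  refine ⟨?_, hs⟩
  intro L i hi hL
  rw [hs]
  let K := kernel (i ≫ S.g)
  let I := Abelian.image (i ≫ S.g)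
  have hT : (ShortComplex.mk (kernel.ι (i ≫ S.g)) (Abelian.factorThruImage (i ≫ S.g)) (by
      rw [← cancel_mono (Abelian.image.ι (i ≫ S.g)), Category.assoc, Abelian.image.fac,
        kernel.condition, zero_comp])).ShortExact := by
    refine { exact := ?_ }
    refine ShortComplex.exact_of_f_is_kernel _ (KernelFork.IsLimit.ofι _ _
      (fun k hk => kernel.lift (i ≫ S.g) k (by
        rw [← Abelian.image.fac (i ≫ S.g), ← Category.assoc, hk, zero_comp]))
      (fun k hk => kernel.lift_ι _ _ _)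
      (fun k hk m hm => by
        rw [← cancel_mono (kernel.ι (i ≫ S.g)), hm, kernel.lift_ι]))
  have hfm := hS.mono_f
  have hK : ¬ IsZero K → Z.slope K ≤ s := by
    intro hK0
    have hw : (kernel.ι (i ≫ S.g) ≫ i) ≫ S.g = 0 := by
      rw [Category.assoc, kernel.condition]
    let l : K ⟶ S.X₁ := hS.exact.lift (kernel.ι (i ≫ S.g) ≫ i) hw
    have hl : l ≫ S.f = kernel.ι (i ≫ S.g) ≫ i := hS.exact.lift_f _ _
    have hm : Mono (l ≫ S.f) := by rw [hl]; exact mono_comp _ _
    have hlm : Mono l := mono_of_mono l S.f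
    have z1 : ¬ IsZero S.X₁ := by
      intro z1
      apply hK0
      rw [IsZero.iff_id_eq_zero, ← cancel_mono l]
      exact z1.eq_of_tgt _ _
    rw [← e1 z1]
    exact h1 K l hlm hK0
  have hI : ¬ IsZero I → Z.slope I ≤ s := by
    intro hI0
    have z3 : ¬ IsZero S.X₃ := by
      intro z3
      apply hI0
      rw [IsZero.iff_id_eq_zero, ← cancel_mono (Abelian.image.ι (i ≫ S.g))]
      exact z3.eq_of_tgt _ _
    rw [← e3 z3]
    exact h3 I (Abelian.image.ι (i ≫ S.g)) inferInstance hI0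
  by_cases hK0 : IsZero K
  · have : Mono (Abelian.factorThruImage (i ≫ S.g)) := by
      have := hT.exact.mono_g_iff
      exact this.mpr (hK0.eq_of_src _ _)
    have : IsIso (Abelian.factorThruImage (i ≫ S.g)) := isIso_of_mono_of_epi _
    have hI0 : ¬ IsZero I := fun h0 => hL (h0.of_iso (asIso (Abelian.factorThruImage (i ≫ S.g))))
    rw [Z.slope_iso (asIso (Abelian.factorThruImage (i ≫ S.g)))]
    exact hI hI0
  · by_cases hI0 : IsZero I
    · have : Epi (kernel.ι (i ≫ S.g)) := by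
        have := hT.exact.epi_f_iff
        exact this.mpr (hI0.eq_of_tgt _ _)
      have : IsIso (kernel.ι (i ≫ S.g)) := isIso_of_mono_of_epi _
      rw [← Z.slope_iso (asIso (kernel.ι (i ≫ S.g)))]
      exact hK hK0
    · rcases le_total (Z.slope K) (Z.slope I) with h4 | h4
      · exact ((Z.slope₂₃_le_iff hT hK0 hL hI0).mpr h4).trans (hI hI0)
      · exact ((Z.slope₂₁_le_iff hT hK0 hL hI0).mpr h4).trans (hK hK0)

end StabFun

end M21
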