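import Pool.Agent.H.MP_21b43d_ag.E3.Tilt
import Pool.Agent.H.MP_21b43d_ag.E3.DbW2
import Pool.Agent.H.MP_21b43d_ag.E3.HNab

/-!
# M21, existence part, B7: the stability function on the tilted heart; the tilted heart is noetherian
-/

open CategoryTheory CategoryTheory.Limits CategoryTheory.Pretriangulated
  CategoryTheory.Triangulated

universe w v u

noncomputable section

namespace M21.E3

variable {𝒞 : Type u} [Category.{v} 𝒞] [Abelian 𝒞] [HasDerivedCategory.{w} 𝒞]
  {W : ObjectProperty 𝒞}

/-- The two conditions on `(r, D, χ)` used for the tilt of slope 0 with parameter `t`. -/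
structure Pos (q : RDX W) (t : ℤ) : Prop where
  /-- `χ < t r` on the nonzero objects of `F` of degree 0 -/
  bound : ∀ M, q.Fc M → q.D M = 0 → ¬ IsZero M → q.x M < t * q.r M
  /-- bounded growth: a torsion-free `M` is contained only in torsion-free `M'` of the same rank and
  degree with bounded Euler characteristic -/
  hull : ∀ M, q.Tf M → ∃ n : ℤ, ∀ (M' : 𝒞) (i : M ⟶ M'), Mono i → q.Tf M' → q.r M' = q.r M →
    q.D M' = q.D M → q.x M' ≤ n

/-- minus the real part of the central charge on `𝒞` -/
def mm (q : RDX W) (t : ℤ) (M : 𝒞) : ℤ := q.x M - t * q.r M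

theorem addOn_D (q : RDX W) : AddOn W q.D := fun S hS h₁ h₂ h₃ => (q.add S hS h₁ h₂ h₃).2.1

theorem addOn_mm (q : RDX W) (t : ℤ) : AddOn W (mm q t) := fun S hS h₁ h₂ h₃ => by
  unfold mm
  rw [(q.add S hS h₁ h₂ h₃).1, (q.add S hS h₁ h₂ h₃).2.2]
  ring

/-- An object of the derived category without cohomology is zero. -/
theorem isZero_of_HH_TCharge (K : DerivedCategory 𝒞) (h : ∀ i, IsZero (HH i K)) : IsZero K := by
  obtain ⟨Z, hZ⟩ := HasZeroObject.zero (C := DerivedCategory 𝒞)
  have h1 : IsIso (0 : K ⟶ Z) := by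
    rw [DerivedCategory.isIso_iff]
    intro n
    have hn : IsZero ((DerivedCategory.homologyFunctor 𝒞 n).obj Z) :=
      (DerivedCategory.homologyFunctor 𝒞 n).map_isZero hZ
    exact ⟨⟨0, (h n).eq_of_src _ _, hn.eq_of_tgt _ _⟩⟩
  exact hZ.of_iso (asIso (0 : K ⟶ Z))

variable [(dbW W).IsTriangulated]

/-- Additive functions are additive on short exact sequences of the tilted heart. -/
theorem eul_heart_add_TCharge (hW : WSerre W) (q : RDX W) (e : 𝒞 → ℤ) (he : AddOn W e)
    (S : ShortComplex (Hrt (tilt hW q))) (hS : S.ShortExact) :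
    eul e S.X₂.obj.obj = eul e S.X₁.obj.obj + eul e S.X₃.obj.obj := by
  obtain ⟨δ, hδ⟩ := exists_triangle_of_ses (tilt hW q) S hS
  have h := (dbW W).ι.map_distinguished _ hδ
  exact eul_add hW e he _ h S.X₁.obj.property S.X₂.obj.property S.X₃.obj.property

/-- The values of the stability function on an object of the tilted heart. -/
theorem eul_heart_TCharge (hW : WSerre W) (q : RDX W) (e : 𝒞 → ℤ) (he : AddOn W e)
    (E : Hrt (tilt hW q)) :
    eul e E.obj.obj = e (HH 0 E.obj.obj) - e (HH (-1) E.obj.obj) :=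
  eul_two hW e he _ ((tilt_heart_iff hW q E.obj).1 E.property).1

/-- The degrees of the cohomology objects of an object of the tilted heart. -/
theorem D_heart_TCharge (hW : WSerre W) (q : RDX W) (E : Hrt (tilt hW q)) :
    0 ≤ q.D (HH 0 E.obj.obj) ∧ q.D (HH (-1) E.obj.obj) ≤ 0 := by
  obtain ⟨-, h0, h1⟩ := (tilt_heart_iff hW q E.obj).1 E.property
  exact ⟨(q.Tc_D hW h0).1, h1.2 _ (𝟙 _) inferInstance h1.1.1⟩

/-- The stability function on the tilted heart: `D K = D (H^0) - D (H^(-1)) ≥ 0` by `Tc_D` and the
definition of `F`; if it is 0 then `r (H^0) = 0` and `D (H^0) = D (H^(-1)) = 0`, so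
`χ (H^0) - t r (H^0) ≥ 0` and `- (χ - t r) (H^(-1)) ≥ 0`, with a strict inequality if `K ≠ 0`.
Additivity: short exact sequences are triangles, `eul_add`. -/
def tCharge (hW : WSerre W) (q : RDX W) (t : ℤ) (hq : Pos q t) : Charge (Hrt (tilt hW q)) where
  D K := eul q.D K.obj.obj
  m K := eul (mm q t) K.obj.obj
  D_add S hS := eul_heart_add_TCharge hW q q.D (addOn_D q) S hS
  m_add S hS := eul_heart_add_TCharge hW q (mm q t) (addOn_mm q t) S hS
  D_nonneg E := by
    rw [eul_heart_TCharge hW q q.D (addOn_D q) E]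
    have h := D_heart_TCharge hW q E
    omega
  m_pos E h0 h := by
    rw [eul_heart_TCharge hW q q.D (addOn_D q) E] at h0
    rw [eul_heart_TCharge hW q (mm q t) (addOn_mm q t) E]
    have hD := D_heart_TCharge hW q E
    have hD0 : q.D (HH 0 E.obj.obj) = 0 := by omega
    have hD1 : q.D (HH (-1) E.obj.obj) = 0 := by omega
    obtain ⟨hz, hT, hF⟩ := (tilt_heart_iff hW q E.obj).1 E.property
    have hr : q.r (HH 0 E.obj.obj) = 0 := (q.Tc_D hW hT).2 hD0
    have a1 : ¬ IsZero (HH 0 E.obj.obj) → 0 < mm q t (HH 0 E.obj.obj) := by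
      intro hn
      have h1 := q.x_pos _ hT.1 hr hD0 hn
      unfold mm
      rw [hr]
      omega
    have a2 : ¬ IsZero (HH (-1) E.obj.obj) → mm q t (HH (-1) E.obj.obj) < 0 := by
      intro hn
      have h1 := hq.bound _ hF hD1 hn
      unfold mm
      omega
    have b1 : IsZero (HH 0 E.obj.obj) → mm q t (HH 0 E.obj.obj) = 0 := by
      intro hn
      have h1 := q.inv_zero hW hn
      unfold mm
      rw [h1.1, h1.2.2]
      omega
    have b2 : IsZero (HH (-1) E.obj.obj) → mm q t (HH (-1) E.obj.obj) = 0 := by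
      intro hn
      have h1 := q.inv_zero hW hn
      unfold mm
      rw [h1.1, h1.2.2]
      omega
    by_cases c0 : IsZero (HH 0 E.obj.obj)
    · by_cases c1 : IsZero (HH (-1) E.obj.obj)
      · exfalso
        apply h
        rw [isZero_heart_iff]
        have hK : IsZero E.obj.obj := by
          apply isZero_of_HH_TCharge
          intro i
          by_cases e1 : i = -1
          · rw [e1]; exact c1
          · by_cases e0 : i = 0
            · rw [e0]; exact c0
            · exact hz i e1 e0
        rw [IsZero.iff_id_eq_zero] at hK ⊢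
        exact (dbW W).ι.map_injective (by
          rw [CategoryTheory.Functor.map_id, CategoryTheory.Functor.map_zero]
          exact hK)
      · have := a2 c1
        have := b1 c0
        omega
    · have := a1 c0
      by_cases c1 : IsZero (HH (-1) E.obj.obj)
      · have := b2 c1
        omega
      · have := a2 c1
        omega

end M21.E3
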