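import Pool.Agent.H.MP_21b43d_ag.E3.TCharge

/-!
# M21, existence part, B7: the stability function on the tilted heart; the tilted heart is noetherian
-/

open CategoryTheory CategoryTheory.Limits CategoryTheory.Pretriangulated
  CategoryTheory.Triangulated

universe w v u

noncomputable section

namespace M21.E3

/-- a nondecreasing bounded sequence of integers is eventually constant -/
theorem stab_int_TNoeth (a : ℕ → ℤ) (B : ℤ) (N₀ : ℕ) (h1 : ∀ n, N₀ ≤ n → a n ≤ a (n + 1))
    (h2 : ∀ n, N₀ ≤ n → a n ≤ B) : ∃ N, N₀ ≤ N ∧ ∀ n, N ≤ n → a (n + 1) = a n := by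
  by_contra hcon
  push Not at hcon
  have key : ∀ k : ℕ, ∃ n, N₀ ≤ n ∧ a N₀ + k ≤ a n := by
    intro k
    induction k with
    | zero => exact ⟨N₀, le_rfl, by simp⟩
    | succ k ih =>
      obtain ⟨n, hn, hk⟩ := ih
      obtain ⟨m, hm, hne⟩ := hcon n hn
      have hmono : ∀ j, a n ≤ a (n + j) := by
        intro j
        induction j with
        | zero => exact le_rfl
        | succ j ihj => exact ihj.trans (h1 (n + j) (by omega))
      have h3 : a n ≤ a m := by
        have := hmono (m - n)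
        rwa [Nat.add_sub_cancel' hm] at this
      have h4 := h1 m (by omega)
      refine ⟨m + 1, by omega, ?_⟩
      push_cast
      omega
  obtain ⟨n, hn, hk⟩ := key (B - a N₀ + 1).toNat
  have := h2 n hn
  omega

section

variable {𝒞 : Type u} [Category.{v} 𝒞] [Abelian 𝒞]

/-- the short exact sequence `B/A → E/A → E/B` -/
theorem ses3_TNoeth {A B E : 𝒞} (a : A ⟶ B) (l : A ⟶ E) (l' : B ⟶ E) [Mono l']
    (h : a ≫ l' = l) :
    ∃ (f : cokernel a ⟶ cokernel l) (g : cokernel l ⟶ cokernel l') (w : f ≫ g = 0),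
      (ShortComplex.mk f g w).ShortExact ∧ cokernel.π l ≫ g = cokernel.π l' := by
  subst h
  let S := kernelCokernelCompSequence.snakeInput a l'
  have h4 : cokernel.π (a ≫ l') ≫ cokernel.map (a ≫ l') l' a (𝟙 _) (by simp) = cokernel.π l' := by
    rw [cokernel.map, cokernel.π_desc, Category.id_comp]
  refine ⟨cokernel.map a (a ≫ l') (𝟙 _) l' (by simp),
    cokernel.map (a ≫ l') l' a (𝟙 _) (by simp), S.L₃.zero, ?_, h4⟩
  have hk : IsZero S.L₀.X₃ := isZero_kernel_of_mono l'
  refine { exact := S.L₃_exact, mono_f := ?_, epi_g := ?_ }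
  · exact (S.L₂'.exact_iff_mono (hk.eq_of_src _ _)).1 S.L₂'_exact
  · have h5 : Epi (cokernel.π l') := inferInstance
    rw [← h4] at h5
    exact epi_of_epi (cokernel.π (a ≫ l')) _

variable {W : ObjectProperty 𝒞} (q : RDX W)

include q

/-- an increasing sequence of subobjects in `W` is eventually constant -/
theorem stab_mono_TNoeth (hW : WSerre W) {X : 𝒞} (hX : W X) (A : ℕ → 𝒞) (hA : ∀ n, W (A n))
    (i : ∀ n, A n ⟶ X) (hi : ∀ n, Mono (i n)) (a : ∀ n, A n ⟶ A (n + 1))
    (ha : ∀ n, a n ≫ i (n + 1) = i n) : ∃ N, ∀ n, N ≤ n → IsIso (a n) := by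
  have := hi
  have hm : Monotone (fun n => Subobject.mk (i n)) := by
    refine monotone_nat_of_le_succ fun n => ?_
    exact Subobject.mk_le_mk_of_comm (a n) (ha n)
  obtain ⟨N, hN⟩ := q.noeth X hX ⟨fun n => Subobject.mk (i n), hm⟩
    (fun n => hW.iso (Subobject.underlyingIso (i n)).symm (hA n))
  refine ⟨N, fun n hn => ?_⟩
  have h1 : Subobject.mk (i n) = Subobject.mk (i (n + 1)) :=
    (hN n hn).symm.trans (hN (n + 1) (by omega))
  have h2 : Subobject.mk (i (n + 1)) ≤ Subobject.mk (i n) := h1.ge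
  have h3 : Subobject.ofMkLEMk (i (n + 1)) (i n) h2 ≫ i n = i (n + 1) :=
    Subobject.ofMkLEMk_comp h2
  refine ⟨⟨Subobject.ofMkLEMk (i (n + 1)) (i n) h2, ?_, ?_⟩⟩
  · rw [← cancel_mono (i n), Category.assoc, h3, ha, Category.id_comp]
  · rw [← cancel_mono (i (n + 1)), Category.assoc, ha, h3, Category.id_comp]

/-- an increasing sequence of quotients in `W` is eventually constant -/
theorem stab_epi_TNoeth (hW : WSerre W) {X : 𝒞} (hX : W X) (B : ℕ → 𝒞) (hB : ∀ n, W (B n))
    (p : ∀ n, X ⟶ B n) (hp : ∀ n, Epi (p n)) (b : ∀ n, B n ⟶ B (n + 1))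
    (hb : ∀ n, p n ≫ b n = p (n + 1)) : ∃ N, ∀ n, N ≤ n → IsIso (b n) := by
  have := hp
  have hz : ∀ n, kernel.ι (p n) ≫ p (n + 1) = 0 := fun n => by
    rw [← hb n, kernel.condition_assoc, zero_comp]
  obtain ⟨N, hN⟩ := stab_mono_TNoeth q hW hX (fun n => kernel (p n))
    (fun n => hW.kernel (p n) hX (hB n)) (fun n => kernel.ι (p n)) (fun n => inferInstance)
    (fun n => kernel.lift (p (n + 1)) (kernel.ι (p n)) (hz n))
    (fun n => kernel.lift_ι _ _ _)
  refine ⟨N, fun n hn => ?_⟩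
  have h1 := hN n hn
  have h2 : kernel.ι (p (n + 1)) ≫ p n = 0 := by
    rw [← cancel_epi (kernel.lift (p (n + 1)) (kernel.ι (p n)) (hz n)), kernel.lift_ι_assoc,
      kernel.condition, comp_zero]
  have h3 : Epi (b n) := by
    have : Epi (p n ≫ b n) := by rw [hb]; infer_instance
    exact epi_of_epi (p n) (b n)
  let d : B (n + 1) ⟶ B n := (Abelian.epiIsCokernelOfKernel (KernelFork.ofι _ (kernel.condition (p (n + 1)))) (kernelIsKernel _)).desc
    (CokernelCofork.ofπ (p n) h2)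
  have hd : p (n + 1) ≫ d = p n :=
    (Abelian.epiIsCokernelOfKernel (KernelFork.ofι _ (kernel.condition (p (n + 1))))
      (kernelIsKernel _)).fac (CokernelCofork.ofπ (p n) h2) WalkingParallelPair.one
  refine ⟨⟨d, ?_, ?_⟩⟩
  · rw [← cancel_epi (p n), reassoc_of% (hb n), hd, Category.comp_id]
  · rw [← cancel_epi (p (n + 1)), reassoc_of% hd, hb n, Category.comp_id]

end

variable {𝒞 : Type u} [Category.{v} 𝒞] [Abelian 𝒞] [HasDerivedCategory.{w} 𝒞]
  {W : ObjectProperty 𝒞}

variable [(dbW W).IsTriangulated]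

/-- the cohomology functors on the tilted heart -/
def hF_TNoeth (hW : WSerre W) (q : RDX W) (i : ℤ) : Hrt (tilt hW q) ⥤ 𝒞 :=
  hι (tilt hW q) ⋙ (dbW W).ι ⋙ DerivedCategory.homologyFunctor 𝒞 i

theorem mono_TNoeth (hW : WSerre W) (q : RDX W) (S : ShortComplex (Hrt (tilt hW q)))
    (hS : S.ShortExact) : Mono ((hF_TNoeth hW q (-1)).map S.f) := by
  obtain ⟨δ, hδ⟩ := exists_triangle_of_ses (tilt hW q) S hS
  have h := (dbW W).ι.map_distinguished _ hδ
  exact mono1_Tilt1 h (-2) (-1) (by norm_num)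
    (((tilt_heart_iff hW q S.X₃.obj).1 S.X₃.property).1 (-2) (by norm_num) (by norm_num))

theorem epi_TNoeth (hW : WSerre W) (q : RDX W) (S : ShortComplex (Hrt (tilt hW q)))
    (hS : S.ShortExact) : Epi ((hF_TNoeth hW q 0).map S.g) := by
  obtain ⟨δ, hδ⟩ := exists_triangle_of_ses (tilt hW q) S hS
  have h := (dbW W).ι.map_distinguished _ hδ
  exact epi2_Tilt1 h 0 1 (by norm_num)
    (((tilt_heart_iff hW q S.X₁.obj).1 S.X₁.property).1 1 (by norm_num) (by norm_num))

theorem monog_TNoeth (hW : WSerre W) (q : RDX W) (S : ShortComplex (Hrt (tilt hW q)))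
    (hS : S.ShortExact) (hz : IsZero ((hF_TNoeth hW q (-1)).obj S.X₁)) :
    Mono ((hF_TNoeth hW q (-1)).map S.g) := by
  obtain ⟨δ, hδ⟩ := exists_triangle_of_ses (tilt hW q) S hS
  have h := (dbW W).ι.map_distinguished _ hδ
  exact mono2_Tilt1 h (-1) hz

theorem wF_TNoeth (hW : WSerre W) (q : RDX W) (i : ℤ) (K : Hrt (tilt hW q)) :
    W ((hF_TNoeth hW q i).obj K) := K.obj.property.2 i

theorem heart_TNoeth (hW : WSerre W) (q : RDX W) (K : Hrt (tilt hW q)) :
    q.Tc ((hF_TNoeth hW q 0).obj K) ∧ q.Fc ((hF_TNoeth hW q (-1)).obj K) :=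
  ((tilt_heart_iff hW q K.obj).1 K.property).2

theorem eul_TNoeth (hW : WSerre W) (q : RDX W) (e : 𝒞 → ℤ) (he : AddOn W e)
    (K : Hrt (tilt hW q)) :
    eul e K.obj.obj = e ((hF_TNoeth hW q 0).obj K) - e ((hF_TNoeth hW q (-1)).obj K) :=
  eul_heart_TCharge hW q e he K

/-- additivity of `e (H^0) - e (H^(-1))` -/
theorem add_TNoeth (hW : WSerre W) (q : RDX W) (e : 𝒞 → ℤ) (he : AddOn W e)
    (S : ShortComplex (Hrt (tilt hW q))) (hS : S.ShortExact) :
    e ((hF_TNoeth hW q 0).obj S.X₂) - e ((hF_TNoeth hW q (-1)).obj S.X₂) =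
      (e ((hF_TNoeth hW q 0).obj S.X₁) - e ((hF_TNoeth hW q (-1)).obj S.X₁)) +
      (e ((hF_TNoeth hW q 0).obj S.X₃) - e ((hF_TNoeth hW q (-1)).obj S.X₃)) := by
  have h := eul_heart_add_TCharge hW q e he S hS
  rwa [eul_TNoeth hW q e he, eul_TNoeth hW q e he, eul_TNoeth hW q e he] at h

theorem zero_TNoeth (hW : WSerre W) (q : RDX W) (K : Hrt (tilt hW q))
    (h0 : IsZero ((hF_TNoeth hW q 0).obj K)) (h1 : IsZero ((hF_TNoeth hW q (-1)).obj K)) :
    IsZero K := by
  rw [isZero_heart_iff]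
  have hz := ((tilt_heart_iff hW q K.obj).1 K.property).1
  have hK : IsZero K.obj.obj := by
    apply isZero_of_HH_TCharge
    intro i
    by_cases e1 : i = -1
    · rw [e1]; exact h1
    · by_cases e0 : i = 0
      · rw [e0]; exact h0
      · exact hz i e1 e0
  rw [IsZero.iff_id_eq_zero] at hK ⊢
  exact (dbW W).ι.map_injective (by
    rw [CategoryTheory.Functor.map_id, CategoryTheory.Functor.map_zero]
    exact hK)

/-- The tilted heart is noetherian. Let `L_n` be an increasing sequence of subobjects of `E`,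
`Q_n = E / L_n`, `G_n = L_{n+1} / L_n`. (i) `D (L_n)` is nondecreasing and `≤ D E`, so `D (G_n) = 0` for
large `n`. (ii) `H^(-1)(L_n)` is an increasing sequence of subobjects of `H^(-1)(E)`, so
`H^(-1)(L_n) → H^(-1)(L_{n+1})` is an iso for large `n`. (iii) `H^0(E) → H^0(Q_n)` are epi with increasing
kernels, so `H^0(Q_n) → H^0(Q_{n+1})` is an iso for large `n`. For such `n`: `D (G_n) = 0` gives
`D (H^0 G_n) = 0 = D (H^(-1) G_n)` and `r (H^0 G_n) = 0` (`Tc_D`). (iv) By (ii)
`0 → H^(-1)(G_n) → H^0(L_n) → H^0(L_{n+1}) → H^0(G_n) → 0` is exact, so `r (H^0 L_n)` is nonincreasing, so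
for large `n` `r (H^(-1) G_n) = 0`, and `H^(-1)(G_n)`, being torsion-free, is zero. (v) Then
`0 → H^(-1)(Q_n) → H^(-1)(Q_{n+1}) → H^0(G_n) → 0` is exact by (iii) (all `H^(-1)(Q_n)` are in `F`, of the
same rank and degree), so `χ (H^(-1) Q_n)` is nondecreasing and bounded by `Pos.hull`; so
`χ (H^0 G_n) = 0` for large `n` and `H^0(G_n) = 0` by `x_pos`. So `G_n = 0`. -/
theorem tilt_noetherian (hW : WSerre W) (q : RDX W) (t : ℤ) (hq : Pos q t)
    (E : Hrt (tilt hW q)) : IsNoetherianObject E := by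
  rw [isNoetherianObject_iff_not_strictMono]
  intro f hf
  let L : ℕ → Hrt (tilt hW q) := fun n => (f n : Hrt (tilt hW q))
  let l : ∀ n, L n ⟶ E := fun n => (f n).arrow
  let a : ∀ n, L n ⟶ L (n + 1) := fun n =>
    Subobject.ofLE (f n) (f (n + 1)) (hf (Nat.lt_succ_self n)).le
  have ha : ∀ n, a n ≫ l (n + 1) = l n := fun n => Subobject.ofLE_arrow _
  have hlm : ∀ n, Mono (l n) := fun n => inferInstanceAs (Mono (f n).arrow)
  have ham : ∀ n, Mono (a n) := fun n => mono_of_mono_fac (ha n)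
  choose c v w hC hv using fun n => ses3_TNoeth (a n) (l n) (l (n + 1)) (ha n)
  have hA : ∀ n, (ShortComplex.mk (l n) (cokernel.π (l n)) (cokernel.condition _)).ShortExact :=
    fun n => { exact := ShortComplex.exact_cokernel (l n)
               mono_f := hlm n
               epi_g := inferInstance }
  have hB : ∀ n, (ShortComplex.mk (a n) (cokernel.π (a n)) (cokernel.condition _)).ShortExact :=
    fun n => { exact := ShortComplex.exact_cokernel (a n)
               mono_f := ham n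
               epi_g := inferInstance }
  have her : AddOn W q.r := fun S hS h₁ h₂ h₃ => (q.add S hS h₁ h₂ h₃).1
  have heD : AddOn W q.D := addOn_D q
  have hex : AddOn W q.x := fun S hS h₁ h₂ h₃ => (q.add S hS h₁ h₂ h₃).2.2
  -- cohomology of the heart
  let F0 := hF_TNoeth hW q 0
  let F1 := hF_TNoeth hW q (-1)
  have hWF0 : ∀ K, W (F0.obj K) := wF_TNoeth hW q 0
  have hWF1 : ∀ K, W (F1.obj K) := wF_TNoeth hW q (-1)
  have hT : ∀ K, q.Tc (F0.obj K) := fun K => (heart_TNoeth hW q K).1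
  have hF : ∀ K, q.Fc (F1.obj K) := fun K => (heart_TNoeth hW q K).2
  have hT0 : ∀ K, 0 ≤ q.D (F0.obj K) := fun K => (q.Tc_D hW (hT K)).1
  have hF1 : ∀ K, q.D (F1.obj K) ≤ 0 := fun K => (hF K).2 _ (𝟙 _) inferInstance (hWF1 K)
  -- (i)
  obtain ⟨N1, -, hN1⟩ := stab_int_TNoeth
    (fun n => q.D (F0.obj (L n)) - q.D (F1.obj (L n))) (q.D (F0.obj E) - q.D (F1.obj E)) 0
    (fun n _ => by
      have h := add_TNoeth hW q q.D heD _ (hB n)
      have h1 := hT0 (cokernel (a n))
      have h2 := hF1 (cokernel (a n))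
      dsimp only at h ⊢
      linarith)
    (fun n _ => by
      have h := add_TNoeth hW q q.D heD _ (hA n)
      have h1 := hT0 (cokernel (l n))
      have h2 := hF1 (cokernel (l n))
      dsimp only at h ⊢
      linarith)
  have D0 : ∀ n, N1 ≤ n → q.D (F0.obj (cokernel (a n))) = 0 := fun n hn => by
    have h := add_TNoeth hW q q.D heD _ (hB n)
    have h1 := hT0 (cokernel (a n))
    have h2 := hF1 (cokernel (a n))
    have h3 := hN1 n hn
    dsimp only at h h3
    linarith
  have D1 : ∀ n, N1 ≤ n → q.D (F1.obj (cokernel (a n))) = 0 := fun n hn => by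
    have h := add_TNoeth hW q q.D heD _ (hB n)
    have h1 := hT0 (cokernel (a n))
    have h2 := hF1 (cokernel (a n))
    have h3 := hN1 n hn
    dsimp only at h h3
    linarith
  have R0 : ∀ n, N1 ≤ n → q.r (F0.obj (cokernel (a n))) = 0 := fun n hn =>
    (q.Tc_D hW (hT _)).2 (D0 n hn)
  -- (ii)
  obtain ⟨N2, hN2⟩ := stab_mono_TNoeth q hW (hWF1 E) (fun n => F1.obj (L n))
    (fun n => hWF1 _) (fun n => F1.map (l n)) (fun n => mono_TNoeth hW q _ (hA n))
    (fun n => F1.map (a n)) (fun n => by rw [← Functor.map_comp, ha])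
  -- (iii)
  obtain ⟨N3, hN3⟩ := stab_epi_TNoeth q hW (hWF0 E) (fun n => F0.obj (cokernel (l n)))
    (fun n => hWF0 _) (fun n => F0.map (cokernel.π (l n))) (fun n => epi_TNoeth hW q _ (hA n))
    (fun n => F0.map (v n)) (fun n => by rw [← Functor.map_comp, hv])
  -- (iv)
  have rL : ∀ n, max N1 N2 ≤ n →
      q.r (F0.obj (L n)) = q.r (F0.obj (L (n + 1))) + q.r (F1.obj (cokernel (a n))) := by
    intro n hn
    have h := add_TNoeth hW q q.r her _ (hB n)
    have h1 := R0 n (le_trans (le_max_left _ _) hn)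
    have h2 := hN2 n (le_trans (le_max_right _ _) hn)
    have h3 : q.r (F1.obj (L n)) = q.r (F1.obj (L (n + 1))) :=
      (q.inv_iso hW (asIso (F1.map (a n))) (hWF1 _)).1
    dsimp only at h
    linarith
  obtain ⟨N4, hN4a, hN4⟩ := stab_int_TNoeth (fun n => - q.r (F0.obj (L n))) 0 (max N1 N2)
    (fun n hn => by
      have h := rL n hn
      have h1 := q.r_nonneg _ (hWF1 (cokernel (a n)))
      linarith)
    (fun n hn => by
      have h1 := q.r_nonneg _ (hWF0 (L n))
      linarith)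
  have Z1 : ∀ n, N4 ≤ n → IsZero (F1.obj (cokernel (a n))) := by
    intro n hn
    refine q.zero_of_Tf_Wk2 (hF _).1 ?_
    have h := rL n (hN4a.trans hn)
    have h1 := hN4 n hn
    linarith
  -- (v)
  let N5 := max N3 N4
  have e3 : ∀ n, N5 ≤ n → ∀ e : 𝒞 → ℤ, AddOn W e →
      e (F1.obj (cokernel (l (n + 1)))) = e (F1.obj (cokernel (l n))) +
        e (F0.obj (cokernel (a n))) := by
    intro n hn e he
    have h := add_TNoeth hW q e he _ (hC n)
    have h2 := hN3 n (le_trans (le_max_left _ _) hn)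
    have h3 : e (F0.obj (cokernel (l n))) = e (F0.obj (cokernel (l (n + 1)))) :=
      e_iso_DbW2 hW he (asIso (F0.map (v n))) (hWF0 _)
    have h4 : e (F1.obj (cokernel (a n))) = 0 :=
      e_zero_DbW2 hW he (Z1 n (le_trans (le_max_right _ _) hn))
    dsimp only at h
    linarith
  have hle5 : ∀ n, N5 ≤ n → N1 ≤ n := fun n hn => by
    have h1 : N4 ≤ N5 := le_max_right _ _
    have h2 : N1 ≤ max N1 N2 := le_max_left _ _
    omega
  obtain ⟨B, hBd⟩ := hq.hull (F1.obj (cokernel (l N5))) (hF _).1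
  have key : ∀ k, ∃ i : F1.obj (cokernel (l N5)) ⟶ F1.obj (cokernel (l (N5 + k))), Mono i ∧
      q.r (F1.obj (cokernel (l (N5 + k)))) = q.r (F1.obj (cokernel (l N5))) ∧
      q.D (F1.obj (cokernel (l (N5 + k)))) = q.D (F1.obj (cokernel (l N5))) := by
    intro k
    induction k with
    | zero => exact ⟨𝟙 _, inferInstance, rfl, rfl⟩
    | succ k ih =>
      obtain ⟨i, hi, hr, hD⟩ := ih
      have hn : N5 ≤ N5 + k := Nat.le_add_right _ _
      have hm : Mono (F1.map (v (N5 + k))) :=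
        monog_TNoeth hW q _ (hC (N5 + k)) (Z1 _ (le_trans (le_max_right _ _) hn))
      have h1 := e3 _ hn q.r her
      have h2 := e3 _ hn q.D heD
      rw [R0 _ (hle5 _ hn), add_zero] at h1
      rw [D0 _ (hle5 _ hn), add_zero] at h2
      exact ⟨i ≫ F1.map (v (N5 + k)), mono_comp _ _, h1.trans hr, h2.trans hD⟩
  have xnn : ∀ n, N5 ≤ n → 0 ≤ q.x (F0.obj (cokernel (a n))) := by
    intro n hn
    by_cases hz : IsZero (F0.obj (cokernel (a n)))
    · exact (q.inv_zero hW hz).2.2.ge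
    · exact (q.x_pos _ (hWF0 _) (R0 n (hle5 n hn)) (D0 n (hle5 n hn)) hz).le
  obtain ⟨N6, hN6a, hN6⟩ := stab_int_TNoeth (fun n => q.x (F1.obj (cokernel (l n)))) B N5
    (fun n hn => by
      have h := e3 n hn q.x hex
      have h1 := xnn n hn
      linarith)
    (fun n hn => by
      obtain ⟨k, rfl⟩ := Nat.exists_eq_add_of_le hn
      obtain ⟨i, hi, hr, hD⟩ := key k
      exact hBd _ i hi (hF _).1 hr hD)
  have Z0 : IsZero (F0.obj (cokernel (a N6))) := by
    by_contra hz
    have h1 := q.x_pos _ (hWF0 _) (R0 _ (hle5 _ hN6a)) (D0 _ (hle5 _ hN6a)) hz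
    have h2 := e3 _ hN6a q.x hex
    have h3 := hN6 N6 le_rfl
    linarith
  have ZG : IsZero (cokernel (a N6)) :=
    zero_TNoeth hW q _ Z0 (Z1 _ (le_trans (le_max_right _ _) hN6a))
  have hepi : Epi (a N6) := Preadditive.epi_of_isZero_cokernel _ ZG
  have hiso : IsIso (a N6) := isIso_of_mono_of_epi _
  have hle : f (N6 + 1) ≤ f N6 :=
    Subobject.le_of_comm (inv (a N6)) (by
      rw [IsIso.inv_comp_eq]
      exact (ha N6).symm)
  exact absurd (hf (Nat.lt_succ_self N6)) (not_lt_of_ge hle)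

end M21.E3
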