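import Pool.Agent.H.MP_21b43d_ag.E3.Tilt1
import Pool.Agent.H.MP_21b43d_ag.E3.HeartAb

/-!
# M21, existence part, B6: the tilted t-structure
(Happel-Reiten-Smalø for the torsion pair `(T, F)` of slope 0 on `W`)
-/

open CategoryTheory CategoryTheory.Limits CategoryTheory.Pretriangulated
  CategoryTheory.Triangulated

universe w v u

noncomputable section

namespace M21.E3

variable {𝒞 : Type u} [Category.{v} 𝒞] [Abelian 𝒞] [HasDerivedCategory.{w} 𝒞]
  {W : ObjectProperty 𝒞}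

/-- `K ≤ n` for the tilted t-structure -/
def tLE (q : RDX W) (n : ℤ) (K : DerivedCategory 𝒞) : Prop :=
  (∀ i, n < i → IsZero (HH i K)) ∧ q.Tc (HH n K)

/-- `K ≥ n` for the tilted t-structure -/
def tGE (q : RDX W) (n : ℤ) (K : DerivedCategory 𝒞) : Prop :=
  (∀ i, i < n - 1 → IsZero (HH i K)) ∧ q.Fc (HH (n - 1) K)

/-- cohomology of shifts -/
def hhShiftTilt (K : DerivedCategory 𝒞) (a i j : ℤ) (h : a + i = j) :
    HH i (K⟦a⟧) ≅ HH j K :=
  ((DerivedCategory.homologyFunctor 𝒞 0).shiftIso a i j h).app K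

theorem Tc_zero_tilt (hW : WSerre W) (q : RDX W) {M : 𝒞} (h : IsZero M) : q.Tc M :=
  q.Tc_of_rank_zero hW (hW.zero M h) (q.inv_zero hW h).1

theorem Fc_zero_tilt (hW : WSerre W) (q : RDX W) {M : 𝒞} (h : IsZero M) : q.Fc M := by
  have hz : ∀ (N : 𝒞) (i : N ⟶ M), Mono i → IsZero N := fun N i hi => by
    rw [IsZero.iff_id_eq_zero, ← cancel_mono i]
    exact h.eq_of_tgt _ _
  exact ⟨⟨hW.zero M h, fun N i hi _ _ => hz N i hi⟩, fun N i hi _ =>
    (q.inv_zero hW (hz N i hi)).2.1.le⟩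

theorem tLE_iso (hW : WSerre W) (q : RDX W) {n : ℤ} {K L : DerivedCategory 𝒞} (e : K ≅ L)
    (h : tLE q n K) : tLE q n L :=
  ⟨fun i hi => (h.1 i hi).of_iso ((DerivedCategory.homologyFunctor 𝒞 i).mapIso e.symm),
    q.Tc_iso hW ((DerivedCategory.homologyFunctor 𝒞 n).mapIso e) h.2⟩

theorem tGE_iso (hW : WSerre W) (q : RDX W) {n : ℤ} {K L : DerivedCategory 𝒞} (e : K ≅ L)
    (h : tGE q n K) : tGE q n L :=
  ⟨fun i hi => (h.1 i hi).of_iso ((DerivedCategory.homologyFunctor 𝒞 i).mapIso e.symm),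
    q.Fc_iso hW ((DerivedCategory.homologyFunctor 𝒞 (n - 1)).mapIso e) h.2⟩

theorem tLE_shift (hW : WSerre W) (q : RDX W) {n a n' : ℤ} (h : a + n' = n)
    {K : DerivedCategory 𝒞} (hK : tLE q n K) : tLE q n' (K⟦a⟧) :=
  ⟨fun i hi => (hK.1 (a + i) (by omega)).of_iso (hhShiftTilt K a i (a + i) rfl),
    q.Tc_iso hW (hhShiftTilt K a n' n h).symm hK.2⟩

theorem tGE_shift (hW : WSerre W) (q : RDX W) {n a n' : ℤ} (h : a + n' = n)
    {K : DerivedCategory 𝒞} (hK : tGE q n K) : tGE q n' (K⟦a⟧) :=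
  ⟨fun i hi => (hK.1 (a + i) (by omega)).of_iso (hhShiftTilt K a i (a + i) rfl),
    q.Fc_iso hW (hhShiftTilt K a (n' - 1) (n - 1) (by omega)).symm hK.2⟩

variable [(dbW W).IsTriangulated]

/-- The tilted t-structure on `D^b_W`. `zero'`: `X ≤ 0`, `Y ≥ 1`: `eq_zero_iff_H0` and
`Tc_Fc_zero`. `le_zero_le`: `H^1 X = 0` is in `T`. `ge_one_le`: `H^(-1) Y = 0` is in `F`. -/
def tilt (hW : WSerre W) (q : RDX W) : TStructure (dbW W).FullSubcategory where
  le n K := tLE q n K.obj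
  ge n K := tGE q n K.obj
  le_isClosedUnderIsomorphisms n :=
    { of_iso := fun {X Y} e hX => tLE_iso hW q ((dbW W).ι.mapIso e) hX }
  ge_isClosedUnderIsomorphisms n :=
    { of_iso := fun {X Y} e hX => tGE_iso hW q ((dbW W).ι.mapIso e) hX }
  le_shift n a n' h X hX :=
    tLE_iso hW q (((dbW W).ι.commShiftIso a).app X).symm (tLE_shift hW q h hX)
  ge_shift n a n' h X hX :=
    tGE_iso hW q (((dbW W).ι.commShiftIso a).app X).symm (tGE_shift hW q h hX)
  zero' X Y f hX hY := by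
    apply (dbW W).ι.map_injective
    rw [Functor.map_zero]
    have hX' : X.obj.IsLE 0 := by
      rw [DerivedCategory.isLE_iff]
      exact hX.1
    have hY' : Y.obj.IsGE 0 := by
      rw [DerivedCategory.isGE_iff]
      exact fun i hi => hY.1 i (by omega)
    refine (eq_zero_iff_H0 hX' hY' _).2 (q.Tc_Fc_zero hW hX.2 ?_ _)
    exact hY.2
  le_zero_le X hX := ⟨fun i hi => hX.1 i (by omega), Tc_zero_tilt hW q (hX.1 1 (by omega))⟩
  ge_one_le X hX := ⟨fun i hi => hX.1 i (by omega), Fc_zero_tilt hW q (hX.1 _ (by omega))⟩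
  exists_triangle_zero_one A := by
    obtain ⟨X, Y, f, g, δ, hT, hX, hY, hX0, hXT, hY0, hYF⟩ :=
      exists_tilt_triangle hW q A.obj A.property
    let X' : (dbW W).FullSubcategory := ⟨X, hX⟩
    let Y' : (dbW W).FullSubcategory := ⟨Y, hY⟩
    let f' : X' ⟶ A := (dbW W).ι.preimage (X := X') (Y := A) f
    let g' : A ⟶ Y' := (dbW W).ι.preimage (X := A) (Y := Y') g
    let δ' : Y' ⟶ X'⟦(1 : ℤ)⟧ := (dbW W).ι.preimage (X := Y') (Y := X'⟦(1 : ℤ)⟧)
      (δ ≫ (((dbW W).ι.commShiftIso (1 : ℤ)).app X').inv)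
    refine ⟨X', Y', ⟨hX0, hXT⟩, ⟨fun i hi => hY0 i (by omega), hYF⟩, f', g', δ', ?_⟩
    change (dbW W).ι.mapTriangle.obj (Triangle.mk f' g' δ') ∈ distTriang (DerivedCategory 𝒞)
    refine isomorphic_distinguished _ hT _ ?_
    refine Triangle.isoMk _ _ (Iso.refl X) (Iso.refl A.obj) (Iso.refl Y) ?_ ?_ ?_
    · change (dbW W).ι.map f' ≫ 𝟙 _ = 𝟙 _ ≫ f
      rw [Category.comp_id, Category.id_comp]
      exact (dbW W).ι.map_preimage _
    · change (dbW W).ι.map g' ≫ 𝟙 _ = 𝟙 _ ≫ g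
      rw [Category.comp_id, Category.id_comp]
      exact (dbW W).ι.map_preimage _
    · have h1 : (dbW W).ι.map δ' = δ ≫ (((dbW W).ι.commShiftIso (1 : ℤ)).app X').inv :=
        (dbW W).ι.map_preimage _
      have h2 : (shiftFunctor (DerivedCategory 𝒞) (1 : ℤ)).map (𝟙 X) = 𝟙 _ :=
        CategoryTheory.Functor.map_id _ _
      have h3 : ((dbW W).ι.map δ' ≫ ((dbW W).ι.commShiftIso (1 : ℤ)).hom.app X') = δ := by
        rw [h1, Category.assoc]
        exact (congrArg (δ ≫ ·) ((((dbW W).ι.commShiftIso (1 : ℤ)).app X').inv_hom_id)).trans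
          (Category.comp_id _)
      exact (congrArg₂ (fun a b => a ≫ b) h3 h2).trans
        ((Category.comp_id δ).trans (Category.id_comp δ).symm)

theorem tilt_isLE_iff (hW : WSerre W) (q : RDX W) (K : (dbW W).FullSubcategory) (n : ℤ) :
    (tilt hW q).IsLE K n ↔ tLE q n K.obj :=
  ⟨fun h => h.le, fun h => ⟨h⟩⟩

theorem tilt_isGE_iff (hW : WSerre W) (q : RDX W) (K : (dbW W).FullSubcategory) (n : ℤ) :
    (tilt hW q).IsGE K n ↔ tGE q n K.obj :=
  ⟨fun h => h.ge, fun h => ⟨h⟩⟩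

/-- the tilted t-structure is bounded -/
theorem tilt_bounded (hW : WSerre W) (q : RDX W) (K : (dbW W).FullSubcategory) :
    ∃ a b : ℤ, (tilt hW q).IsGE K a ∧ (tilt hW q).IsLE K b := by
  obtain ⟨⟨a, b, ha, hb⟩, -⟩ := K.property
  have h1 : ∀ i, i < a → IsZero (HH i K.obj) := fun i hi => K.obj.isZero_of_isGE a i hi
  have h2 : ∀ i, b < i → IsZero (HH i K.obj) := fun i hi => K.obj.isZero_of_isLE b i hi
  refine ⟨a, b + 1, (tilt_isGE_iff hW q K a).2 ?_, (tilt_isLE_iff hW q K (b + 1)).2 ?_⟩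
  · exact ⟨fun i hi => h1 i (by omega), Fc_zero_tilt hW q (h1 _ (by omega))⟩
  · exact ⟨fun i hi => h2 i (by omega), Tc_zero_tilt hW q (h2 _ (by omega))⟩

/-- objects of the tilted heart -/
theorem tilt_heart_iff (hW : WSerre W) (q : RDX W) (K : (dbW W).FullSubcategory) :
    (tilt hW q).heart K ↔ (∀ i, i ≠ -1 → i ≠ 0 → IsZero (HH i K.obj)) ∧
      q.Tc (HH 0 K.obj) ∧ q.Fc (HH (-1) K.obj) := by
  rw [TStructure.mem_heart_iff, tilt_isLE_iff, tilt_isGE_iff]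
  constructor
  · rintro ⟨h1, h2⟩
    refine ⟨fun i hi hi' => ?_, h1.2, h2.2⟩
    rcases lt_or_gt_of_ne hi' with h | h
    · exact h2.1 i (by omega)
    · exact h1.1 i h
  · rintro ⟨h1, h2, h3⟩
    exact ⟨⟨fun i hi => h1 i (by omega) (by omega), h2⟩,
      ⟨fun i hi => h1 i (by omega) (by omega), h3⟩⟩

end M21.E3
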