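import Pool.Agent.H.MP_21b43d_ag.E3.Wk

/-!
# M21, existence part, B4b: the torsion pair of slope 0
-/

open CategoryTheory CategoryTheory.Limits

universe v u

namespace M21.E3

variable {𝒞 : Type u} [Category.{v} 𝒞] [Abelian 𝒞]

namespace RDX

variable {W : ObjectProperty 𝒞} (q : RDX W)

/-- additivity for a subobject and its quotient -/
theorem add_coker_Wk2 (hW : WSerre W) {M N : 𝒞} (i : N ⟶ M) (hi : Mono i) (hN : W N) (hM : W M) :
    q.r M = q.r N + q.r (cokernel i) ∧ q.D M = q.D N + q.D (cokernel i) := by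
  have hS : (ShortComplex.mk i (cokernel.π i) (cokernel.condition _)).ShortExact :=
    { exact := ShortComplex.exact_cokernel i
      mono_f := hi
      epi_g := inferInstance }
  obtain ⟨h1, h2, -⟩ := q.add _ hS hN hM (hW.cokernel i hN hM)
  exact ⟨h1, h2⟩

/-- additivity for a quotient and its kernel -/
theorem add_ker_Wk2 (hW : WSerre W) {M N : 𝒞} (p : M ⟶ N) (hp : Epi p) (hM : W M) (hN : W N) :
    q.r M = q.r (kernel p) + q.r N ∧ q.D M = q.D (kernel p) + q.D N := by
  have hS : (ShortComplex.mk (kernel.ι p) p (kernel.condition _)).ShortExact :=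
    { exact := ShortComplex.exact_kernel p
      mono_f := inferInstance
      epi_g := hp }
  obtain ⟨h1, h2, -⟩ := q.add _ hS (hW.kernel p hM hN) hM hN
  exact ⟨h1, h2⟩

/-- `W` is closed under images -/
theorem image_Wk2 (hW : WSerre W) {M N : 𝒞} (f : M ⟶ N) (hM : W M) (hN : W N) :
    W (Abelian.image f) :=
  hW.kernel (cokernel.π f) hN (hW.cokernel f hM hN)

/-- a subobject in `W` of a torsion-free object is torsion-free -/
theorem Tf_sub_Wk2 {M N : 𝒞} (i : N ⟶ M) (hi : Mono i) (hN : W N) (h : q.Tf M) : q.Tf N :=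
  ⟨hN, fun K k _ hK hr => h.2 K (k ≫ i) (mono_comp _ _) hK hr⟩

/-- a torsion-free object of rank zero is zero -/
theorem zero_of_Tf_Wk2 {M : 𝒞} (h : q.Tf M) (hr : q.r M = 0) : IsZero M :=
  h.2 M (𝟙 M) inferInstance h.1 hr

/-- `r M = 0` implies `M ∈ T`: a torsion-free quotient has rank 0, so it is zero. -/
theorem Tc_of_rank_zero (hW : WSerre W) {M : 𝒞} (hM : W M) (h : q.r M = 0) : q.Tc M := by
  refine ⟨hM, fun Q p hp hQ hz => ?_⟩
  have h1 := (add_ker_Wk2 q hW p hp hM hQ.1).1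
  have h2 := q.r_nonneg _ (hW.kernel p hM hQ.1)
  have h3 := q.r_nonneg Q hQ.1
  exact absurd (zero_of_Tf_Wk2 q hQ (by linarith)) hz

/-- `T` is closed under quotients (in `W`). -/
theorem Tc_quot (hW : WSerre W) {M N : 𝒞} (p : M ⟶ N) (hp : Epi p) (hN : W N) (h : q.Tc M) :
    q.Tc N := by
  have _ := hW
  exact ⟨hN, fun Q p' hp' hQ hz => h.2 Q (p ≫ p') (epi_comp _ _) hQ hz⟩

/-- the degree of a torsion-free quotient of an object of `T` is `≥ 0`. -/
theorem D_quot_nonneg_Wk2 (hW : WSerre W) {M Q : 𝒞} (p : M ⟶ Q) (hp : Epi p) (hQ : q.Tf Q)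
    (h : q.Tc M) : 0 ≤ q.D Q := by
  by_cases hz : IsZero Q
  · exact (inv_zero q hW hz).2.1.ge
  · exact (h.2 Q p hp hQ hz).le

/-- `T` is closed under extensions: for `S` with `X₁, X₃ ∈ T` and a nonzero torsion-free quotient
`Q` of `X₂` let `Q₁` be the image of `X₁` in `Q`, `T → Q/Q₁ → Q₂` the torsion subobject of `Q/Q₁` and
`Q₁'` the kernel of `Q → Q₂`: `Q₁'` is torsion-free, an extension of `T` (rank 0, `D T ≥ 0`) by `Q₁`;
`Q₁` is torsion-free and a quotient of `X₁`, `Q₂` is torsion-free and a quotient of `X₃`. So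
`D Q = D Q₁ + D T + D Q₂ > 0` (if `Q₁ = 0` then `T` is a torsion subobject of `Q`, so `T = 0` and
`Q₂ = Q` is not zero). -/
theorem Tc_ext (hW : WSerre W) (S : ShortComplex 𝒞) (hS : S.ShortExact) (h₁ : q.Tc S.X₁)
    (h₃ : q.Tc S.X₃) : q.Tc S.X₂ := by
  have hW2 := hW.ext S hS h₁.1 h₃.1
  refine ⟨hW2, fun Q p hp hQ hz => ?_⟩
  have hI : W (Abelian.image (S.f ≫ p)) := image_Wk2 hW _ h₁.1 hQ.1
  set j := Abelian.image.ι (S.f ≫ p) with hj
  have hjm : Mono j := by rw [hj]; infer_instance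
  have hITf : q.Tf (Abelian.image (S.f ≫ p)) := Tf_sub_Wk2 q j hjm hI hQ
  have hDI : 0 ≤ q.D (Abelian.image (S.f ≫ p)) :=
    D_quot_nonneg_Wk2 q hW (Abelian.factorThruImage (S.f ≫ p)) inferInstance hITf h₁
  have hC : W (cokernel j) := hW.cokernel j hI hQ.1
  have hfac : Abelian.factorThruImage (S.f ≫ p) ≫ j = S.f ≫ p := Abelian.image.fac _
  have hzero : S.f ≫ (p ≫ cokernel.π j) = 0 := by
    have h0 : j ≫ cokernel.π j = 0 := cokernel.condition j
    calc S.f ≫ (p ≫ cokernel.π j) = (S.f ≫ p) ≫ cokernel.π j := (Category.assoc _ _ _).symm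
      _ = (Abelian.factorThruImage (S.f ≫ p) ≫ j) ≫ cokernel.π j := by rw [hfac]
      _ = 0 := by rw [Category.assoc, h0, comp_zero]
  set b : S.X₃ ⟶ cokernel j := hS.gIsCokernel.desc (CokernelCofork.ofπ (p ≫ cokernel.π j) hzero)
    with hb
  have hgb : S.g ≫ b = p ≫ cokernel.π j :=
    hS.gIsCokernel.fac (CokernelCofork.ofπ (p ≫ cokernel.π j) hzero) WalkingParallelPair.one
  have hbe : Epi b := by
    have : Epi (S.g ≫ b) := by rw [hgb]; exact epi_comp _ _
    exact epi_of_epi S.g b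
  obtain ⟨S', hS', h2, hw1, hr1, hTf3⟩ := exists_torsion q hW (cokernel j) hC
  have hadd1 := (add_coker_Wk2 q hW j hjm hI hQ.1).2
  have hadd2 := (q.add S' hS' hw1 (h2 ▸ hC) hTf3.1)
  have hD1 : 0 ≤ q.D S'.X₁ := q.D_nonneg _ hw1 hr1
  have e2 : cokernel j ≅ S'.X₂ := eqToIso h2.symm
  have hge := hS'.epi_g
  have hfm := hS'.mono_f
  have hDC : q.D (cokernel j) = q.D S'.X₂ := by rw [h2]
  have hD3 : 0 ≤ q.D S'.X₃ := by
    refine D_quot_nonneg_Wk2 q hW (b ≫ e2.hom ≫ S'.g) ?_ hTf3 h₃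
    have : Epi (e2.hom ≫ S'.g) := epi_comp _ _
    exact epi_comp _ _
  by_cases hIz : IsZero (Abelian.image (S.f ≫ p))
  · have hiso : IsIso (cokernel.π j) := by
      have hj0 : j = 0 := hIz.eq_of_src _ _
      have hm : Mono (cokernel.π j) := by
        have : Mono (cokernel.π j) := by
          refine Preadditive.mono_of_cancel_zero _ ?_
          intro P g hg
          have hex : (ShortComplex.mk j (cokernel.π j) (cokernel.condition _)).Exact :=
            ShortComplex.exact_cokernel j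
          have hex' := hex.lift' g hg
          obtain ⟨l, hl⟩ := hex'
          rw [← hl]
          dsimp only
          rw [hj0, comp_zero]
        exact this
      exact isIso_of_mono_of_epi _
    have hCTf : q.Tf (cokernel j) := Tf_iso q hW (asIso (cokernel.π j)) hQ
    have hT0 : IsZero S'.X₁ := by
      refine hCTf.2 S'.X₁ (S'.f ≫ e2.inv) ?_ hw1 hr1
      exact mono_comp _ _
    have h3z : ¬ IsZero S'.X₃ := by
      intro h3z
      apply hz
      have : IsZero S'.X₂ := by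
        refine ShortComplex.Exact.isZero_of_both_zeros hS'.exact ?_ ?_
        · exact hT0.eq_of_src _ _
        · exact h3z.eq_of_tgt _ _
      exact (this.of_iso e2).of_iso (asIso (cokernel.π j))
    have hD3' : 0 < q.D S'.X₃ := by
      refine h₃.2 S'.X₃ (b ≫ e2.hom ≫ S'.g) ?_ hTf3 h3z
      have : Epi (e2.hom ≫ S'.g) := epi_comp _ _
      exact epi_comp _ _
    linarith [hadd2.2.1]
  · have hDI' := h₁.2 _ (Abelian.factorThruImage (S.f ≫ p)) inferInstance hITf hIz
    linarith [hadd2.2.1]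

/-- `D M ≥ 0` for `M ∈ T`; and `D M = 0` implies `r M = 0`. (Torsion subobject.) -/
theorem Tc_D (hW : WSerre W) {M : 𝒞} (h : q.Tc M) : 0 ≤ q.D M ∧ (q.D M = 0 → q.r M = 0) := by
  obtain ⟨S, hS, h2, hw1, hr1, hTf3⟩ := exists_torsion q hW M h.1
  subst h2
  obtain ⟨ha, hb, -⟩ := q.add S hS hw1 h.1 hTf3.1
  have hD1 : 0 ≤ q.D S.X₁ := q.D_nonneg _ hw1 hr1
  by_cases hz : IsZero S.X₃
  · obtain ⟨z1, z2, -⟩ := inv_zero q hW hz
    exact ⟨by linarith, fun _ => by linarith⟩
  · have hD3 := h.2 S.X₃ S.g hS.epi_g hTf3 hz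
    exact ⟨by linarith, fun h0 => by linarith⟩

/-- `F` is closed under subobjects in `W`. -/
theorem Fc_sub (hW : WSerre W) {M N : 𝒞} (i : N ⟶ M) (hi : Mono i) (hN : W N) (h : q.Fc M) :
    q.Fc N := by
  have _ := hW
  exact ⟨Tf_sub_Wk2 q i hi hN h.1, fun K k hk hK => h.2 K (k ≫ i) (mono_comp _ _) hK⟩

/-- a subobject `N` of the middle term of a short exact sequence is an extension of a subobject `I`
of the right term by a subobject `K` of the left term -/
theorem split_Wk2 (hW : WSerre W) (S : ShortComplex 𝒞) (hS : S.ShortExact)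
    (h₃ : W S.X₃) {N : 𝒞} (i : N ⟶ S.X₂) (hi : Mono i) (hN : W N) :
    ∃ (K I : 𝒞) (k : K ⟶ S.X₁) (l : I ⟶ S.X₃), Mono k ∧ Mono l ∧ W K ∧ W I ∧
      q.r N = q.r K + q.r I ∧ q.D N = q.D K + q.D I ∧ (IsZero K → IsZero I → IsZero N) := by
  set c : N ⟶ S.X₃ := i ≫ S.g with hc
  have hI : W (Abelian.image c) := image_Wk2 hW c hN h₃
  have hp : Epi (Abelian.factorThruImage c) := inferInstance
  have hK : W (kernel (Abelian.factorThruImage c)) := hW.kernel _ hN hI
  have hzero : (kernel.ι (Abelian.factorThruImage c) ≫ i) ≫ S.g = 0 := by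
    have h0 : Abelian.factorThruImage c ≫ Abelian.image.ι c = c := Abelian.image.fac c
    have h1 : kernel.ι (Abelian.factorThruImage c) ≫ Abelian.factorThruImage c = 0 :=
      kernel.condition _
    calc (kernel.ι (Abelian.factorThruImage c) ≫ i) ≫ S.g
        = kernel.ι (Abelian.factorThruImage c) ≫ c := by rw [Category.assoc, hc]
      _ = kernel.ι (Abelian.factorThruImage c) ≫
            (Abelian.factorThruImage c ≫ Abelian.image.ι c) := congrArg _ h0.symm
      _ = 0 := by rw [← Category.assoc, h1, zero_comp]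
  have hSm := hS.mono_f
  set k : kernel (Abelian.factorThruImage c) ⟶ S.X₁ :=
    hS.fIsKernel.lift (KernelFork.ofι (kernel.ι (Abelian.factorThruImage c) ≫ i) hzero) with hk
  have hkf : k ≫ S.f = kernel.ι (Abelian.factorThruImage c) ≫ i :=
    hS.fIsKernel.fac (KernelFork.ofι (kernel.ι (Abelian.factorThruImage c) ≫ i) hzero)
      WalkingParallelPair.zero
  have hkm : Mono k := by
    have : Mono (k ≫ S.f) := by rw [hkf]; exact mono_comp _ _
    exact mono_of_mono k S.f
  obtain ⟨ha, hb⟩ := add_ker_Wk2 q hW (Abelian.factorThruImage c) hp hN hI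
  refine ⟨_, _, k, Abelian.image.ι c, hkm, inferInstance, hK, hI, ha, hb, ?_⟩
  intro z1 z2
  have hex : (ShortComplex.mk (kernel.ι (Abelian.factorThruImage c)) (Abelian.factorThruImage c)
    (kernel.condition _)).Exact := ShortComplex.exact_kernel _
  exact ShortComplex.Exact.isZero_of_both_zeros hex (z1.eq_of_src _ _) (z2.eq_of_tgt _ _)

theorem Fc_ext (hW : WSerre W) (S : ShortComplex 𝒞) (hS : S.ShortExact) (h₁ : q.Fc S.X₁)
    (h₃ : q.Fc S.X₃) : q.Fc S.X₂ := by
  have hW2 := hW.ext S hS h₁.1.1 h₃.1.1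
  refine ⟨⟨hW2, fun N i hi hN hr => ?_⟩, fun N i hi hN => ?_⟩
  · obtain ⟨K, I, k, l, hk, hl, hK, hI, ha, -, hz⟩ := split_Wk2 q hW S hS h₃.1.1 i hi hN
    have h1 := q.r_nonneg K hK
    have h2 := q.r_nonneg I hI
    exact hz (h₁.1.2 K k hk hK (by linarith)) (h₃.1.2 I l hl hI (by linarith))
  · obtain ⟨K, I, k, l, hk, hl, hK, hI, -, hb, -⟩ := split_Wk2 q hW S hS h₃.1.1 i hi hN
    have h1 := h₁.2 K k hk hK
    have h2 := h₃.2 I l hl hI
    linarith

/-- no nonzero maps from `T` to `F`: the image `I` is a torsion-free (subobject of `F`) quotient of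
`T`, so `D I > 0` or `I = 0`, and `D I ≤ 0`. -/
theorem Tc_Fc_zero (hW : WSerre W) {M N : 𝒞} (hM : q.Tc M) (hN : q.Fc N) (f : M ⟶ N) : f = 0 := by
  have hI : W (Abelian.image f) := image_Wk2 hW f hM.1 hN.1.1
  have hF : q.Fc (Abelian.image f) := Fc_sub q hW (Abelian.image.ι f) inferInstance hI hN
  have hz : IsZero (Abelian.image f) := by
    by_contra hz
    have h1 := hM.2 _ (Abelian.factorThruImage f) inferInstance hF.1 hz
    have h2 := hN.2 _ (Abelian.image.ι f) inferInstance hI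
    linarith
  rw [← Abelian.image.fac f, hz.eq_of_src (Abelian.image.ι f) 0, comp_zero]

/-- If every subobject of `M ∈ W` which is in `T` is zero, then `M ∈ F`. Proof: `M` is torsion-free by
`Tc_of_rank_zero`. If `N` is a subobject in `W` with `D N > 0`, choose one of minimal rank. `N` is in
`T`: if `Q` is a nonzero torsion-free quotient of `N` with `D Q ≤ 0` then the kernel `K` has
`D K = D N - D Q > 0` and `r K = r N - r Q < r N` because `r Q > 0` (`Q` is nonzero torsion-free).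
Contradiction; so `N ∈ T`, `N = 0`, `D N = 0`. -/
theorem Fc_of_no_Tc (hW : WSerre W) {M : 𝒞} (hM : W M)
    (h : ∀ (N : 𝒞) (i : N ⟶ M), Mono i → W N → q.Tc N → IsZero N) : q.Fc M := by
  refine ⟨⟨hM, fun N i hi hN hr => h N i hi hN (Tc_of_rank_zero q hW hN hr)⟩, ?_⟩
  suffices H : ∀ (n : ℕ) (N : 𝒞) (i : N ⟶ M), Mono i → W N → (q.r N).toNat = n → q.D N ≤ 0 from
    fun N i hi hN => H _ N i hi hN rfl
  intro n
  induction n using Nat.strong_induction_on with
  | _ n ih =>
    intro N i hi hN hn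
    by_contra hD
    have hD' : 0 < q.D N := not_le.mp hD
    have hT : q.Tc N := by
      refine ⟨hN, fun Q p hp hQ hz => ?_⟩
      by_contra hDQ
      obtain ⟨ha, hb⟩ := add_ker_Wk2 q hW p hp hN hQ.1
      have hK : W (kernel p) := hW.kernel p hN hQ.1
      have hQr : 0 ≤ q.r Q := q.r_nonneg Q hQ.1
      have hQr' : q.r Q ≠ 0 := fun h0 => hz (zero_of_Tf_Wk2 q hQ h0)
      have hKr : 0 ≤ q.r (kernel p) := q.r_nonneg _ hK
      have hlt : (q.r (kernel p)).toNat < n := by omega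
      have := ih _ hlt (kernel p) (kernel.ι p ≫ i) (mono_comp _ _) hK rfl
      linarith
    have h0 := h N i hi hN hT
    have := (inv_zero q hW h0).2.1
    linarith

/-- The torsion pair: every `M ∈ W` has a short exact sequence `T → M → F`. -/
theorem exists_ses (hW : WSerre W) (M : 𝒞) (hM : W M) :
    ∃ S : ShortComplex 𝒞, S.ShortExact ∧ S.X₂ = M ∧ q.Tc S.X₁ ∧ q.Fc S.X₃ := by
  obtain ⟨S, hS, h2, -, hw3, hT, hmax⟩ := exists_max q hW q.Tc
    (fun N hN => Tc_of_rank_zero q hW (hW.zero N hN) (inv_zero q hW hN).1)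
    (fun e hK => Tc_iso q hW e hK)
    (fun T hT _ _ h1 h3 => Tc_ext q hW T hT h1 h3) M hM
  exact ⟨S, hS, h2, hT, Fc_of_no_Tc q hW hw3 (fun N i hi hN hN' => hmax N i hi hN hN')⟩

end RDX

end M21.E3
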