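import Pool.Agent.H.MP_21b43d_ag.E3.DbW
import Pool.Agent.H.MP_21b43d_ag.E3.Wk2

/-!
# M21, existence part, B6: the tilted t-structure
(Happel-Reiten-Smalø for the torsion pair `(T, F)` of slope 0 on `W`)
-/

open CategoryTheory CategoryTheory.Limits CategoryTheory.Pretriangulated
  CategoryTheory.Triangulated

universe w v u

noncomputable section

namespace M21.E3

variable {𝒞 : Type u} [Category.{v} 𝒞] [Abelian 𝒞] [HasDerivedCategory.{w} 𝒞]
  {W : ObjectProperty 𝒞}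

section les_Tilt1

open DerivedCategory

variable {T : Triangle (DerivedCategory 𝒞)} (hT : T ∈ distTriang (DerivedCategory 𝒞))

include hT

theorem mono1_Tilt1 (n₀ n₁ : ℤ) (h : n₀ + 1 = n₁) (hz : IsZero (HH n₀ T.obj₃)) :
    Mono ((homologyFunctor 𝒞 n₁).map T.mor₁) := by
  rw [HomologySequence.mono_homologyMap_mor₁_iff T hT n₀ n₁ h]
  exact hz.eq_zero_of_src _

theorem epi1_Tilt1 (n : ℤ) (hz : IsZero (HH n T.obj₃)) :
    Epi ((homologyFunctor 𝒞 n).map T.mor₁) := by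
  rw [HomologySequence.epi_homologyMap_mor₁_iff T hT n]
  exact hz.eq_zero_of_tgt _

theorem epi2_Tilt1 (n₀ n₁ : ℤ) (h : n₀ + 1 = n₁) (hz : IsZero (HH n₁ T.obj₁)) :
    Epi ((homologyFunctor 𝒞 n₀).map T.mor₂) := by
  rw [HomologySequence.epi_homologyMap_mor₂_iff T hT n₀ n₁ h]
  exact hz.eq_zero_of_tgt _

theorem mono2_Tilt1 (n : ℤ) (hz : IsZero (HH n T.obj₁)) :
    Mono ((homologyFunctor 𝒞 n).map T.mor₂) := by
  rw [HomologySequence.mono_homologyMap_mor₂_iff T hT n]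
  exact hz.eq_zero_of_src _

theorem isZero1_Tilt1 (n₀ n₁ : ℤ) (h : n₀ + 1 = n₁)
    (h₀ : Epi ((homologyFunctor 𝒞 n₀).map T.mor₂))
    (h₁ : Mono ((homologyFunctor 𝒞 n₁).map T.mor₂)) : IsZero (HH n₁ T.obj₁) := by
  have e := HomologySequence.exact₁ T hT n₀ n₁ h
  rw [HomologySequence.epi_homologyMap_mor₂_iff T hT n₀ n₁ h] at h₀
  rw [HomologySequence.mono_homologyMap_mor₂_iff T hT n₁] at h₁
  exact e.isZero_of_both_zeros h₀ h₁

theorem isZero2_Tilt1 (n : ℤ) (h₁ : IsZero (HH n T.obj₁)) (h₃ : IsZero (HH n T.obj₃)) :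
    IsZero (HH n T.obj₂) := by
  have e := HomologySequence.exact₂ T hT n
  exact e.isZero_of_both_zeros (h₁.eq_zero_of_src _) (h₃.eq_zero_of_tgt _)

theorem isZero3_Tilt1 (n₀ n₁ : ℤ) (h : n₀ + 1 = n₁)
    (h₀ : Epi ((homologyFunctor 𝒞 n₀).map T.mor₁))
    (h₁ : Mono ((homologyFunctor 𝒞 n₁).map T.mor₁)) : IsZero (HH n₀ T.obj₃) := by
  have e := HomologySequence.exact₃ T hT n₀ n₁ h
  rw [HomologySequence.epi_homologyMap_mor₁_iff T hT n₀] at h₀
  rw [HomologySequence.mono_homologyMap_mor₁_iff T hT n₀ n₁ h] at h₁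
  exact e.isZero_of_both_zeros h₀ h₁

theorem isZero3a_Tilt1 (n₀ n₁ : ℤ) (h : n₀ + 1 = n₁)
    (h₀ : IsZero (HH n₀ T.obj₂)) (h₁ : IsZero (HH n₁ T.obj₁)) : IsZero (HH n₀ T.obj₃) := by
  have e := HomologySequence.exact₃ T hT n₀ n₁ h
  exact e.isZero_of_both_zeros (h₀.eq_zero_of_src _) (h₁.eq_zero_of_tgt _)

theorem isZero1a_Tilt1 (n₀ n₁ : ℤ) (h : n₀ + 1 = n₁)
    (h₀ : IsZero (HH n₀ T.obj₃)) (h₁ : IsZero (HH n₁ T.obj₂)) : IsZero (HH n₁ T.obj₁) := by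
  have e := HomologySequence.exact₁ T hT n₀ n₁ h
  exact e.isZero_of_both_zeros (h₀.eq_zero_of_src _) (h₁.eq_zero_of_tgt _)

end les_Tilt1

/-- a map between objects of the standard heart is zero iff it is zero on `H^0` -/
theorem heart_Tilt1 {X Y : DerivedCategory 𝒞} [X.IsLE 0] [X.IsGE 0] [Y.IsLE 0] [Y.IsGE 0]
    (f : X ⟶ Y) (hf : (DerivedCategory.homologyFunctor 𝒞 0).map f = 0) : f = 0 := by
  obtain ⟨A, ⟨a⟩⟩ := DerivedCategory.exists_iso_singleFunctor_obj_of_isGE_of_isLE X 0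
  obtain ⟨B, ⟨b⟩⟩ := DerivedCategory.exists_iso_singleFunctor_obj_of_isGE_of_isLE Y 0
  obtain ⟨g, hg⟩ := (DerivedCategory.singleFunctor 𝒞 0).map_surjective (a.inv ≫ f ≫ b.hom)
  have h1 : (DerivedCategory.homologyFunctor 𝒞 0).map
      ((DerivedCategory.singleFunctor 𝒞 0).map g) = 0 := by
    rw [hg, Functor.map_comp, Functor.map_comp, hf, zero_comp, comp_zero]
  have h2 : g = 0 := by
    have e := (DerivedCategory.singleFunctorCompHomologyFunctorIso 𝒞 0).hom.naturality g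
    simp only [Functor.comp_map, Functor.id_map] at e
    rw [h1, zero_comp] at e
    rw [← cancel_epi ((DerivedCategory.singleFunctorCompHomologyFunctorIso 𝒞 0).hom.app A), ← e,
      comp_zero]
  rw [h2, Functor.map_zero] at hg
  have h3 : f = a.hom ≫ (a.inv ≫ f ≫ b.hom) ≫ b.inv := by simp
  rw [h3, ← hg]; simp

/-- If `X` is `≤ 0` and `Y` is `≥ 0` then a map `f : X → Y` is zero iff `H^0 f = 0`. (`f` factors
through the truncations: `X → τ^{≥0} X ≅ H^0(X)[0] → H^0(Y)[0] ≅ τ^{≤0} Y → Y`, and the single functor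
is fully faithful, `H^0` of the middle map is `H^0 f` up to isomorphisms.) -/
theorem eq_zero_iff_H0 {X Y : DerivedCategory 𝒞} (hX : X.IsLE 0) (hY : Y.IsGE 0) (f : X ⟶ Y) :
    f = 0 ↔ (DerivedCategory.homologyFunctor 𝒞 0).map f = 0 := by
  refine ⟨fun h => by rw [h, Functor.map_zero], fun h => ?_⟩
  -- truncation of `X`
  obtain ⟨X', X'', hX', hX'', i, p, d, hT⟩ :=
    DerivedCategory.TStructure.t.exists_triangle X (-1) 0 (by lia)
  have hX'i : X'.IsLE (-1) := ⟨hX'⟩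
  have hX''i : X''.IsGE 0 := ⟨hX''⟩
  have hX''l : X''.IsLE 0 := by
    rw [DerivedCategory.isLE_iff]
    intro n hn
    exact isZero3a_Tilt1 hT n (n + 1) rfl (X.isZero_of_isLE 0 n hn)
      (X'.isZero_of_isLE (-1) (n + 1) (by lia))
  -- truncation of `Y`
  obtain ⟨Y', Y'', hY', hY'', j, q, e, hT'⟩ :=
    DerivedCategory.TStructure.t.exists_triangle Y 0 1 (by lia)
  have hY'i : Y'.IsLE 0 := ⟨hY'⟩
  have hY''i : Y''.IsGE 1 := ⟨hY''⟩
  have hY'g : Y'.IsGE 0 := by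
    rw [DerivedCategory.isGE_iff]
    intro n hn
    exact isZero1a_Tilt1 hT' (n - 1) n (by lia) (Y''.isZero_of_isGE 1 (n - 1) (by lia))
      (Y.isZero_of_isGE 0 n hn)
  -- factorisation of `f`
  obtain ⟨f', hf'⟩ : ∃ f' : X'' ⟶ Y, f = p ≫ f' :=
    Triangle.yoneda_exact₂ _ hT f (DerivedCategory.TStructure.t.zero (i ≫ f) (-1) 0 (by lia))
  obtain ⟨f'', hf''⟩ : ∃ f'' : X'' ⟶ Y', f' = f'' ≫ j :=
    Triangle.coyoneda_exact₂ _ hT' f' (DerivedCategory.TStructure.t.zero (f' ≫ q) 0 1 (by lia))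
  have hp : Epi ((DerivedCategory.homologyFunctor 𝒞 0).map p) :=
    epi2_Tilt1 hT 0 1 (by lia) (X'.isZero_of_isLE (-1) 1 (by lia))
  have hj : Mono ((DerivedCategory.homologyFunctor 𝒞 0).map j) :=
    mono1_Tilt1 hT' (-1) 0 (by lia) (Y''.isZero_of_isGE 1 (-1) (by lia))
  have h0 : (DerivedCategory.homologyFunctor 𝒞 0).map f'' = 0 := by
    rw [← cancel_mono ((DerivedCategory.homologyFunctor 𝒞 0).map j),
      ← cancel_epi ((DerivedCategory.homologyFunctor 𝒞 0).map p), ← Functor.map_comp,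
      ← Functor.map_comp, ← hf'', ← hf', h, zero_comp, comp_zero]
  rw [hf', hf'', heart_Tilt1 f'' h0, zero_comp, comp_zero]

theorem iso1_Tilt1 (S S' : ShortComplex 𝒞) (hS : S.Exact) (hS' : S'.Exact) (hm : Mono S.f)
    (hm' : Mono S'.f) (e₂ : S.X₂ ≅ S'.X₂) (e₃ : S.X₃ ≅ S'.X₃)
    (h : S.g ≫ e₃.hom = e₂.hom ≫ S'.g) :
    ∃ e₁ : S.X₁ ≅ S'.X₁, e₁.hom ≫ S'.f = S.f ≫ e₂.hom := by
  have h1 : (S.f ≫ e₂.hom) ≫ S'.g = 0 := by
    rw [Category.assoc, ← h, S.zero_assoc, zero_comp]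
  have h2 : (S'.f ≫ e₂.inv) ≫ S.g = 0 := by
    rw [Category.assoc, ← cancel_mono e₃.hom, Category.assoc, Category.assoc, h,
      Iso.inv_hom_id_assoc, S'.zero, zero_comp]
  refine ⟨⟨hS'.lift _ h1, hS.lift _ h2, ?_, ?_⟩, hS'.lift_f _ h1⟩
  · rw [← cancel_mono S.f, Category.assoc, hS.lift_f, hS'.lift_f_assoc]
    simp
  · rw [← cancel_mono S'.f, Category.assoc, hS'.lift_f, hS.lift_f_assoc]
    simp

theorem iso3_Tilt1 (S S' : ShortComplex 𝒞) (hS : S.Exact) (hS' : S'.Exact) (he : Epi S.g)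
    (he' : Epi S'.g) (e₁ : S.X₁ ≅ S'.X₁) (e₂ : S.X₂ ≅ S'.X₂)
    (h : S.f ≫ e₂.hom = e₁.hom ≫ S'.f) : Nonempty (S.X₃ ≅ S'.X₃) := by
  have h1 : S.f ≫ e₂.hom ≫ S'.g = 0 := by
    rw [reassoc_of% h, S'.zero, comp_zero]
  have h2 : S'.f ≫ e₂.inv ≫ S.g = 0 := by
    have : S'.f ≫ e₂.inv = e₁.inv ≫ S.f := by
      rw [Iso.comp_inv_eq, Category.assoc, h, Iso.inv_hom_id_assoc]
    rw [reassoc_of% this, S.zero, comp_zero]
  refine ⟨⟨hS.desc _ h1, hS'.desc _ h2, ?_, ?_⟩⟩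
  · rw [← cancel_epi S.g, hS.g_desc_assoc, Category.assoc, hS'.g_desc]
    simp
  · rw [← cancel_epi S'.g, hS'.g_desc_assoc, Category.assoc, hS.g_desc]
    simp

/-- the truncation triangle of `K`: `A → K → B`, `A ∈ D_W^{≤ 0}`, `B ≥ 1` and `A → M[0]`. -/
theorem trunc_Tilt1 (hW : WSerre W) (K : DerivedCategory 𝒞) (hK : dbW W K) :
    ∃ (A : DerivedCategory 𝒞) (a : A ⟶ K) (M : 𝒞)
      (m : A ⟶ (DerivedCategory.singleFunctor 𝒞 0).obj M), dbW W A ∧ W M ∧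
      (∀ i, 0 < i → IsZero (HH i A)) ∧
      (∀ i, i ≤ 0 → IsIso ((DerivedCategory.homologyFunctor 𝒞 i).map a)) ∧
      IsIso ((DerivedCategory.homologyFunctor 𝒞 0).map m) := by
  obtain ⟨A, B, hA, hB, a, b, d, hT⟩ :=
    DerivedCategory.TStructure.t.exists_triangle K 0 1 (by lia)
  have hAi : A.IsLE 0 := ⟨hA⟩
  have hBi : B.IsGE 1 := ⟨hB⟩
  obtain ⟨A', A'', hA', hA'', i, p, e, hT'⟩ :=
    DerivedCategory.TStructure.t.exists_triangle A (-1) 0 (by lia)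
  have hA'i : A'.IsLE (-1) := ⟨hA'⟩
  have hA''i : A''.IsGE 0 := ⟨hA''⟩
  have hA''l : A''.IsLE 0 := by
    rw [DerivedCategory.isLE_iff]
    intro n hn
    exact isZero3a_Tilt1 hT' n (n + 1) rfl (A.isZero_of_isLE 0 n hn)
      (A'.isZero_of_isLE (-1) (n + 1) (by lia))
  obtain ⟨M, ⟨u⟩⟩ := DerivedCategory.exists_iso_singleFunctor_obj_of_isGE_of_isLE A'' 0
  have hiso : ∀ n, n ≤ 0 → IsIso ((DerivedCategory.homologyFunctor 𝒞 n).map a) := by
    intro n hn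
    have h1 : Mono ((DerivedCategory.homologyFunctor 𝒞 n).map a) :=
      mono1_Tilt1 hT (n - 1) n (by lia) (B.isZero_of_isGE 1 (n - 1) (by lia))
    have h2 : Epi ((DerivedCategory.homologyFunctor 𝒞 n).map a) :=
      epi1_Tilt1 hT n (B.isZero_of_isGE 1 n (by lia))
    exact isIso_of_mono_of_epi _
  have hp : IsIso ((DerivedCategory.homologyFunctor 𝒞 0).map p) := by
    have h1 : Mono ((DerivedCategory.homologyFunctor 𝒞 0).map p) :=
      mono2_Tilt1 hT' 0 (A'.isZero_of_isLE (-1) 0 (by lia))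
    have h2 : Epi ((DerivedCategory.homologyFunctor 𝒞 0).map p) :=
      epi2_Tilt1 hT' 0 1 (by lia) (A'.isZero_of_isLE (-1) 1 (by lia))
    exact isIso_of_mono_of_epi _
  have hWA : ∀ n, W (HH n A) := by
    intro n
    rcases le_or_gt n 0 with hn | hn
    · have := hiso n hn
      exact hW.iso (asIso ((DerivedCategory.homologyFunctor 𝒞 n).map a)).symm (hK.2 n)
    · exact hW.zero _ (A.isZero_of_isLE 0 n hn)
  obtain ⟨⟨r, s, hr, hs⟩, hKW⟩ := hK
  refine ⟨A, a, M, p ≫ u.hom, ⟨⟨min r 0, 0, ?_, hAi⟩, hWA⟩, ?_,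
    fun n hn => A.isZero_of_isLE 0 n hn, hiso, ?_⟩
  · rw [DerivedCategory.isGE_iff]
    intro n hn
    have := hiso n (by lia)
    exact (K.isZero_of_isGE r n (by lia)).of_iso
      (asIso ((DerivedCategory.homologyFunctor 𝒞 n).map a))
  · have e1 : HH 0 A ≅ HH 0 A'' := asIso ((DerivedCategory.homologyFunctor 𝒞 0).map p)
    have e2 : HH 0 A'' ≅ HH 0 ((DerivedCategory.singleFunctor 𝒞 0).obj M) :=
      (DerivedCategory.homologyFunctor 𝒞 0).mapIso u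
    have e3 : HH 0 ((DerivedCategory.singleFunctor 𝒞 0).obj M) ≅ M :=
      (DerivedCategory.singleFunctorCompHomologyFunctorIso 𝒞 0).app M
    exact hW.iso (e1 ≪≫ e2 ≪≫ e3) (hWA 0)
  · rw [Functor.map_comp]
    infer_instance

/-- For `K` there are a triangle `X → K → Y` as needed for the tilt: `H^i X ≅ H^i K` for `i < 0`,
`H^0 X ∈ T`, `H^i X = 0` for `i > 0`; `H^i Y = 0` for `i < 0`, `H^0 Y ∈ F`, `H^i Y ≅ H^i K` for `i > 0`.
Proof: let `T → H^0 K → F` be the torsion sequence, `p : τ^{≤0} K → H^0(K)[0] → F[0]`, `X` the fibre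
of `p`, `X → τ^{≤0} K → K`, `Y` its cone; compute with the long exact sequences (`H^0 p` is epi with
kernel `T`). -/
theorem exists_tilt_triangle (hW : WSerre W) (q : RDX W) (K : DerivedCategory 𝒞) (hK : dbW W K) :
    ∃ (X Y : DerivedCategory 𝒞) (f : X ⟶ K) (g : K ⟶ Y) (δ : Y ⟶ X⟦(1 : ℤ)⟧),
      Triangle.mk f g δ ∈ distTriang (DerivedCategory 𝒞) ∧ dbW W X ∧ dbW W Y ∧
      (∀ i, 0 < i → IsZero (HH i X)) ∧ q.Tc (HH 0 X) ∧
      (∀ i, i < 0 → IsZero (HH i Y)) ∧ q.Fc (HH 0 Y) := by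
  obtain ⟨A, a, M, m, hA, hM, hA0, haiso, hmiso⟩ := trunc_Tilt1 hW K hK
  obtain ⟨S, hS, hSM, hTc, hFc⟩ := q.exists_ses hW M hM
  subst hSM
  have hST : W S.X₁ := hTc.1
  have hSF : W S.X₃ := hFc.1.1
  -- the map `A → F[0]`
  let F₀ := (DerivedCategory.singleFunctor 𝒞 0).obj S.X₃
  let p : A ⟶ F₀ := m ≫ (DerivedCategory.singleFunctor 𝒞 0).map S.g
  have hF₀z : ∀ n, n ≠ 0 → IsZero (HH n F₀) := by
    intro n hn
    rcases lt_or_gt_of_ne hn with h | h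
    · exact F₀.isZero_of_isGE 0 n h
    · exact F₀.isZero_of_isLE 0 n h
  obtain ⟨X, x, w, hT⟩ := distinguished_cocone_triangle₁ p
  obtain ⟨Y, g, δ, hT'⟩ := distinguished_cocone_triangle (x ≫ a)
  have htri := dbW_triangulated hW
  have hcl : (dbW W).IsClosedUnderIsomorphisms := ⟨fun e h => dbW_iso hW e h⟩
  have hX : dbW W X := (dbW W).ext_of_isTriangulatedClosed₁ _ hT hA (dbW_single hW _ hSF 0)
  have hY : dbW W Y := (dbW W).ext_of_isTriangulatedClosed₃ _ hT' hX hK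
  -- `H^0 p` is an epimorphism with kernel `T`
  let σ := DerivedCategory.singleFunctorCompHomologyFunctorIso 𝒞 0
  let mm : HH 0 A ≅ S.X₂ := asIso ((DerivedCategory.homologyFunctor 𝒞 0).map m) ≪≫ σ.app S.X₂
  have hp : (DerivedCategory.homologyFunctor 𝒞 0).map p = mm.hom ≫ S.g ≫ σ.inv.app S.X₃ := by
    have e := σ.inv.naturality S.g
    simp only [Functor.comp_map, Functor.id_map] at e
    simp only [p, mm, Functor.map_comp, Iso.trans_hom, asIso_hom, Category.assoc, Iso.app_hom, e,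
      Iso.hom_inv_id_app_assoc]
  have hpe : Epi ((DerivedCategory.homologyFunctor 𝒞 0).map p) := by
    have := hS.epi_g
    rw [hp]
    infer_instance
  have hX0 : ∀ i, 0 < i → IsZero (HH i X) := by
    intro i hi
    rcases eq_or_lt_of_le (show 1 ≤ i by lia) with h1 | h1
    · subst h1
      exact isZero1_Tilt1 hT 0 1 (by lia) hpe ((hA0 1 (by lia)).mono _)
    · exact isZero1a_Tilt1 hT (i - 1) i (by lia) (hF₀z (i - 1) (by lia)) (hA0 i hi)
  -- the map `H^i X → H^i A`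
  have hxm : ∀ i, i ≤ 0 → Mono ((DerivedCategory.homologyFunctor 𝒞 i).map x) :=
    fun i hi => mono1_Tilt1 hT (i - 1) i (by lia) (hF₀z (i - 1) (by lia))
  have hxe : ∀ i, i < 0 → Epi ((DerivedCategory.homologyFunctor 𝒞 i).map x) :=
    fun i hi => epi1_Tilt1 hT i (hF₀z i (by lia))
  -- `H^0 X ≅ T`
  have hσ : ((DerivedCategory.homologyFunctor 𝒞 0).map p) ≫ (σ.app S.X₃).hom = mm.hom ≫ S.g := by
    rw [hp]
    simp
  obtain ⟨e₁, he₁⟩ := iso1_Tilt1 (ShortComplex.mk ((DerivedCategory.homologyFunctor 𝒞 0).map x)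
    ((DerivedCategory.homologyFunctor 𝒞 0).map p) _) S
    (DerivedCategory.HomologySequence.exact₂ _ hT 0) hS.exact (hxm 0 le_rfl) hS.mono_f mm
    (σ.app S.X₃) hσ
  -- `H^0 Y ≅ F`
  have ha0 := haiso 0 le_rfl
  let kk : HH 0 K ≅ S.X₂ := (asIso ((DerivedCategory.homologyFunctor 𝒞 0).map a)).symm ≪≫ mm
  obtain ⟨e₃⟩ := iso3_Tilt1 (ShortComplex.mk ((DerivedCategory.homologyFunctor 𝒞 0).map (x ≫ a))
    ((DerivedCategory.homologyFunctor 𝒞 0).map g) _) S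
    (DerivedCategory.HomologySequence.exact₂ _ hT' 0) hS.exact
    (epi2_Tilt1 hT' 0 1 (by lia) (hX0 1 (by lia))) hS.epi_g e₁ kk (by
      simp only [kk, Functor.map_comp, Iso.trans_hom, Iso.symm_hom, asIso_inv, Category.assoc,
        IsIso.hom_inv_id_assoc]
      exact he₁.symm)
  refine ⟨X, Y, x ≫ a, g, δ, hT', hX, hY, hX0, q.Tc_iso hW e₁.symm hTc, ?_,
    q.Fc_iso hW e₃.symm hFc⟩
  · intro i hi
    refine isZero3_Tilt1 hT' i (i + 1) rfl ?_ ?_
    · have h1 := hxe i hi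
      have h2 := haiso i (by lia)
      change Epi ((DerivedCategory.homologyFunctor 𝒞 i).map (x ≫ a))
      rw [Functor.map_comp]
      infer_instance
    · have h1 := hxm (i + 1) (by lia)
      have h2 := haiso (i + 1) (by lia)
      change Mono ((DerivedCategory.homologyFunctor 𝒞 (i + 1)).map (x ≫ a))
      rw [Functor.map_comp]
      infer_instance

end M21.E3
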